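import Mathlib
import Pool.Graph.R_seed8.R405.PlaceExt

set_option autoImplicit false

/-!
Embeddings of number fields in ultrametric fields and prime ideals.
-/

namespace Pool.Agent.Helper60.SP

open Finset NumberField IsDedekindDomain Polynomial
open Pool.Agent.Y742.SF (fv fv_le_one_iff fv_mul fv_nonneg fv_pos fv_one fv_zero fv_eq_one_iff
  fv_int)
open Pool.Agent.R405 (fa fa_apply fa_nontrivial fv_lt_one_iff)

section ultra

variable {L : Type} [NormedField L] [IsUltrametricDist L]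

theorem norm_int_le_one (a : ℤ) : ‖(a : L)‖ ≤ 1 := IsUltrametricDist.norm_intCast_le_one L a

/-- the roots of monic integer polynomials -/
theorem norm_root_le_one (f : ℤ[X]) (hf : f.Monic) (y : L) (hy : aeval y f = 0) : ‖y‖ ≤ 1 := by
  by_contra hcon
  rw [not_le] at hcon
  have h0 : 0 < ‖y‖ := by linarith
  have h1 : y ^ f.natDegree = -∑ i ∈ range f.natDegree, (f.coeff i : L) * y ^ i := by
    rw [aeval_eq_sum_range, Finset.sum_range_succ, hf.coeff_natDegree, one_smul] at hy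
    rw [eq_neg_iff_add_eq_zero, add_comm, ← hy]
    congr 1
    refine Finset.sum_congr rfl fun i _ => ?_
    rw [zsmul_eq_mul]
  have hd : f.natDegree ≠ 0 := by
    intro hd
    rw [hd, Finset.range_zero, Finset.sum_empty, neg_zero, pow_zero] at h1
    exact one_ne_zero h1
  have h2 : ‖∑ i ∈ range f.natDegree, (f.coeff i : L) * y ^ i‖ ≤ ‖y‖ ^ (f.natDegree - 1) := by
    refine IsUltrametricDist.norm_sum_le_of_forall_le_of_nonneg (by positivity) fun i hi => ?_
    rw [Finset.mem_range] at hi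
    rw [norm_mul, norm_pow]
    calc ‖(f.coeff i : L)‖ * ‖y‖ ^ i ≤ 1 * ‖y‖ ^ i :=
          mul_le_mul_of_nonneg_right (norm_int_le_one _) (by positivity)
      _ = ‖y‖ ^ i := one_mul _
      _ ≤ ‖y‖ ^ (f.natDegree - 1) := pow_le_pow_right₀ hcon.le (by omega)
  have h3 : ‖y‖ ^ f.natDegree ≤ ‖y‖ ^ (f.natDegree - 1) := by
    rw [← norm_pow, h1, norm_neg]
    exact h2
  have h4 : ‖y‖ ^ (f.natDegree - 1) < ‖y‖ ^ f.natDegree := pow_lt_pow_right₀ hcon (by omega)
  linarith

variable {K : Type} [Field K] [NumberField K]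

theorem norm_ring_le_one (φ : K →+* L) (x : 𝓞 K) : ‖φ (x : K)‖ ≤ 1 := by
  obtain ⟨f, hf, hx⟩ := x.2
  refine norm_root_le_one f hf _ ?_
  have h1 := congrArg φ hx
  rw [map_zero] at h1
  rw [← h1, aeval_def, hom_eval₂]
  congr 1
  exact Subsingleton.elim _ _

/-- the prime ideal of an embedding -/
noncomputable def pid (φ : K →+* L) : Ideal (𝓞 K) where
  carrier := {x | ‖φ (x : K)‖ < 1}
  add_mem' := by
    intro a b ha hb
    show ‖φ ((a : K) + (b : K))‖ < 1
    rw [map_add]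
    exact (IsUltrametricDist.norm_add_le_max _ _).trans_lt (max_lt ha hb)
  zero_mem' := by
    show ‖φ ((0 : 𝓞 K) : K)‖ < 1
    simp
  smul_mem' := by
    intro a b hb
    show ‖φ ((a : K) * (b : K))‖ < 1
    rw [map_mul, norm_mul]
    have h1 := norm_ring_le_one φ a
    have h2 : ‖φ (b : K)‖ < 1 := hb
    calc ‖φ (a : K)‖ * ‖φ (b : K)‖ ≤ 1 * ‖φ (b : K)‖ :=
          mul_le_mul_of_nonneg_right h1 (norm_nonneg _)
      _ < 1 := by rw [one_mul]; exact h2

theorem mem_pid (φ : K →+* L) (x : 𝓞 K) : x ∈ pid φ ↔ ‖φ (x : K)‖ < 1 := Iff.rfl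

theorem place_of (φ : K →+* L) (p : ℕ) (hp0 : p ≠ 0) (hp : ‖(p : L)‖ < 1) :
    ∃ P : HeightOneSpectrum (𝓞 K), (p : 𝓞 K) ∈ P.asIdeal ∧
      ∃ c : ℝ, 0 < c ∧ ∀ x : K, ‖φ x‖ = fv P x ^ c := by
  have hpm : (p : 𝓞 K) ∈ pid φ := by
    show ‖φ (p : K)‖ < 1
    rw [map_natCast]
    exact hp
  have hprime : (pid φ).IsPrime := by
    constructor
    · intro h
      have h1 : (1 : 𝓞 K) ∈ pid φ := by rw [h]; trivial
      rw [mem_pid] at h1
      simp at h1
    · intro x y hxy
      have hxy' : ‖φ ((x : K) * (y : K))‖ < 1 := hxy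
      rw [map_mul, norm_mul] at hxy'
      by_contra hcon
      rw [not_or, mem_pid, mem_pid, not_lt, not_lt] at hcon
      have := mul_le_mul hcon.1 hcon.2 zero_le_one (norm_nonneg _)
      linarith [hxy']
  have hbot : pid φ ≠ ⊥ := by
    intro h
    rw [h, Ideal.mem_bot] at hpm
    exact hp0 (by exact_mod_cast hpm)
  let P : HeightOneSpectrum (𝓞 K) := ⟨pid φ, hprime, hbot⟩
  refine ⟨P, hpm, ?_⟩
  let f : AbsoluteValue K ℝ :=
    { toFun := fun x => ‖φ x‖
      map_mul' := fun x y => by rw [map_mul, norm_mul]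
      nonneg' := fun x => norm_nonneg _
      eq_zero' := fun x => by rw [norm_eq_zero, map_eq_zero]
      add_le' := fun x y => by
        rw [map_add]
        exact norm_add_le _ _ }
  have hf : ∀ x, f x = ‖φ x‖ := fun x => rfl
  have h1 := AbsoluteValue.isEquiv_of_lt_one_imp (v := fa P) (w := f) (fa_nontrivial P)
    (fun x hx => by
      rw [fa_apply, fv_lt_one_iff] at hx
      obtain ⟨n, d, hnd⟩ := P.exists_primeCompl_mul_eq_of_integer x hx.le
      have hd : ‖φ ((d : 𝓞 K) : K)‖ = 1 := by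
        refine le_antisymm (norm_ring_le_one φ _) ?_
        rw [← not_lt]
        exact d.2
      have hvd : P.valuation K (algebraMap (𝓞 K) K (d : 𝓞 K)) = 1 :=
        (P.valuation_eq_one_iff_notMem).2 d.2
      have hvn : P.valuation K (algebraMap (𝓞 K) K n) < 1 := by
        rw [← hnd, map_mul, hvd, mul_one]
        exact hx
      have hn : n ∈ P.asIdeal := (P.valuation_lt_one_iff_mem n).1 hvn
      have hn' : ‖φ (n : K)‖ < 1 := hn
      have h2 := congrArg (fun z => ‖φ z‖) hnd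
      simp only [map_mul, norm_mul] at h2
      have hd' : ‖φ (algebraMap (𝓞 K) K (d : 𝓞 K))‖ = 1 := hd
      rw [hd', mul_one] at h2
      rw [hf, h2]
      exact hn')
  obtain ⟨c, hc, h2⟩ := AbsoluteValue.isEquiv_iff_exists_rpow_eq.1 h1
  exact ⟨c, hc, fun x => (congrFun h2 x).symm⟩

end ultra

end Pool.Agent.Helper60.SP
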