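import Mathlib
import Pool.Graph.R_seed8.Y556.SK.Bound

set_option autoImplicit false

/-!
The sequences annihilated by a fixed integer polynomial.
-/

namespace Pool.Agent.Helper60.SP

open Finset NumberField Polynomial
open Pool.Agent.H692R2.USS
open Pool.Agent.Helper259.AbsHt
open Pool.Agent.Y215.SK (exists_galois)
open Pool.Agent.Y556.SK (bin rep exists_roots)

/-- the solution whose initial values form a unit vector -/
noncomputable def es (g : ℤ[X]) (j n : ℕ) : ℤ := (X ^ n %ₘ g).coeff j

theorem es_ini (g : ℤ[X]) (hg : g.Monic) (j n : ℕ) (hn : n < g.natDegree) :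
    es g j n = if j = n then 1 else 0 := by
  unfold es
  have hne : g ≠ 1 := by
    rintro rfl
    simp at hn
  rw [(modByMonic_eq_self_iff hg).2, coeff_X_pow]
  rw [degree_X_pow, degree_eq_natDegree hg.ne_zero]
  exact_mod_cast hn

theorem es_ann (g : ℤ[X]) (hg : g.Monic) (j : ℕ) : Ann g (es g j) := by
  rw [ann_iff (Nat.lt_succ_self _)]
  intro n
  have h1 : ∑ i ∈ range (g.natDegree + 1), g.coeff i * es g j (n + i) =
      ((X ^ n * g) %ₘ g).coeff j := by
    have h2 : X ^ n * g = ∑ i ∈ range (g.natDegree + 1), g.coeff i • (X ^ (n + i) : ℤ[X]) := by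
      conv_lhs => rw [g.as_sum_range_C_mul_X_pow]
      rw [Finset.mul_sum]
      refine Finset.sum_congr rfl fun i _ => ?_
      rw [smul_eq_C_mul, pow_add]
      ring
    have h3 : (X ^ n * g) %ₘ g = ∑ i ∈ range (g.natDegree + 1),
        g.coeff i • ((X ^ (n + i) : ℤ[X]) %ₘ g) := by
      conv_lhs => rw [h2]
      have h4 := map_sum (modByMonicHom g) (fun i => g.coeff i • (X ^ (n + i) : ℤ[X]))
        (range (g.natDegree + 1))
      simp only [map_smul] at h4
      exact h4
    rw [h3, finsetSum_coeff]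
    refine Finset.sum_congr rfl fun i _ => ?_
    rw [coeff_smul, smul_eq_mul]
    rfl
  rw [h1, (modByMonic_eq_zero_iff_dvd hg).2 (dvd_mul_left _ _), coeff_zero]

theorem es_sum (g : ℤ[X]) (hg : g.Monic) {R : Type} [CommRing R] (u : ℕ → R)
    (hu : Ann (g.map (Int.castRingHom R)) u) (n : ℕ) :
    u n = ∑ j ∈ range g.natDegree, (es g j n : R) * u j := by
  rcases subsingleton_or_nontrivial R with hR | hR
  · exact Subsingleton.elim _ _
  have hmon : (g.map (Int.castRingHom R)).Monic := hg.map _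
  have hdeg : (g.map (Int.castRingHom R)).natDegree = g.natDegree := hg.natDegree_map _
  have hann : Ann (g.map (Int.castRingHom R)) (fun n => ∑ j ∈ range g.natDegree,
      (es g j n : R) * u j) := by
    have h1 : (fun n => ∑ j ∈ range g.natDegree, (es g j n : R) * u j) =
        ∑ j ∈ range g.natDegree, u j • (fun n => (Int.castRingHom R) (es g j n)) := by
      funext n
      rw [Finset.sum_apply]
      refine Finset.sum_congr rfl fun j _ => ?_
      rw [Pi.smul_apply, smul_eq_mul, mul_comm]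
      rfl
    rw [h1]
    exact Ann.sum _ fun j _ => ((es_ann g hg j).map (Int.castRingHom R)).smul _
  refine Ann.ext hmon hu hann (fun m hm => ?_) n
  rw [hdeg] at hm
  rw [Finset.sum_eq_single m]
  · rw [es_ini g hg m m hm, if_pos rfl, Int.cast_one, one_mul]
  · intro j hj hjm
    rw [es_ini g hg j m hm, if_neg hjm, Int.cast_zero, zero_mul]
  · intro h
    exact absurd (Finset.mem_range.2 hm) h

theorem bin_sum {F : Type} [Field F] {ι : Type} (T : Finset ι) (k : ℕ) (a : ι → ℕ → F) (n : ℕ) :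
    ∑ t ∈ T, bin k (a t) n = bin k (fun s => ∑ t ∈ T, a t s) n := by
  unfold bin
  rw [Finset.sum_comm]
  refine Finset.sum_congr rfl fun s _ => ?_
  rw [Finset.sum_mul]

theorem map_bin {F G : Type} [Field F] [Field G] (φ : F →+* G) (k : ℕ) (a : ℕ → F) (n : ℕ) :
    φ (bin k a n) = bin k (fun s => φ (a s)) n := by
  unfold bin
  rw [map_sum]
  refine Finset.sum_congr rfl fun s _ => ?_
  rw [map_mul, map_natCast]

/-- the representation of the sequences annihilated by `g` -/
theorem exists_rep (g : ℤ[X]) (hg : g.Monic) (hg0 : g.coeff 0 ≠ 0) :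
    ∃ (K : Type) (_ : Field K) (_ : NumberField K) (_ : IsGalois ℚ K) (_ : K →+* Qbar) (r : ℕ)
      (lam : Fin r → K) (a : Fin r → ℕ → ℕ → K),
      (∃ z : K, z ^ 2 = -1) ∧ Function.Injective lam ∧
      (∀ i, lam i ≠ 0 ∧ aeval (lam i) g = 0) ∧
      (∃ mu : Fin g.natDegree → Fin r, g.map (Int.castRingHom K) = ∏ t, (X - C (lam (mu t)))) ∧
      (∀ j < g.natDegree, ∀ n, ((es g j n : ℤ) : K) =
        ∑ i, bin g.natDegree (fun s => a i s j) n * lam i ^ n) ∧
      (∀ i s j, g.natDegree ≤ s → a i s j = 0) ∧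
      (Squarefree (g.map (Int.castRingHom ℚ)) → ∀ i s j, 1 ≤ s → a i s j = 0) := by
  classical
  set d := g.natDegree with hd
  have hmonQ : (g.map (Int.castRingHom ℚ)).Monic := hg.map _
  have hdegQ : (g.map (Int.castRingHom ℚ)).natDegree = d := hg.natDegree_map _
  obtain ⟨Λ0, hΛ0, hinj0⟩ := exists_roots _ hmonQ
  obtain ⟨Λ, hΛ, hinj⟩ : ∃ Λ : Fin d → Qbar, g.map (Int.castRingHom Qbar) = ∏ t, (X - C (Λ t)) ∧
      (Squarefree (g.map (Int.castRingHom ℚ)) → Function.Injective Λ) := by
    refine ⟨fun t => Λ0 (t.cast hdegQ.symm), ?_, fun h => (hinj0 h).comp (Fin.cast_injective _)⟩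
    have h1 : g.map (Int.castRingHom Qbar) =
        (g.map (Int.castRingHom ℚ)).map (algebraMap ℚ Qbar) := by
      rw [Polynomial.map_map]
      congr 1
    rw [h1, hΛ0]
    exact Fintype.prod_equiv (finCongr hdegQ) _ _ fun i => rfl
  have hroot : ∀ t, (g.map (Int.castRingHom Qbar)).IsRoot (Λ t) := by
    intro t
    rw [hΛ, IsRoot.def, eval_prod]
    exact Finset.prod_eq_zero (Finset.mem_univ t) (by simp)
  have hΛne : ∀ t, Λ t ≠ 0 := by
    intro t h0
    have h1 := hroot t
    rw [h0, IsRoot.def, ← coeff_zero_eq_eval_zero, coeff_map, eq_intCast] at h1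
    exact hg0 (by exact_mod_cast h1)
  obtain ⟨K0, hK0, hrep⟩ := rep d
  have hex : ∀ j : ℕ, ∃ A : Fin d → ℕ → Qbar, (∀ i s, d ≤ s → A i s = 0) ∧
      (∀ n, ((es g j n : ℤ) : Qbar) = ∑ i, bin d (A i) n * Λ i ^ n) ∧
      (Function.Injective Λ → ∀ i s, 1 ≤ s → A i s = 0) := by
    intro j
    have hann : Ann (∏ i, (X - C (Λ i))) (fun n => ((es g j n : ℤ) : Qbar)) := by
      rw [← hΛ]
      exact (es_ann g hg j).map (Int.castRingHom Qbar)
    obtain ⟨A, h1, h2, -, h4⟩ := hrep Λ hΛne _ hann
    exact ⟨A, h1, h2, h4⟩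
  choose A hA1 hA2 hA3 using hex
  -- the field
  obtain ⟨iq, hiq⟩ : ∃ z : Qbar, z ^ 2 = -1 := by
    obtain ⟨z, hz⟩ := IsAlgClosed.exists_pow_nat_eq (-1 : Qbar) (n := 2) (by norm_num)
    exact ⟨z, hz⟩
  have hfin : (Set.range Λ ∪ Set.range (fun p : Fin d × Fin d × Fin d => A p.1 p.2.1 p.2.2) ∪
      {0, iq} : Set Qbar).Finite :=
    ((Set.finite_range _).union (Set.finite_range _)).union (Set.toFinite _)
  obtain ⟨K, hKn, hKg, hK⟩ := exists_galois _ hfin
  have hKΛ : ∀ t, Λ t ∈ K := fun t => hK _ (Or.inl (Or.inl ⟨t, rfl⟩))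
  have hKA : ∀ j < d, ∀ t s, A j t s ∈ K := by
    intro j hj t s
    by_cases hs : s < d
    · exact hK _ (Or.inl (Or.inr ⟨(⟨j, hj⟩, t, ⟨s, hs⟩), rfl⟩))
    · rw [hA1 j t s (by omega)]
      exact K.zero_mem
  -- distinct roots
  set T : Finset Qbar := Finset.univ.image Λ with hT
  have hTK : ∀ x ∈ T, x ∈ K := by
    intro x hx
    obtain ⟨t, -, rfl⟩ := Finset.mem_image.1 hx
    exact hKΛ t
  let e : Fin T.card ≃ T := T.equivFin.symm
  let lam : Fin T.card → K := fun i => ⟨(e i : Qbar), hTK _ (e i).2⟩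
  have hlamv : ∀ i, ((lam i : K) : Qbar) = (e i : Qbar) := fun i => rfl
  have hlaminj : Function.Injective lam := by
    intro i j hij
    have h1 : ((lam i : K) : Qbar) = ((lam j : K) : Qbar) := by rw [hij]
    rw [hlamv, hlamv] at h1
    exact e.injective (Subtype.ext h1)
  let mu : Fin d → Fin T.card := fun t =>
    e.symm ⟨Λ t, Finset.mem_image_of_mem _ (Finset.mem_univ t)⟩
  have hmu : ∀ t, ((lam (mu t) : K) : Qbar) = Λ t := by
    intro t
    rw [hlamv]
    simp only [mu, Equiv.apply_symm_apply]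
  let A' : ℕ → Fin d → ℕ → K := fun j t s => if h : j < d then ⟨A j t s, hKA j h t s⟩ else 0
  have hA' : ∀ j < d, ∀ t s, ((A' j t s : K) : Qbar) = A j t s := by
    intro j hj t s
    simp only [A', dif_pos hj]
  let a : Fin T.card → ℕ → ℕ → K := fun i s j =>
    ∑ t ∈ Finset.univ.filter (fun t => mu t = i), A' j t s
  refine ⟨K, inferInstance, hKn, hKg, algebraMap K Qbar, T.card, lam, a, ?_, hlaminj, ?_,
    ⟨mu, ?_⟩, ?_, ?_, ?_⟩
  · refine ⟨⟨iq, hK _ (Or.inr (by simp))⟩, ?_⟩
    apply Subtype.ext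
    push_cast
    exact hiq
  · intro i
    obtain ⟨t, -, ht⟩ := Finset.mem_image.1 (e i).2
    have h2 : ((lam i : K) : Qbar) = Λ t := by rw [hlamv, ht]
    constructor
    · intro h0
      rw [h0] at h2
      exact hΛne t h2.symm
    · have h3 := hroot t
      rw [IsRoot.def, eval_map, ← h2] at h3
      have h4 : algebraMap K Qbar (aeval (lam i) g) = 0 := by
        rw [aeval_def, hom_eval₂, ← h3]
        congr 1
      exact (map_eq_zero _).1 h4
  · have hinjK : Function.Injective (Polynomial.map (algebraMap K Qbar)) :=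
      Polynomial.map_injective _ (algebraMap K Qbar).injective
    apply hinjK
    rw [Polynomial.map_map, Polynomial.map_prod]
    have h1 : (algebraMap K Qbar).comp (Int.castRingHom K) = Int.castRingHom Qbar :=
      Subsingleton.elim _ _
    rw [h1, hΛ]
    refine Finset.prod_congr rfl fun t _ => ?_
    rw [Polynomial.map_sub, map_X, map_C]
    congr 2
    exact (hmu t).symm
  · intro j hj n
    apply (algebraMap K Qbar).injective
    rw [map_intCast, hA2 j n, map_sum]
    have h1 : ∀ i : Fin T.card, algebraMap K Qbar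
        (bin d (fun s => a i s j) n * lam i ^ n) =
        ∑ t ∈ Finset.univ.filter (fun t => mu t = i), bin d (A j t) n * Λ t ^ n := by
      intro i
      have h2 : (fun s => a i s j) = fun s => ∑ t ∈ Finset.univ.filter (fun t => mu t = i),
          A' j t s := rfl
      rw [h2, ← bin_sum, Finset.sum_mul, map_sum]
      refine Finset.sum_congr rfl fun t ht => ?_
      rw [Finset.mem_filter] at ht
      rw [map_mul, map_pow, map_bin, ← ht.2]
      have h3 : (fun s => algebraMap K Qbar (A' j t s)) = A j t := by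
        funext s
        exact hA' j hj t s
      rw [h3]
      congr 2
      exact hmu t
    rw [Finset.sum_congr rfl fun i _ => h1 i]
    exact (Finset.sum_fiberwise_of_maps_to (s := Finset.univ) (t := Finset.univ) (g := mu)
      (fun t _ => Finset.mem_univ _) (fun t => bin d (A j t) n * Λ t ^ n)).symm
  · intro i s j hs
    refine Finset.sum_eq_zero fun t _ => ?_
    by_cases hj : j < d
    · apply Subtype.ext
      rw [hA' j hj, hA1 j t s hs]
      rfl
    · simp only [A', dif_neg hj]
  · intro hsq i s j hs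
    refine Finset.sum_eq_zero fun t _ => ?_
    by_cases hj : j < d
    · apply Subtype.ext
      rw [hA' j hj, hA3 j (hinj hsq) t s hs]
      rfl
    · simp only [A', dif_neg hj]

end Pool.Agent.Helper60.SP
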