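import Mathlib
import Pool.Agent.Helper60.SP.Zseq

set_option autoImplicit false

/-!
Splitting off the part of a sequence which belongs to a fixed factor.
-/

namespace Pool.Agent.Helper60.SP

open Finset Polynomial
open Pool.Agent.H692R2.USS

/-- the sum of the absolute values of the lower coefficients -/
noncomputable def GG (g : ℤ[X]) : ℝ := ∑ i ∈ range g.natDegree, |(g.coeff i : ℝ)|

theorem GG_nonneg (g : ℤ[X]) : 0 ≤ GG g := Finset.sum_nonneg fun _ _ => abs_nonneg _

theorem growth (g : ℤ[X]) (hg : g.Monic) (u : ℕ → ℤ) (hu : Ann g u) (A : ℝ)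
    (hA : ∀ i < g.natDegree, |(u i : ℝ)| ≤ A) (hA0 : 0 ≤ A) (n : ℕ) :
    |(u n : ℝ)| ≤ A * (1 + GG g) ^ n := by
  have hG := GG_nonneg g
  induction n using Nat.strong_induction_on with
  | _ n ih =>
    by_cases hn : n < g.natDegree
    · refine (hA n hn).trans ?_
      exact le_mul_of_one_le_right hA0 (one_le_pow₀ (by linarith))
    · rw [not_lt] at hn
      have h := (ann_iff (Nat.lt_succ_self _)).1 hu (n - g.natDegree)
      rw [Finset.sum_range_succ, hg.coeff_natDegree, one_mul, Nat.sub_add_cancel hn] at h
      have h1 : u n = -∑ i ∈ range g.natDegree, g.coeff i * u (n - g.natDegree + i) := by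
        linarith
      have h2 : |(u n : ℝ)| ≤ ∑ i ∈ range g.natDegree,
          |(g.coeff i : ℝ)| * |(u (n - g.natDegree + i) : ℝ)| := by
        rw [h1]
        push_cast
        rw [abs_neg]
        refine (Finset.abs_sum_le_sum_abs _ _).trans (le_of_eq ?_)
        refine Finset.sum_congr rfl fun i _ => ?_
        rw [abs_mul]
      by_cases hd : g.natDegree = 0
      · rw [hd, Finset.range_zero, Finset.sum_empty] at h2
        exact h2.trans (by positivity)
      have h3 : ∀ i ∈ range g.natDegree,
          |(g.coeff i : ℝ)| * |(u (n - g.natDegree + i) : ℝ)| ≤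
            |(g.coeff i : ℝ)| * (A * (1 + GG g) ^ (n - 1)) := by
        intro i hi
        rw [Finset.mem_range] at hi
        refine mul_le_mul_of_nonneg_left ?_ (abs_nonneg _)
        refine (ih _ (by omega)).trans ?_
        refine mul_le_mul_of_nonneg_left ?_ hA0
        exact pow_le_pow_right₀ (by linarith) (by omega)
      have h4 := Finset.sum_le_sum h3
      rw [← Finset.sum_mul] at h4
      have h5 : (∑ i ∈ range g.natDegree, |(g.coeff i : ℝ)|) = GG g := rfl
      rw [h5] at h4
      obtain ⟨m, rfl⟩ : ∃ m, n = m + 1 := ⟨n - 1, by omega⟩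
      rw [Nat.add_sub_cancel] at h4
      have h6 : 0 ≤ A * (1 + GG g) ^ m := by positivity
      rw [pow_succ]
      nlinarith

theorem es_le (g : ℤ[X]) (hg : g.Monic) (j n : ℕ) : |(es g j n : ℝ)| ≤ (1 + GG g) ^ n := by
  have h := growth g hg (es g j) (es_ann g hg j) 1 (fun i hi => by
    rw [es_ini g hg j i hi]
    split_ifs <;> simp) zero_le_one n
  rwa [one_mul] at h

/-- the coefficients of a cofactor -/
theorem cofactor_le (g h : ℤ[X]) (hg : g.Monic) (hh : h.Monic) (M : ℝ) (hM1 : 1 ≤ M)
    (hM : ∀ i, |((g * h).coeff i : ℝ)| ≤ M) (i : ℕ) :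
    |(h.coeff i : ℝ)| ≤ M * (1 + GG g) ^ h.natDegree := by
  have hG := GG_nonneg g
  have key : ∀ t, t ≤ h.natDegree → |(h.coeff (h.natDegree - t) : ℝ)| ≤ M * (1 + GG g) ^ t := by
    intro t
    induction t using Nat.strong_induction_on with
    | _ t ih =>
      intro ht
      rcases Nat.eq_zero_or_pos t with rfl | ht0
      · rw [Nat.sub_zero, hh.coeff_natDegree]
        simpa using hM1
      · set i := h.natDegree - t with hi
        have h1 : (g * h).coeff (g.natDegree + i) = h.coeff i +
            ∑ j ∈ range g.natDegree, g.coeff j * h.coeff (g.natDegree + i - j) := by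
          rw [coeff_mul, Finset.Nat.sum_antidiagonal_eq_sum_range_succ_mk]
          simp only
          have h2 : ∑ j ∈ range (g.natDegree + 1), g.coeff j * h.coeff (g.natDegree + i - j) =
              ∑ j ∈ range (g.natDegree + i + 1), g.coeff j * h.coeff (g.natDegree + i - j) := by
            refine Finset.sum_subset ?_ ?_
            · intro x hx
              rw [Finset.mem_range] at hx ⊢
              omega
            · intro x _ hx
              rw [Finset.mem_range, not_lt] at hx
              rw [coeff_eq_zero_of_natDegree_lt (by omega : g.natDegree < x), zero_mul]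
          rw [← h2, Finset.sum_range_succ, hg.coeff_natDegree, one_mul, Nat.add_sub_cancel_left,
            add_comm]
        have h3 : (h.coeff i : ℝ) = ((g * h).coeff (g.natDegree + i) : ℝ) -
            ∑ j ∈ range g.natDegree, (g.coeff j : ℝ) * (h.coeff (g.natDegree + i - j) : ℝ) := by
          rw [h1]
          push_cast
          ring
        have h4 : ∀ j ∈ range g.natDegree,
            |(g.coeff j : ℝ) * (h.coeff (g.natDegree + i - j) : ℝ)| ≤
              |(g.coeff j : ℝ)| * (M * (1 + GG g) ^ (t - 1)) := by
          intro j hj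
          rw [Finset.mem_range] at hj
          rw [abs_mul]
          refine mul_le_mul_of_nonneg_left ?_ (abs_nonneg _)
          by_cases hbig : h.natDegree < g.natDegree + i - j
          · rw [coeff_eq_zero_of_natDegree_lt hbig]
            simp only [Int.cast_zero, abs_zero]
            positivity
          · obtain ⟨t', ht'1, ht'2⟩ : ∃ t', t' < t ∧ g.natDegree + i - j = h.natDegree - t' :=
              ⟨h.natDegree - (g.natDegree + i - j), by omega, by omega⟩
            rw [ht'2]
            refine (ih t' ht'1 (by omega)).trans ?_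
            refine mul_le_mul_of_nonneg_left ?_ (by linarith)
            exact pow_le_pow_right₀ (by linarith) (by omega)
        have h5 := (Finset.abs_sum_le_sum_abs (fun j => (g.coeff j : ℝ) *
          (h.coeff (g.natDegree + i - j) : ℝ)) (range g.natDegree)).trans (Finset.sum_le_sum h4)
        rw [← Finset.sum_mul] at h5
        have h6 : (∑ i ∈ range g.natDegree, |(g.coeff i : ℝ)|) = GG g := rfl
        rw [h6] at h5
        rw [h3]
        refine (abs_sub _ _).trans ?_
        refine (add_le_add (hM _) h5).trans ?_
        obtain ⟨m, rfl⟩ : ∃ m, t = m + 1 := ⟨t - 1, by omega⟩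
        rw [Nat.add_sub_cancel, pow_succ]
        have h7 : M * 1 ≤ M * (1 + GG g) ^ m :=
          mul_le_mul_of_nonneg_left (one_le_pow₀ (by linarith)) (by linarith)
        nlinarith
  by_cases hi : i ≤ h.natDegree
  · have h1 := key (h.natDegree - i) (by omega)
    have h2 : h.natDegree - (h.natDegree - i) = i := by omega
    rw [h2] at h1
    refine h1.trans ?_
    refine mul_le_mul_of_nonneg_left ?_ (by linarith)
    exact pow_le_pow_right₀ (by linarith) (by omega)
  · rw [coeff_eq_zero_of_natDegree_lt (by omega)]
    simp only [Int.cast_zero, abs_zero]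
    positivity

end Pool.Agent.Helper60.SP
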