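import Mathlib
import Pool.Agent.Helper60.SP.Dec

set_option autoImplicit false

/-!
Upper bounds for the sequences annihilated by a polynomial with small roots.
-/

namespace Pool.Agent.Helper60.SP

open Finset Polynomial
open Pool.Agent.H692R2.USS

theorem ann_cons {L : Type} [Field L] (w : L) (P : L[X]) (x : ℕ → L)
    (hx : Ann ((X - C w) * P) x) : Ann P (fun n => x (n + 1) - w * x n) := by
  unfold Ann at hx ⊢
  rw [mul_comm, map_mul, Module.End.mul_apply] at hx
  have h1 : (aeval (E L) (X - C w)) x = fun n => x (n + 1) - w * x n := by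
    funext n
    rw [map_sub, aeval_X, aeval_C, LinearMap.sub_apply, Pi.sub_apply, E_apply]
    rfl
  rw [h1] at hx
  exact hx

theorem arch_bound {L : Type} [NormedField L] (ρ σ : ℝ) (hρ : 0 ≤ ρ) (hσ : ρ < σ) :
    ∀ l : List L, (∀ w ∈ l, ‖w‖ ≤ ρ) → ∀ (x : ℕ → L) (A : ℝ), 0 ≤ A →
      (∀ n < l.length, ‖x n‖ ≤ A) → Ann ((l.map (fun w => X - C w)).prod) x →
      ∀ n, ‖x n‖ ≤ A * ((1 + ρ) * (1 + 1 / (σ - ρ))) ^ l.length * σ ^ n := by
  intro l
  induction l with
  | nil =>
    intro _ x A hA _ hx n
    have hσ0 : 0 < σ := by linarith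
    rw [List.map_nil, List.prod_nil] at hx
    unfold Ann at hx
    rw [map_one] at hx
    have h0 : x n = 0 := congrFun hx n
    rw [h0, norm_zero]
    positivity
  | cons w l ih =>
    intro hl x A hA hini hx n
    set c : ℝ := (1 + ρ) * (1 + 1 / (σ - ρ)) with hc
    have hδ : 0 < σ - ρ := by linarith
    have hσ0 : 0 < σ := by linarith
    have hc1 : 1 ≤ c := by
      have : 0 ≤ 1 / (σ - ρ) := by positivity
      rw [hc]
      nlinarith
    have hc2 : 1 + ρ ≤ (σ - ρ) * c := by
      have e : (σ - ρ) * c = (1 + ρ) * ((σ - ρ) + 1) := by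
        rw [hc]
        field_simp
      rw [e]
      nlinarith
    have hw : ‖w‖ ≤ ρ := hl w (List.mem_cons_self)
    rw [List.map_cons, List.prod_cons] at hx
    have hx' := ann_cons w _ x hx
    have hini' : ∀ m < l.length, ‖x (m + 1) - w * x m‖ ≤ (1 + ρ) * A := by
      intro m hm
      have h1 := hini (m + 1) (by rw [List.length_cons]; omega)
      have h2 := hini m (by rw [List.length_cons]; omega)
      refine (norm_sub_le _ _).trans ?_
      rw [norm_mul]
      have h3 : ‖w‖ * ‖x m‖ ≤ ρ * A := mul_le_mul hw h2 (norm_nonneg _) hρ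
      linarith
    have hB' := ih (fun v hv => hl v (List.mem_cons_of_mem _ hv)) _ ((1 + ρ) * A) (by positivity)
      hini' hx'
    have hcl : 1 ≤ c ^ l.length := one_le_pow₀ hc1
    rw [List.length_cons]
    have hkey : (1 + ρ) * A * c ^ l.length ≤ (σ - ρ) * (A * c ^ (l.length + 1)) := by
      rw [pow_succ]
      have e1 : (σ - ρ) * (A * (c ^ l.length * c)) = ((σ - ρ) * c) * (A * c ^ l.length) := by ring
      have e2 : (1 + ρ) * A * c ^ l.length = (1 + ρ) * (A * c ^ l.length) := by ring
      rw [e1, e2]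
      exact mul_le_mul_of_nonneg_right hc2 (by positivity)
    induction n with
    | zero =>
      rw [pow_zero, mul_one]
      refine (hini 0 (by rw [List.length_cons]; omega)).trans ?_
      exact le_mul_of_one_le_right hA (one_le_pow₀ hc1)
    | succ n ihn =>
      have h1 : x (n + 1) = w * x n + (x (n + 1) - w * x n) := by ring
      rw [h1]
      refine (norm_add_le _ _).trans ?_
      rw [norm_mul]
      have h2 : ‖w‖ * ‖x n‖ ≤ ρ * (A * c ^ (l.length + 1) * σ ^ n) :=
        mul_le_mul hw ihn (norm_nonneg _) hρ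
      have h3 := hB' n
      have h4 : (1 + ρ) * A * c ^ l.length * σ ^ n ≤
          (σ - ρ) * (A * c ^ (l.length + 1)) * σ ^ n :=
        mul_le_mul_of_nonneg_right hkey (by positivity)
      have h5 : A * c ^ (l.length + 1) * σ ^ (n + 1) =
          ρ * (A * c ^ (l.length + 1) * σ ^ n) + (σ - ρ) * (A * c ^ (l.length + 1)) * σ ^ n := by
        rw [pow_succ σ]
        ring
      rw [h5]
      linarith

theorem ultra_bound {L : Type} [NormedField L] [IsUltrametricDist L] (ρ : ℝ) (hρ : 0 ≤ ρ)
    (hρ1 : ρ ≤ 1) :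
    ∀ l : List L, (∀ w ∈ l, ‖w‖ ≤ ρ) → ∀ (x : ℕ → L), (∀ n, ‖x n‖ ≤ 1) →
      Ann ((l.map (fun w => X - C w)).prod) x → ∀ n, ‖x n‖ ≤ ρ ^ (n + 1 - l.length) := by
  intro l
  induction l with
  | nil =>
    intro _ x _ hx n
    rw [List.map_nil, List.prod_nil] at hx
    unfold Ann at hx
    rw [map_one] at hx
    have h0 : x n = 0 := congrFun hx n
    rw [h0, norm_zero]
    positivity
  | cons w l ih =>
    intro hl x hini hx n
    have hw : ‖w‖ ≤ ρ := hl w (List.mem_cons_self)
    rw [List.map_cons, List.prod_cons] at hx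
    have hx' := ann_cons w _ x hx
    have hini' : ∀ m, ‖x (m + 1) - w * x m‖ ≤ 1 := by
      intro m
      rw [sub_eq_add_neg]
      refine (IsUltrametricDist.norm_add_le_max _ _).trans (max_le (hini _) ?_)
      rw [norm_neg, norm_mul]
      exact mul_le_one₀ (hw.trans hρ1) (norm_nonneg _) (hini m)
    have hB' := ih (fun v hv => hl v (List.mem_cons_of_mem _ hv)) _ hini' hx'
    rw [List.length_cons]
    induction n with
    | zero =>
      have : 0 + 1 - (l.length + 1) = 0 := by omega
      rw [this, pow_zero]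
      exact hini 0
    | succ n ihn =>
      have h1 : x (n + 1) = w * x n + (x (n + 1) - w * x n) := by ring
      rw [h1]
      refine (IsUltrametricDist.norm_add_le_max _ _).trans (max_le ?_ ?_)
      · rw [norm_mul]
        have h2 : ‖w‖ * ‖x n‖ ≤ ρ * ρ ^ (n + 1 - (l.length + 1)) :=
          mul_le_mul hw ihn (norm_nonneg _) hρ
        refine h2.trans ?_
        rw [← pow_succ']
        exact pow_le_pow_of_le_one hρ hρ1 (by omega)
      · refine (hB' n).trans ?_
        exact pow_le_pow_of_le_one hρ hρ1 (by omega)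

/-- the roots of a monic integer polynomial with multiplicities -/
theorem exists_list (L : Type) [Field L] [IsAlgClosed L] (h : ℤ[X]) (hh : h.Monic) :
    ∃ l : List L, l.length = h.natDegree ∧
      h.map (Int.castRingHom L) = (l.map (fun w => X - C w)).prod ∧ ∀ w ∈ l, aeval w h = 0 := by
  set P := h.map (Int.castRingHom L) with hP
  have hmon : P.Monic := hh.map _
  have hdeg : P.natDegree = h.natDegree := hh.natDegree_map _
  have hsp : P.Splits := IsAlgClosed.splits P
  refine ⟨P.roots.toList, ?_, ?_, fun w hw => ?_⟩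
  · rw [Multiset.length_toList, ← hsp.natDegree_eq_card_roots, hdeg]
  · have h2 := hsp.eq_prod_roots
    rw [hmon.leadingCoeff, map_one, one_mul] at h2
    conv_lhs => rw [h2]
    conv_lhs => rw [← Multiset.coe_toList P.roots]
    rw [Multiset.map_coe, Multiset.prod_coe]
  · rw [Multiset.mem_toList, mem_roots hmon.ne_zero, IsRoot.def, hP, eval_map] at hw
    rw [aeval_def]
    exact hw

end Pool.Agent.Helper60.SP
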