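import Mathlib
import Pool.Graph.R_seed8.R405.SchK
import Pool.Graph.R_seed8.W180.OP.Liou
import Pool.Graph.R_seed8.Y556.SK.Zer

set_option autoImplicit false

/-!
Heights as sums over the places of a Galois number field.
-/

namespace Pool.Agent.Helper60.SP

open Finset NumberField IsDedekindDomain Height Module
open Pool.Agent.R405 (em prod_gal nr le_nr nr_pos mk_em em_bij)
open Pool.Agent.Y742.SF (PD fv fv_mul fv_nonneg fv_pos fv_one fv_zero fv_pow)
open Pool.Agent.W180.OP (nrm le_nrm nrm_pos exists_nrm partial_le)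
open Pool.Agent.Helper259.AbsHt

variable {K : Type} [Field K] [NumberField K]

/-- the height of a vector as a sum over finitely many places -/
theorem logHeight_sum {m : ℕ} (y : Fin m → K) (hy : y ≠ 0)
    (S : Finset (HeightOneSpectrum (𝓞 K)))
    (hS : ∀ v, v ∉ S → nrm (Pool.Agent.W180.OP.fv v) y = 1) :
    logHeight y = ∑ w : InfinitePlace K, (w.mult : ℝ) * Real.log (nrm w.1 y) +
      ∑ v ∈ S, Real.log (nrm (Pool.Agent.W180.OP.fv v) y) := by
  classical
  have e : ∏ᶠ v : FinitePlace K, ⨆ i, v (y i) =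
      ∏ᶠ v : HeightOneSpectrum (𝓞 K), nrm (Pool.Agent.W180.OP.fv v) y := by
    rw [← finprod_comp_equiv (FinitePlace.equivHeightOneSpectrum (K := K)).symm]
    rfl
  have e2 : ∏ᶠ v : HeightOneSpectrum (𝓞 K), nrm (Pool.Agent.W180.OP.fv v) y =
      ∏ v ∈ S, nrm (Pool.Agent.W180.OP.fv v) y := by
    refine finprod_eq_prod_of_mulSupport_subset _ fun v hv => ?_
    by_contra h
    exact hv (hS v h)
  have h4 : 0 < ∏ w : InfinitePlace K, (⨆ i, w (y i)) ^ w.mult :=
    prod_pos fun w _ => pow_pos (nrm_pos w.1 hy) _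
  have h5 : 0 < ∏ v ∈ S, nrm (Pool.Agent.W180.OP.fv v) y :=
    prod_pos fun v _ => nrm_pos _ hy
  rw [logHeight_eq_log_mulHeight, NumberField.mulHeight_eq hy, e, e2,
    Real.log_mul h4.ne' h5.ne', Real.log_prod fun w _ => (pow_pos (nrm_pos w.1 hy) _).ne',
    Real.log_prod fun v _ => (nrm_pos _ hy).ne']
  congr 1
  exact Finset.sum_congr rfl fun w _ => Real.log_pow _ _

/-- the height of a number -/
noncomputable def H1 (x : K) : ℝ := logHeight ![x, 1]

theorem H1_eq (ι : K →+* Qbar) (x : K) :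
    H1 x = finrank ℚ K * Pool.Agent.Y215.SK.h1 (ι x) := by
  have h := Pool.Agent.Y215.SK.h1_eq K ι x
  have hpos : (0 : ℝ) < finrank ℚ K := by exact_mod_cast finrank_pos
  rw [h, logHeight₁_eq_logHeight]
  unfold H1
  field_simp

theorem H1_nonneg (x : K) : 0 ≤ H1 x := logHeight_nonneg _

theorem H1_inv (x : K) : H1 x⁻¹ = H1 x := by
  unfold H1
  rw [← logHeight₁_eq_logHeight, ← logHeight₁_eq_logHeight, logHeight₁_inv]

variable [IsGalois ℚ K]

theorem sum_gal (ψ : K →+* ℂ) (g : InfinitePlace K → ℝ) :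
    ∑ σ : K ≃ₐ[ℚ] K, g (InfinitePlace.mk (em ψ σ)) = ∑ w, (w.mult : ℝ) * g w := by
  have h := prod_gal ψ (fun w => Real.exp (g w))
  have h1 := congrArg Real.log h
  rw [Real.log_prod fun _ _ => (Real.exp_pos _).ne',
    Real.log_prod fun _ _ => (pow_pos (Real.exp_pos _) _).ne'] at h1
  simp only [Real.log_exp, Real.log_pow] at h1
  exact h1

theorem nr_inl (D : PD K) (σ : K ≃ₐ[ℚ] K) {m : ℕ} (y : Fin m → K) :
    nr D (Sum.inl σ) y = nrm (InfinitePlace.mk (em D.ψ σ)).1 y := rfl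

theorem nr_inr (D : PD K) (v : Fin D.s) {m : ℕ} (y : Fin m → K) :
    nr D (Sum.inr v) y = nrm (Pool.Agent.W180.OP.fv (D.P v)) y := rfl

/-- the sum over the places of `D` -/
theorem sum_nr_eq (D : PD K) {m : ℕ} (y : Fin m → K) [DecidableEq (HeightOneSpectrum (𝓞 K))] :
    ∑ p, Real.log (nr D p y) = ∑ w : InfinitePlace K, (w.mult : ℝ) * Real.log (nrm w.1 y) +
      ∑ v ∈ Finset.univ.image D.P, Real.log (nrm (Pool.Agent.W180.OP.fv v) y) := by
  rw [Fintype.sum_sum_type]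
  congr 1
  · exact sum_gal D.ψ (fun w => Real.log (nrm w.1 y))
  · rw [Finset.sum_image fun a _ b _ h => D.hP h]
    rfl

theorem sum_nr_one (D : PD K) (x : K) : ∑ p, Real.log (nr D p ![x, 1]) ≤ H1 x := by
  classical
  rw [sum_nr_eq]
  exact partial_le (![x, 1] : Fin 2 → K) 1 rfl Finset.univ _

theorem nr_one (D : PD K) (p : (K ≃ₐ[ℚ] K) ⊕ Fin D.s) (x : K) : 1 ≤ nr D p ![x, 1] := by
  have := le_nr D p ![x, 1] 1
  rw [show (![x, 1] : Fin 2 → K) 1 = 1 from rfl, D.av_one] at this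
  exact this

theorem av_le_nr (D : PD K) (p : (K ≃ₐ[ℚ] K) ⊕ Fin D.s) (x : K) : D.av p x ≤ nr D p ![x, 1] :=
  le_nr D p ![x, 1] 0

theorem sum_av_le_H1 (D : PD K) (x : K) (hx : x ≠ 0) : ∑ p, Real.log (D.av p x) ≤ H1 x :=
  (Finset.sum_le_sum fun p _ => Real.log_le_log (D.av_pos p x hx) (av_le_nr D p x)).trans
    (sum_nr_one D x)

theorem av_le_H1 (D : PD K) (p : (K ≃ₐ[ℚ] K) ⊕ Fin D.s) (x : K) (hx : x ≠ 0) :
    Real.log (D.av p x) ≤ H1 x := by
  refine le_trans ?_ (sum_nr_one D x)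
  refine le_trans (Real.log_le_log (D.av_pos p x hx) (av_le_nr D p x)) ?_
  exact Finset.single_le_sum (f := fun p => Real.log (nr D p ![x, 1]))
    (fun q _ => Real.log_nonneg (nr_one D q x)) (Finset.mem_univ p)

theorem av_inv (D : PD K) (p : (K ≃ₐ[ℚ] K) ⊕ Fin D.s) (x : K) (hx : x ≠ 0) :
    D.av p x⁻¹ = (D.av p x)⁻¹ := by
  have h := D.av_mul p x x⁻¹
  rw [mul_inv_cancel₀ hx, D.av_one] at h
  exact (eq_inv_of_mul_eq_one_right h.symm)

theorem neg_le_av (D : PD K) (p : (K ≃ₐ[ℚ] K) ⊕ Fin D.s) (x : K) (hx : x ≠ 0) :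
    - H1 x ≤ Real.log (D.av p x) := by
  have h := av_le_H1 D p x⁻¹ (inv_ne_zero hx)
  rw [H1_inv, av_inv D p x hx, Real.log_inv] at h
  linarith

theorem av_pow (D : PD K) (p : (K ≃ₐ[ℚ] K) ⊕ Fin D.s) (x : K) (n : ℕ) :
    D.av p (x ^ n) = D.av p x ^ n := by
  induction n with
  | zero => simp [D.av_one]
  | succ n ih => rw [pow_succ, D.av_mul, ih, pow_succ]

/-- the height of a vector with coordinates `c j` times units away from the places of `D` -/
theorem logHeight_le (D : PD K) {m : ℕ} (c l : Fin m → K) (hm : 0 < m) (hc : ∀ j, c j ≠ 0)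
    (hl : ∀ j, l j ≠ 0)
    (hU : ∀ j (v : HeightOneSpectrum (𝓞 K)), (∀ w, v ≠ D.P w) → fv v (l j) = 1) :
    logHeight (fun j => c j * l j) ≤ ∑ p, Real.log (nr D p (fun j => c j * l j)) +
      ∑ j, H1 (c j) := by
  classical
  have hx : (fun j => c j * l j) ≠ 0 := by
    intro h
    exact (mul_ne_zero (hc ⟨0, hm⟩) (hl ⟨0, hm⟩)) (congrFun h ⟨0, hm⟩)
  -- the support
  have hfin : (⋃ j : Fin m, {v : HeightOneSpectrum (𝓞 K) |
      Pool.Agent.W180.OP.fv v (c j) ≠ 1}).Finite :=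
    Set.finite_iUnion fun j => Pool.Agent.W180.OP.fv_support_finite (hc j)
  set T : Finset (HeightOneSpectrum (𝓞 K)) := hfin.toFinset with hT
  set P : Finset (HeightOneSpectrum (𝓞 K)) := Finset.univ.image D.P with hP
  have hPv : ∀ v, v ∉ P → ∀ w, v ≠ D.P w := by
    intro v hv w hw
    apply hv
    rw [hP, hw]
    exact Finset.mem_image_of_mem _ (Finset.mem_univ w)
  have hval : ∀ v, v ∉ P → ∀ j, Pool.Agent.W180.OP.fv v (c j * l j) =
      Pool.Agent.W180.OP.fv v (c j) := by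
    intro v hv j
    have h1 : Pool.Agent.W180.OP.fv v (l j) = 1 := hU j v (hPv v hv)
    rw [map_mul, h1, mul_one]
  have hS : ∀ v, v ∉ P ∪ T → nrm (Pool.Agent.W180.OP.fv v) (fun j => c j * l j) = 1 := by
    intro v hv
    rw [Finset.mem_union, not_or] at hv
    obtain ⟨j, hj⟩ := exists_nrm (Pool.Agent.W180.OP.fv v) hm (fun j => c j * l j)
    rw [← hj]
    rw [hval v hv.1 j]
    by_contra h
    apply hv.2
    rw [hT, Set.Finite.mem_toFinset, Set.mem_iUnion]
    exact ⟨j, h⟩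
  rw [logHeight_sum _ hx (P ∪ T) hS, sum_nr_eq]
  have h1 : ∑ v ∈ P ∪ T, Real.log (nrm (Pool.Agent.W180.OP.fv v) (fun j => c j * l j)) =
      ∑ v ∈ P, Real.log (nrm (Pool.Agent.W180.OP.fv v) (fun j => c j * l j)) +
      ∑ v ∈ T \ P, Real.log (nrm (Pool.Agent.W180.OP.fv v) (fun j => c j * l j)) := by
    rw [← Finset.union_sdiff_self_eq_union, Finset.sum_union Finset.disjoint_sdiff]
  rw [h1]
  have h2 : ∑ v ∈ T \ P, Real.log (nrm (Pool.Agent.W180.OP.fv v) (fun j => c j * l j)) ≤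
      ∑ j, H1 (c j) := by
    calc ∑ v ∈ T \ P, Real.log (nrm (Pool.Agent.W180.OP.fv v) (fun j => c j * l j)) ≤
        ∑ v ∈ T \ P, ∑ j, Real.log (nrm (Pool.Agent.W180.OP.fv v) ![c j, 1]) := by
          refine Finset.sum_le_sum fun v hv => ?_
          rw [Finset.mem_sdiff] at hv
          obtain ⟨j, hj⟩ := exists_nrm (Pool.Agent.W180.OP.fv v) hm (fun j => c j * l j)
          rw [← hj]
          rw [hval v hv.2 j]
          have h3 : ∀ i, 1 ≤ nrm (Pool.Agent.W180.OP.fv v) ![c i, 1] := by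
            intro i
            have := le_nrm (Pool.Agent.W180.OP.fv v) ![c i, 1] 1
            rw [show (![c i, 1] : Fin 2 → K) 1 = 1 from rfl, map_one] at this
            exact this
          have h4 : Pool.Agent.W180.OP.fv v (c j) ≤ nrm (Pool.Agent.W180.OP.fv v) ![c j, 1] :=
            le_nrm (Pool.Agent.W180.OP.fv v) ![c j, 1] 0
          have h5 : 0 < Pool.Agent.W180.OP.fv v (c j) :=
            (Pool.Agent.W180.OP.fv v).pos (hc j)
          refine (Real.log_le_log h5 h4).trans ?_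
          exact Finset.single_le_sum
            (f := fun j => Real.log (nrm (Pool.Agent.W180.OP.fv v) ![c j, 1]))
            (fun i _ => Real.log_nonneg (h3 i)) (Finset.mem_univ j)
      _ = ∑ j, ∑ v ∈ T \ P, Real.log (nrm (Pool.Agent.W180.OP.fv v) ![c j, 1]) :=
          Finset.sum_comm
      _ ≤ ∑ j, H1 (c j) := by
          refine Finset.sum_le_sum fun j _ => ?_
          have h6 := partial_le (![c j, 1] : Fin 2 → K) 1 rfl ∅ (T \ P)
          rw [Finset.sum_empty, zero_add] at h6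
          exact h6
  linarith

end Pool.Agent.Helper60.SP
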