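import Mathlib
import Pool.Agent.Helper60.SP.Hts

set_option autoImplicit false

/-!
Lower bounds, at every place, for sums of `n`-th powers with coefficients of small height.
-/

namespace Pool.Agent.Helper60.SP

open Finset Filter NumberField IsDedekindDomain Height Module Topology
open Pool.Agent.R405 (em nr le_nr nr_pos schK)
open Pool.Agent.Y742.SF (PD fv fv_mul fv_nonneg fv_pos fv_one fv_zero fv_pow)
open Pool.Agent.Y215.SK (h1 h1_nonneg h1_mul_le h1_inv h1_div_le h1_pow h1_zero h1_one h1_ratio_le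
  height_le_sum DivHull UU ev_of_atTop)
open Pool.Agent.Helper259.AbsHt
open Pool.Agent.Y556.SK (exists_const Rel core gap tors dg)

variable {K : Type} [Field K] [NumberField K]

/-- quotients which are not roots of unity have positive height -/
theorem h1_pos_of {x : Qbar} (hx : x ≠ 0) (h : ∀ k : ℕ, 1 ≤ k → x ^ k ≠ 1) : 0 < h1 x := by
  obtain ⟨L, hL, hL'⟩ := tors (dg x)
  refine lt_of_le_of_ne (h1_nonneg x) (fun h0 => ?_)
  exact h L hL (hL' x hx le_rfl h0.symm)

theorem indep (ι : K →+* Qbar) {r : ℕ} (lam : Fin r → K) (hlam : ∀ j, lam j ≠ 0)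
    (hnd : ∀ i j, i ≠ j → ∀ k : ℕ, 1 ≤ k → (lam i / lam j) ^ k ≠ 1) :
    ∃ B : ℝ, 0 ≤ B ∧ ∀ (c : Fin r → K) (n : ℕ), B * (1 + ∑ i, h1 (ι (c i))) < n →
      ∑ i, c i * lam i ^ n = 0 → ∀ i, c i = 0 := by
  classical
  have hne : ∀ j, ι (lam j) ≠ 0 := fun j => (map_ne_zero ι).2 (hlam j)
  set L : Fin r → Qbarˣ := fun j => Units.mk0 (ι (lam j)) (hne j) with hL
  set Γ : Subgroup Qbarˣ := Subgroup.closure (Set.range L) with hΓ
  have hfg : Γ.FG := (Subgroup.fg_iff _).2 ⟨Set.range L, rfl, Set.finite_range _⟩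
  obtain ⟨η, hη, hgap⟩ := gap (∑ i, ∑ j, dg (ι (lam i) / ι (lam j)))
  have hdg : ∀ i j, dg (ι (lam i) / ι (lam j)) ≤ ∑ i, ∑ j, dg (ι (lam i) / ι (lam j)) := by
    intro i j
    have h1 := Finset.single_le_sum (f := fun j => dg (ι (lam i) / ι (lam j)))
      (fun _ _ => Nat.zero_le _) (Finset.mem_univ j)
    have h2 := Finset.single_le_sum (f := fun i => ∑ j, dg (ι (lam i) / ι (lam j)))
      (fun _ _ => Nat.zero_le _) (Finset.mem_univ i)
    exact h1.trans h2
  obtain ⟨B, hB, hcore⟩ := core Γ hfg r η hη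
  refine ⟨B, hB, fun c n hn hsum b => ?_⟩
  have key := hcore L (fun i => ι (c i)) n
    (fun i => ⟨1, one_pos, by
      rw [pow_one]
      exact Subgroup.subset_closure (Set.mem_range_self i)⟩)
    (fun i j => hgap _ (hdg i j))
    (by
      have h2 := congrArg ι hsum
      rw [map_sum, map_zero] at h2
      rw [← h2]
      refine Finset.sum_congr rfl fun i _ => ?_
      rw [map_mul, map_pow]
      rfl)
    hn b
  have hfil : Finset.univ.filter (fun i => Rel (L i) (L b)) = {b} := by
    ext i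
    rw [Finset.mem_filter, Finset.mem_singleton]
    constructor
    · rintro ⟨-, hi⟩
      by_contra hib
      have h2 : (0 : ℝ) < h1 (ι (lam i / lam b)) := by
        refine h1_pos_of ((map_ne_zero ι).2 (div_ne_zero (hlam i) (hlam b))) ?_
        intro k hk h3
        rw [← map_pow, ← map_one ι] at h3
        exact hnd i b hib k hk (ι.injective h3)
      have h3 : h1 (ι (lam i) / ι (lam b)) = 0 := hi
      rw [map_div₀] at h2
      linarith
    · rintro rfl
      exact ⟨Finset.mem_univ _, Pool.Agent.Y556.SK.rel_refl _⟩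
  rw [hfil, Finset.sum_singleton] at key
  have h4 : ι (c b) = 0 := (mul_eq_zero.1 key).resolve_right (pow_ne_zero _ (hne b))
  exact (map_eq_zero ι).1 h4

section det

variable {m : ℕ} (a0 : Fin m)

/-- the identity matrix with one row replaced by ones -/
def rowMat (a0 : Fin m) (a b : Fin m) : K := if a = a0 then 1 else if a = b then 1 else 0

theorem rowMat_sum (a : Fin m) (x : Fin m → K) :
    ∑ b, rowMat a0 a b * x b = if a = a0 then ∑ b, x b else x a := by
  unfold rowMat
  by_cases h : a = a0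
  · simp [h]
  · simp [h]

theorem rowMat_det : (Matrix.of (rowMat (K := K) a0)).det ≠ 0 := by
  intro h0
  obtain ⟨v, hv, hv2⟩ := Matrix.exists_mulVec_eq_zero_iff.2 h0
  apply hv
  have h1 : ∀ a, (if a = a0 then ∑ b, v b else v a) = 0 := by
    intro a
    rw [← rowMat_sum a0 a v]
    exact congrFun hv2 a
  have h2 : ∀ a, a ≠ a0 → v a = 0 := by
    intro a ha
    have := h1 a
    rwa [if_neg ha] at this
  have h3 : v a0 = 0 := by
    have := h1 a0
    rw [if_pos rfl, Finset.sum_eq_single a0] at this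
    · exact this
    · intro b _ hb
      exact h2 b hb
    · intro h
      exact absurd (Finset.mem_univ _) h
  funext a
  by_cases ha : a = a0
  · rw [ha]
    exact h3
  · exact h2 a ha

end det

variable [IsGalois ℚ K]

theorem sum_av_unit_zero (D : PD K) (x : K) (hx : x ≠ 0)
    (hU : ∀ v : HeightOneSpectrum (𝓞 K), (∀ w, v ≠ D.P w) → fv v x = 1) :
    ∑ p, Real.log (D.av p x) = 0 := by
  have h1 := D.sum_av_nonneg x hx (fun w hw => (hU w hw).le)
  have h2 := D.sum_av_nonneg x⁻¹ (inv_ne_zero hx) (fun w hw => by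
    have h3 := fv_mul w x x⁻¹
    rw [mul_inv_cancel₀ hx, fv_one, hU w hw, one_mul] at h3
    exact h3.ge)
  have h3 : ∑ p, Real.log (D.av p x⁻¹) = - ∑ p, Real.log (D.av p x) := by
    rw [← Finset.sum_neg_distrib]
    refine Finset.sum_congr rfl fun p _ => ?_
    rw [av_inv D p x hx, Real.log_inv]
  rw [h3] at h2
  linarith

end Pool.Agent.Helper60.SP
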