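import Mathlib
import Pool.Agent.Helper60.SP.Grow

set_option autoImplicit false

/-!
Lower bounds, at every place, for sums of `n`-th powers with coefficients of small height.
-/

namespace Pool.Agent.Helper60.SP

open Finset Filter NumberField IsDedekindDomain Height Module Topology
open Pool.Agent.R405 (em nr le_nr nr_pos schK)
open Pool.Agent.Y742.SF (PD fv fv_mul fv_nonneg fv_pos fv_one fv_zero fv_pow)
open Pool.Agent.Y215.SK (h1 h1_nonneg h1_mul_le h1_inv h1_div_le h1_pow h1_zero h1_one h1_ratio_le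
  height_le_sum DivHull UU ev_of_atTop)
open Pool.Agent.Helper259.AbsHt
open Pool.Agent.Y556.SK (exists_const Rel core gap tors dg)

variable {K : Type} [Field K] [NumberField K] [IsGalois ℚ K]

open Classical in
/-- the linear forms -/
noncomputable def Phi (D : PD K) {m : ℕ} (q : (K ≃ₐ[ℚ] K) ⊕ Fin D.s) (a0 : Fin m)
    (p : (K ≃ₐ[ℚ] K) ⊕ Fin D.s) (a b : Fin m) : K :=
  if p = q then rowMat a0 a b else if a = b then 1 else 0

open Classical in
theorem Phi_sum (D : PD K) {m : ℕ} (q : (K ≃ₐ[ℚ] K) ⊕ Fin D.s) (a0 : Fin m)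
    (p : (K ≃ₐ[ℚ] K) ⊕ Fin D.s) (a : Fin m) (x : Fin m → K) :
    ∑ b, Phi D q a0 p a b * x b = if p = q ∧ a = a0 then ∑ b, x b else x a := by
  unfold Phi
  by_cases hp : p = q
  · simp only [hp, if_true, true_and]
    exact rowMat_sum a0 a x
  · simp [hp]

theorem Phi_det (D : PD K) {m : ℕ} (q : (K ≃ₐ[ℚ] K) ⊕ Fin D.s) (a0 : Fin m)
    (p : (K ≃ₐ[ℚ] K) ⊕ Fin D.s) : (Matrix.of (Phi D q a0 p)).det ≠ 0 := by
  classical
  by_cases hp : p = q
  · have : Matrix.of (Phi D q a0 p) = Matrix.of (rowMat (K := K) a0) := by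
      ext a b
      simp [Phi, hp]
    rw [this]
    exact rowMat_det a0
  · have : Matrix.of (Phi D q a0 p) = 1 := by
      ext a b
      simp [Phi, hp, Matrix.one_apply]
    rw [this, Matrix.det_one]
    exact one_ne_zero

/-- one instance of the subspace inequality -/
theorem step (D : PD K) {m : ℕ} (c l : Fin m → K) (a0 : Fin m)
    (q : (K ≃ₐ[ℚ] K) ⊕ Fin D.s) (hc : ∀ a, c a ≠ 0) (hl : ∀ a, l a ≠ 0)
    (hU : ∀ j (v : HeightOneSpectrum (𝓞 K)), (∀ w, v ≠ D.P w) → fv v (l j) = 1)
    (ε : ℝ)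
    (hI : ∑ p, ∑ a, (Real.log (nr D p (fun a => c a * l a)) -
      Real.log (D.av p (∑ b, Phi D q a0 p a b * (c b * l b)))) ≤
        (m + ε) * logHeight (fun a => c a * l a)) :
    Real.log (D.av q (c a0 * l a0)) - Real.log (D.av q (∑ b, c b * l b)) ≤
      ε * logHeight (fun a => c a * l a) + (m + 1) * ∑ a, H1 (c a) := by
  classical
  have hm : 0 < m := Fin.pos a0
  have hx : ∀ a, c a * l a ≠ 0 := fun a => mul_ne_zero (hc a) (hl a)
  have h1 : ∀ p a, Real.log (D.av p (∑ b, Phi D q a0 p a b * (c b * l b))) =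
      Real.log (D.av p (c a * l a)) + if p = q ∧ a = a0 then
        (Real.log (D.av q (∑ b, c b * l b)) - Real.log (D.av q (c a0 * l a0))) else 0 := by
    intro p a
    rw [Phi_sum D q a0 p a (fun b => c b * l b)]
    by_cases h : p = q ∧ a = a0
    · rw [if_pos h, if_pos h, h.1, h.2]
      ring
    · rw [if_neg h, if_neg h, add_zero]
  have h2 : ∑ p : (K ≃ₐ[ℚ] K) ⊕ Fin D.s, ∑ a : Fin m, (if p = q ∧ a = a0 then
      (Real.log (D.av q (∑ b, c b * l b)) - Real.log (D.av q (c a0 * l a0))) else 0) =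
      Real.log (D.av q (∑ b, c b * l b)) - Real.log (D.av q (c a0 * l a0)) := by
    rw [Finset.sum_eq_single q]
    · rw [Finset.sum_eq_single a0]
      · rw [if_pos ⟨rfl, rfl⟩]
      · intro a _ ha
        rw [if_neg (fun h => ha h.2)]
      · intro h
        exact absurd (Finset.mem_univ _) h
    · intro p _ hp
      refine Finset.sum_eq_zero fun a _ => ?_
      rw [if_neg (fun h => hp h.1)]
    · intro h
      exact absurd (Finset.mem_univ _) h
  have h3 : ∑ p, ∑ a, (Real.log (nr D p (fun a => c a * l a)) -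
      Real.log (D.av p (∑ b, Phi D q a0 p a b * (c b * l b)))) =
      m * ∑ p, Real.log (nr D p (fun a => c a * l a)) - ∑ a, ∑ p, Real.log (D.av p (c a * l a)) -
      (Real.log (D.av q (∑ b, c b * l b)) - Real.log (D.av q (c a0 * l a0))) := by
    rw [← h2, Finset.sum_comm (s := Finset.univ (α := Fin m)), Finset.mul_sum,
      ← Finset.sum_sub_distrib, ← Finset.sum_sub_distrib]
    refine Finset.sum_congr rfl fun p _ => ?_
    have e1 : (m : ℝ) * Real.log (nr D p (fun a => c a * l a)) =
        ∑ _a : Fin m, Real.log (nr D p (fun a => c a * l a)) := by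
      rw [Finset.sum_const, Finset.card_univ, Fintype.card_fin, nsmul_eq_mul]
    rw [e1, ← Finset.sum_sub_distrib, ← Finset.sum_sub_distrib]
    refine Finset.sum_congr rfl fun a _ => ?_
    rw [h1 p a]
    ring
  have h4 : ∑ a, ∑ p, Real.log (D.av p (c a * l a)) ≤ ∑ a, H1 (c a) := by
    refine Finset.sum_le_sum fun a _ => ?_
    have e1 : ∑ p, Real.log (D.av p (c a * l a)) =
        ∑ p, Real.log (D.av p (c a)) + ∑ p, Real.log (D.av p (l a)) := by
      rw [← Finset.sum_add_distrib]
      refine Finset.sum_congr rfl fun p _ => ?_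
      rw [D.av_mul, Real.log_mul (D.av_pos p _ (hc a)).ne' (D.av_pos p _ (hl a)).ne']
    rw [e1, sum_av_unit_zero D (l a) (hl a) (hU a), add_zero]
    exact sum_av_le_H1 D (c a) (hc a)
  have h5 := logHeight_le D c l hm hc hl hU
  rw [h3] at hI
  have h6 : (m : ℝ) * (logHeight (fun a => c a * l a) - ∑ a, H1 (c a)) ≤
      m * ∑ p, Real.log (nr D p (fun a => c a * l a)) :=
    mul_le_mul_of_nonneg_left (by linarith) (Nat.cast_nonneg m)
  linarith

theorem ar1 (t s n : ℝ) (h1 : (t + 1) * (1 + s) < n) (h2 : 0 ≤ t + 1) : (t + 1) * s ≤ n := by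
  nlinarith

theorem ar2 (t s n : ℝ) (h1 : (t + 1) * (1 + s) < n) (h2 : 0 ≤ (t + 1) * s) : t + 1 ≤ n := by
  nlinarith

theorem ar3 (ε X : ℝ) (hε : 0 < ε) (hX : 0 ≤ X) : ε / (2 * (X + 1)) * X ≤ ε / 2 := by
  rw [div_mul_eq_mul_div, div_le_div_iff₀ (by positivity) (by norm_num)]
  nlinarith

theorem ar4 (t s η n : ℝ) (h11 : (t + 1) * s * η ≤ n * η) (h12 : 2 * s ≤ t * η * s)
    (h13 : 0 ≤ s * η) : s ≤ n * η / 2 := by
  nlinarith

theorem ar5 (t s η n H : ℝ) (h15 : (t + 1) * η ≤ n * η) (h7 : n * η ≤ s + H)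
    (h10 : s ≤ n * η / 2) (hη : 0 ≤ η) : t * η / 2 ≤ H := by
  nlinarith

theorem ar6 (t d η C : ℝ) (h : 2 * |C| ≤ t * (d * η)) : C ≤ d * (t * η / 2) := by
  have := le_abs_self C
  nlinarith

theorem ar7 (X Δ s : ℝ) (h : X ≤ Δ + s) (h2 : 0 ≤ Δ * s) : 1 + X ≤ (1 + Δ) * (1 + s) := by
  nlinarith

theorem ar8 (ε' H d s n Λ e : ℝ) (f1 : ε' * H ≤ ε' * (d * (s + n * Λ)))
    (f2 : ε' * (d * Λ) * n ≤ e / 2 * n) : ε' * H ≤ ε' * (d * s) + e / 2 * n := by
  nlinarith

/-- **Growth.** -/
theorem grow (D : PD K) (ι : K →+* Qbar) {r : ℕ} (lam : Fin r → K) (hlam : ∀ j, lam j ≠ 0)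
    (hU : ∀ j (v : HeightOneSpectrum (𝓞 K)), (∀ w, v ≠ D.P w) → fv v (lam j) = 1)
    (hnd : ∀ i j, i ≠ j → ∀ k : ℕ, 1 ≤ k → (lam i / lam j) ^ k ≠ 1) (ε : ℝ) (hε : 0 < ε) :
    ∃ B : ℝ, 0 ≤ B ∧ ∀ (c : Fin r → K) (n : ℕ), B * (1 + ∑ i, h1 (ι (c i))) < n →
      ∀ j, c j ≠ 0 → ∀ q, ∑ i, c i * lam i ^ n ≠ 0 ∧
        (n : ℝ) * Real.log (D.av q (lam j)) - ε * n ≤
          Real.log (D.av q (∑ i, c i * lam i ^ n)) := by
  classical
  obtain ⟨B0, hB0, hind0⟩ := indep ι lam hlam hnd
  have hex : ∃ B : ℝ, 0 ≤ B ∧ ∀ (c : Fin r → K) (n : ℕ), B * (1 + ∑ i, h1 (ι (c i))) < n →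
      ∀ j, c j ≠ 0 → ∀ q, (n : ℝ) * Real.log (D.av q (lam j)) - ε * n ≤
          Real.log (D.av q (∑ i, c i * lam i ^ n)) := by
    by_contra hcon
    push Not at hcon
    have hcon2 : ∀ t : ℕ, ∃ (c : Fin r → K) (n : ℕ), ((t : ℝ) + 1) * (1 + ∑ i, h1 (ι (c i))) < n ∧
        ∃ (j : Fin r), c j ≠ 0 ∧ ∃ q : (K ≃ₐ[ℚ] K) ⊕ Fin D.s,
        Real.log (D.av q (∑ i, c i * lam i ^ n)) < (n : ℝ) * Real.log (D.av q (lam j)) - ε * n :=
      fun t => hcon (t + 1) (by positivity)
    choose c n hn j hj q hq using hcon2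
    obtain ⟨⟨j0, q0, pat⟩, hconst⟩ := exists_const
      (fun t => ((j t, q t, fun i => decide (c t i ≠ 0)) :
        Fin r × ((K ≃ₐ[ℚ] K) ⊕ Fin D.s) × (Fin r → Bool)))
    have hconst' : ∀ᶠ t in (UU : Filter ℕ), j t = j0 ∧ q t = q0 ∧
        ∀ i, c t i ≠ 0 ↔ pat i = true := by
      filter_upwards [hconst] with t ht
      rw [Prod.mk.injEq, Prod.mk.injEq] at ht
      refine ⟨ht.1, ht.2.1, fun i => ?_⟩
      rw [← ht.2.2, decide_eq_true_iff]
    set J : Finset (Fin r) := Finset.univ.filter (fun i => pat i = true) with hJ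
    have hj0J : j0 ∈ J := by
      obtain ⟨t, h1, -, h3⟩ := hconst'.exists
      rw [hJ, Finset.mem_filter]
      refine ⟨Finset.mem_univ _, ?_⟩
      rw [← h3 j0, ← h1]
      exact hj t
    set e : Fin J.card ≃ J := J.equivFin.symm with he
    set e' : Fin J.card → Fin r := fun a => (e a : Fin r) with he'
    have he'inj : Function.Injective e' := fun a b h => e.injective (Subtype.ext h)
    obtain ⟨a0, ha0⟩ : ∃ a0, e' a0 = j0 := ⟨e.symm ⟨j0, hj0J⟩, by
      simp only [he', Equiv.apply_symm_apply]⟩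
    have hsumJ : ∀ f : Fin r → K, (∀ i, i ∉ J → f i = 0) → ∑ i, f i = ∑ a, f (e' a) := by
      intro f hf
      have h1 : ∑ i, f i = ∑ i ∈ J, f i := by
        symm
        exact Finset.sum_subset (Finset.subset_univ J) fun i _ hi => hf i hi
      rw [h1, ← Finset.sum_coe_sort J, ← Equiv.sum_comp e]
    have hsumJR : ∀ f : Fin r → ℝ, (∀ i, 0 ≤ f i) → ∑ a, f (e' a) ≤ ∑ i, f i := by
      intro f hf
      have h1 : ∑ a, f (e' a) = ∑ i ∈ J, f i := by
        rw [← Finset.sum_coe_sort J, ← Equiv.sum_comp e]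
      rw [h1]
      exact Finset.sum_le_sum_of_subset_of_nonneg (Finset.subset_univ J) fun i _ _ => hf i
    -- abbreviations
    set s : ℕ → ℝ := fun t => ∑ i, h1 (ι (c t i)) with hs
    have hs0 : ∀ t, 0 ≤ s t := fun t => Finset.sum_nonneg fun _ _ => h1_nonneg _
    have hn' : ∀ t : ℕ, ((t : ℝ) + 1) * (1 + s t) < n t := hn
    have hts : ∀ t : ℕ, ((t : ℝ) + 1) * s t ≤ n t := by
      intro t
      have h1 := hn' t
      have h2 : (0 : ℝ) ≤ (t : ℝ) + 1 := by positivity
      exact ar1 _ _ _ h1 h2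
    have htn : ∀ t : ℕ, (t : ℝ) + 1 ≤ n t := by
      intro t
      have h1 := hn' t
      have h2 : (0 : ℝ) ≤ ((t : ℝ) + 1) * s t := mul_nonneg (by positivity) (hs0 t)
      exact ar2 _ _ _ h1 h2
    set x : ℕ → Fin J.card → K := fun t a => c t (e' a) * lam (e' a) ^ n t with hx
    have hgood : ∀ᶠ t in (UU : Filter ℕ), ∀ a, c t (e' a) ≠ 0 := by
      filter_upwards [hconst'] with t ht a
      rw [ht.2.2]
      exact (Finset.mem_filter.1 (e a).2).2
    have hsumx : ∀ᶠ t in (UU : Filter ℕ), ∑ i, c t i * lam i ^ n t = ∑ a, x t a := by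
      filter_upwards [hconst'] with t ht
      refine hsumJ (fun i => c t i * lam i ^ n t) fun i hi => ?_
      have h1 : c t i = 0 := by
        by_contra h
        exact hi (Finset.mem_filter.2 ⟨Finset.mem_univ _, (ht.2.2 i).1 h⟩)
      rw [h1, zero_mul]
    -- heights
    set d : ℝ := (finrank ℚ K : ℝ) with hd
    have hd0 : 0 < d := by
      rw [hd]
      exact_mod_cast finrank_pos
    have hH1c : ∀ t, ∑ a, H1 (c t (e' a)) ≤ d * s t := by
      intro t
      refine (hsumJR (fun i => H1 (c t i)) fun i => H1_nonneg _).trans ?_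
      rw [hs]
      simp only
      rw [Finset.mul_sum]
      exact (Finset.sum_congr rfl fun i _ => H1_eq ι (c t i)).le
    set Λ : ℝ := ∑ i, h1 (ι (lam i)) with hΛ
    have hΛ0 : 0 ≤ Λ := Finset.sum_nonneg fun _ _ => h1_nonneg _
    have habs : ∀ t, logHeight (x t) = d * absLogHeight (fun a => ι (x t a)) := by
      intro t
      rw [absLogHeight_eq K ι (x t), ← hd]
      field_simp
    have hHle : ∀ t, logHeight (x t) ≤ d * (s t + n t * Λ) := by
      intro t
      rw [habs t]
      refine mul_le_mul_of_nonneg_left ?_ hd0.le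
      refine (height_le_sum _).trans ?_
      refine le_trans (b := ∑ i, (h1 (ι (c t i)) + n t * h1 (ι (lam i)))) ?_ ?_
      · refine le_trans ?_ (hsumJR (fun i => h1 (ι (c t i)) + n t * h1 (ι (lam i)))
          fun i => add_nonneg (h1_nonneg _) (mul_nonneg (Nat.cast_nonneg _) (h1_nonneg _)))
        refine Finset.sum_le_sum fun a _ => ?_
        simp only [hx, map_mul, map_pow]
        refine (h1_mul_le _ _).trans ?_
        rw [h1_pow]
      · rw [Finset.sum_add_distrib, ← Finset.mul_sum]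
    -- the key inequality
    set ε' : ℝ := ε / (2 * (d * Λ + 1)) with hε'
    have hε'0 : 0 < ε' := by
      rw [hε']
      positivity
    have hε'1 : ε' * (d * Λ) ≤ ε / 2 := by
      rw [hε']
      exact ar3 _ _ hε (mul_nonneg hd0.le hΛ0)
    have hkey : ∀ᶠ t in (UU : Filter ℕ), ∑ p, ∑ a, (Real.log (nr D p (x t)) -
        Real.log (D.av p (∑ b, Phi D q0 a0 p a b * x t b))) ≤
          (J.card + ε') * logHeight (x t) := by
      by_cases hm1 : J.card = 1
      · refine Eventually.of_forall fun t => ?_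
        have hsub : Subsingleton (Fin J.card) := by rw [hm1]; infer_instance
        have hU1 : ∀ a, a = a0 := fun a => Subsingleton.elim _ _
        have hz : ∑ p, ∑ a, (Real.log (nr D p (x t)) -
            Real.log (D.av p (∑ b, Phi D q0 a0 p a b * x t b))) = 0 := by
          refine Finset.sum_eq_zero fun p _ => Finset.sum_eq_zero fun a _ => ?_
          have h1 : ∑ b, Phi D q0 a0 p a b * x t b = x t a0 := by
            rw [Phi_sum]
            split_ifs
            · rw [Fintype.sum_eq_single a0]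
              intro b hb
              exact absurd (hU1 b) hb
            · rw [hU1 a]
          have h2 : nr D p (x t) = D.av p (x t a0) := by
            unfold nr
            have : Nonempty (Fin J.card) := ⟨a0⟩
            have h3 : (fun j => D.av p (x t j)) = fun _ => D.av p (x t a0) := by
              funext b
              rw [hU1 b]
            rw [h3, ciSup_const]
          rw [h1, h2, sub_self]
        rw [hz]
        exact mul_nonneg (add_nonneg (Nat.cast_nonneg _) hε'0.le) (logHeight_nonneg (x t))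
      · -- at least two coordinates
        have hm2 : 1 ≤ J.card := Finset.card_pos.2 ⟨j0, hj0J⟩
        obtain ⟨a1, ha1⟩ : ∃ a1 : Fin J.card, a1 ≠ a0 := by
          by_contra hh
          push Not at hh
          apply hm1
          have : Subsingleton (Fin J.card) := ⟨fun a b => (hh a).trans (hh b).symm⟩
          have h2 := Fintype.card_le_one_iff_subsingleton.2 this
          rw [Fintype.card_fin] at h2
          omega
        refine schK D (UU : Filter ℕ) hm2 (Phi D q0 a0) (Phi_det D q0 a0) x ?_ ?_ ε' hε'0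
        · -- the heights tend to infinity
          have hη : 0 < h1 (ι (lam (e' a1) / lam (e' a0))) := by
            refine h1_pos_of ((map_ne_zero ι).2 (div_ne_zero (hlam _) (hlam _))) ?_
            intro k hk h3
            rw [← map_pow, ← map_one ι] at h3
            exact hnd _ _ (fun h => ha1 (he'inj h)) k hk (ι.injective h3)
          set η := h1 (ι (lam (e' a1) / lam (e' a0))) with hηdef
          rw [tendsto_atTop]
          intro C
          have h5 : ∀ᶠ t : ℕ in atTop, 2 / η ≤ (t : ℝ) ∧ 2 * |C| / (d * η) ≤ (t : ℝ) :=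
            (tendsto_natCast_atTop_atTop.eventually_ge_atTop _).and
              (tendsto_natCast_atTop_atTop.eventually_ge_atTop _)
          filter_upwards [hgood, ev_of_atTop h5] with t ht ht5
          obtain ⟨ht6, ht7⟩ := ht5
          rw [habs t]
          have hx0 : ι (x t a0) ≠ 0 :=
            (map_ne_zero ι).2 (mul_ne_zero (ht a0) (pow_ne_zero _ (hlam _)))
          have h6 := h1_ratio_le (fun a => ι (x t a)) a1 a0 hx0
          have h7 : (n t : ℝ) * η ≤ s t + absLogHeight (fun a => ι (x t a)) := by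
            have e1 : (ι (lam (e' a1) / lam (e' a0))) ^ n t =
                (ι (c t (e' a0)) / ι (c t (e' a1))) * (ι (x t a1) / ι (x t a0)) := by
              have f1 := (map_ne_zero ι).2 (ht a0)
              have f2 := (map_ne_zero ι).2 (ht a1)
              have f3 := (map_ne_zero ι).2 (hlam (e' a0))
              simp only [hx, map_mul, map_pow, map_div₀, div_pow]
              field_simp
            have e2 : (n t : ℝ) * η = h1 ((ι (lam (e' a1) / lam (e' a0))) ^ n t) := by
              rw [h1_pow]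
            rw [e2, e1]
            refine (h1_mul_le _ _).trans ?_
            refine add_le_add ?_ h6
            refine (h1_div_le _ _).trans ?_
            have e3 : h1 (ι (c t (e' a0))) + h1 (ι (c t (e' a1))) =
                ∑ i ∈ ({e' a0, e' a1} : Finset (Fin r)), h1 (ι (c t i)) := by
              rw [Finset.sum_pair (fun h => ha1 (he'inj h).symm)]
            rw [e3]
            exact Finset.sum_le_sum_of_subset_of_nonneg (Finset.subset_univ _)
              fun i _ _ => h1_nonneg _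
          have h8 := hts t
          have h9 := htn t
          rw [div_le_iff₀ hη] at ht6
          rw [div_le_iff₀ (by positivity)] at ht7
          have h10 : s t ≤ n t * η / 2 := by
            have h11 : ((t : ℝ) + 1) * s t * η ≤ n t * η := mul_le_mul_of_nonneg_right h8 hη.le
            have h12 : 2 * s t ≤ t * η * s t := mul_le_mul_of_nonneg_right ht6 (hs0 t)
            have h13 : 0 ≤ s t * η := mul_nonneg (hs0 t) hη.le
            exact ar4 _ _ _ _ h11 h12 h13
          have h14 : (t : ℝ) * η / 2 ≤ absLogHeight (fun a => ι (x t a)) := by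
            have h15 : ((t : ℝ) + 1) * η ≤ n t * η := mul_le_mul_of_nonneg_right h9 hη.le
            exact ar5 _ _ _ _ _ h15 h7 h10 hη.le
          have h16 : d * ((t : ℝ) * η / 2) ≤ d * absLogHeight (fun a => ι (x t a)) :=
            mul_le_mul_of_nonneg_left h14 hd0.le
          exact (ar6 _ _ _ _ ht7).trans h16
        · -- independence
          intro dd hdd
          obtain ⟨B', hB', hB'2⟩ := indep ι (fun a => lam (e' a)) (fun a => hlam _)
            (fun i j hij => hnd _ _ fun h => hij (he'inj h))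
          set Δ : ℝ := ∑ a, h1 (ι (dd a)) with hΔ
          have hΔ0 : 0 ≤ Δ := Finset.sum_nonneg fun _ _ => h1_nonneg _
          have h5 : ∀ᶠ t : ℕ in atTop, B' * (1 + Δ) ≤ (t : ℝ) :=
            tendsto_natCast_atTop_atTop.eventually_ge_atTop _
          filter_upwards [hgood, ev_of_atTop h5] with t ht ht5 h0
          apply hdd
          have h6 := hB'2 (fun a => dd a * c t (e' a)) (n t) (by
            have e1 : ∑ a, h1 (ι (dd a * c t (e' a))) ≤ Δ + s t := by
              have e2 : ∑ a, h1 (ι (dd a * c t (e' a))) ≤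
                  ∑ a, (h1 (ι (dd a)) + h1 (ι (c t (e' a)))) := by
                refine Finset.sum_le_sum fun a _ => ?_
                rw [map_mul]
                exact h1_mul_le _ _
              rw [Finset.sum_add_distrib] at e2
              have e3 := hsumJR (fun i => h1 (ι (c t i))) fun i => h1_nonneg _
              exact e2.trans (add_le_add_right e3 _)
            have e4 := hn' t
            have e5 : B' * (1 + ∑ a, h1 (ι (dd a * c t (e' a)))) ≤ B' * ((1 + Δ) * (1 + s t)) := by
              refine mul_le_mul_of_nonneg_left ?_ hB'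
              exact ar7 _ _ _ e1 (mul_nonneg hΔ0 (hs0 t))
            have e6 : B' * ((1 + Δ) * (1 + s t)) ≤ ((t : ℝ) + 1) * (1 + s t) := by
              rw [← mul_assoc]
              exact mul_le_mul_of_nonneg_right (ht5.trans (le_add_of_nonneg_right zero_le_one))
                (add_nonneg zero_le_one (hs0 t))
            exact (e5.trans e6).trans_lt e4) (by
            rw [← h0]
            refine Finset.sum_congr rfl fun a _ => ?_
            simp only [hx]
            ring)
          funext a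
          have h7 := h6 a
          exact (mul_eq_zero.1 h7).resolve_right (ht a)
    -- the contradiction
    have hfin : ∀ᶠ t : ℕ in atTop, 2 * d * (J.card + 3 + ε') / ε + 1 ≤ (t : ℝ) :=
      tendsto_natCast_atTop_atTop.eventually_ge_atTop _
    obtain ⟨t, ⟨⟨ht1, ht2⟩, ht3⟩, ⟨ht4, ht5⟩⟩ :=
      (((hconst'.and hgood).and hsumx).and (hkey.and (ev_of_atTop hfin))).exists
    have hstep := step D (fun a => c t (e' a)) (fun a => lam (e' a) ^ n t) a0 q0 ht2
      (fun a => pow_ne_zero _ (hlam _)) (fun a v hv => by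
        rw [fv_pow, hU _ v hv, one_pow]) ε' ht4
    have hviol := hq t
    rw [ht1.1, ht1.2.1, ht3] at hviol
    have e0 : (fun a => c t (e' a) * lam (e' a) ^ n t) = x t := rfl
    rw [e0] at hstep
    have e1 : ∑ b, c t (e' b) * lam (e' b) ^ n t = ∑ b, x t b := rfl
    rw [e1, D.av_mul, Real.log_mul (D.av_pos _ _ (ht2 a0)).ne'
      (D.av_pos _ _ (pow_ne_zero _ (hlam _))).ne', av_pow, Real.log_pow, ha0] at hstep
    have e2 := neg_le_av D q0 (c t j0) (by rw [← ha0]; exact ht2 a0)
    have e3 : H1 (c t j0) ≤ d * s t := by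
      rw [H1_eq ι]
      exact mul_le_mul_of_nonneg_left (Finset.single_le_sum (f := fun i => h1 (ι (c t i)))
        (fun _ _ => h1_nonneg _) (Finset.mem_univ j0)) hd0.le
    have e4 := hH1c t
    have e5 := hHle t
    have e6 : ε' * logHeight (x t) ≤ ε' * (d * s t) + ε / 2 * n t := by
      have f1 := mul_le_mul_of_nonneg_left e5 hε'0.le
      have f2 : ε' * (d * Λ) * n t ≤ ε / 2 * n t :=
        mul_le_mul_of_nonneg_right hε'1 (Nat.cast_nonneg _)
      exact ar8 _ _ _ _ _ _ _ f1 f2
    have e7 : ((J.card : ℝ) + 1) * ∑ a, H1 (c t (e' a)) ≤ (J.card + 1) * (d * s t) :=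
      mul_le_mul_of_nonneg_left e4 (add_nonneg (Nat.cast_nonneg _) zero_le_one)
    have e8 : ε / 2 * n t < d * s t * (J.card + 3 + ε') := by
      linarith only [hviol, hstep, e2, e3, e6, e7, mul_nonneg hd0.le (hs0 t)]
    have e9 : d * s t * (J.card + 3 + ε') ≤ ε / 2 * (t * s t) := by
      have f1 : 2 * d * (J.card + 3 + ε') / ε ≤ t := by linarith only [ht5]
      rw [div_le_iff₀ hε] at f1
      have f2 := mul_le_mul_of_nonneg_right f1 (hs0 t)
      linarith only [f2]
    have e10 : ε / 2 * (t * s t) ≤ ε / 2 * n t := by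
      refine mul_le_mul_of_nonneg_left ?_ (by positivity)
      have f1 := hts t
      have f2 := hs0 t
      linarith only [f1, f2]
    linarith only [e8, e9, e10]
  obtain ⟨B1, hB1, hmain⟩ := hex
  refine ⟨B0 + B1, by positivity, fun c n hn j hj q => ?_⟩
  have hs0 : (0 : ℝ) ≤ 1 + ∑ i, h1 (ι (c i)) := by
    have : 0 ≤ ∑ i, h1 (ι (c i)) := Finset.sum_nonneg fun _ _ => h1_nonneg _
    linarith
  have f1 : B0 * (1 + ∑ i, h1 (ι (c i))) < n := by
    have := mul_nonneg hB1 hs0
    linarith [add_mul B0 B1 (1 + ∑ i, h1 (ι (c i)))]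
  have f2 : B1 * (1 + ∑ i, h1 (ι (c i))) < n := by
    have := mul_nonneg hB0 hs0
    linarith [add_mul B0 B1 (1 + ∑ i, h1 (ι (c i)))]
  exact ⟨fun h0 => hj (hind0 c n f1 h0 j), hmain c n f2 j hj q⟩

end Pool.Agent.Helper60.SP
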