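import Mathlib
import Pool.Agent.Helper60.SP.Grow2
import Pool.Agent.Helper60.SP.Zseq
import Pool.Agent.Helper60.SP.Dec

set_option autoImplicit false

/-!
Lower bounds for the sequences annihilated by a fixed nondegenerate polynomial, at every place.
-/

namespace Pool.Agent.Helper60.SP

open Finset NumberField IsDedekindDomain Polynomial
open Pool.Agent.H692R2.USS
open Pool.Agent.Y742.SF (PD fv fv_mul fv_nonneg fv_pos fv_one fv_zero fv_pow fv_int fv_eq_one_iff)
open Pool.Agent.Y215.SK (h1 h1_nonneg h1_mul_le h1_inv h1_div_le h1_pow h1_zero h1_one h1_sum_le)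
open Pool.Agent.Helper259.AbsHt
open Pool.Agent.Y556.SK (bin h1_bin root_bound h1_nat)

theorem h1_int (z : ℤ) : h1 (z : Qbar) ≤ Real.log (1 + |(z : ℝ)|) := by
  have h0 : h1 (z : Qbar) = h1 ((z.natAbs : ℕ) : Qbar) := by
    rcases Int.natAbs_eq z with h | h
    · conv_lhs => rw [h]
      rw [Int.cast_natCast]
    · conv_lhs => rw [h]
      rw [Int.cast_neg, Int.cast_natCast, Pool.Agent.Y215.SK.h1_neg]
  rw [h0, h1_nat]
  have h2 : ((z.natAbs : ℕ) : ℝ) = |(z : ℝ)| := by
    rw [Nat.cast_natAbs, Int.cast_abs]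
  rw [h2]
  rcases eq_or_ne z 0 with rfl | hz
  · simp
  · have h3 : 0 < |(z : ℝ)| := abs_pos.2 (by exact_mod_cast hz)
    exact Real.log_le_log h3 (by linarith)

/-- the coefficients of the representation of `Z` -/
noncomputable def cf {K : Type} [Field K] (d : ℕ) {r : ℕ} (a : Fin r → ℕ → ℕ → K) (Z : ℕ → ℤ)
    (i : Fin r) (s : ℕ) : K := ∑ j ∈ range d, (Z j : K) * a i s j

theorem cf_sum {K : Type} [Field K] (g : ℤ[X]) (hg : g.Monic) {r : ℕ} (lam : Fin r → K)
    (a : Fin r → ℕ → ℕ → K)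
    (hrep : ∀ j < g.natDegree, ∀ n, ((es g j n : ℤ) : K) =
        ∑ i, bin g.natDegree (fun s => a i s j) n * lam i ^ n)
    (Z : ℕ → ℤ) (hZ : Ann g Z) (n : ℕ) :
    (Z n : K) = ∑ i, bin g.natDegree (cf g.natDegree a Z i) n * lam i ^ n := by
  have h1 := es_sum g hg (R := K) (fun n => (Int.castRingHom K) (Z n)) (hZ.map _) n
  simp only [eq_intCast] at h1
  rw [h1]
  have h2 : ∀ j ∈ range g.natDegree, ((es g j n : ℤ) : K) * (Z j : K) =
      ∑ i, (Z j : K) * bin g.natDegree (fun s => a i s j) n * lam i ^ n := by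
    intro j hj
    rw [hrep j (Finset.mem_range.1 hj) n, Finset.sum_mul]
    refine Finset.sum_congr rfl fun i _ => ?_
    ring
  rw [Finset.sum_congr rfl h2, Finset.sum_comm]
  refine Finset.sum_congr rfl fun i _ => ?_
  rw [← Finset.sum_mul]
  congr 1
  unfold bin cf
  simp_rw [Finset.mul_sum, Finset.sum_mul]
  rw [Finset.sum_comm]
  refine Finset.sum_congr rfl fun s _ => Finset.sum_congr rfl fun j _ => ?_
  ring

theorem cf_height {K : Type} [Field K] (ι : K →+* Qbar) (d : ℕ) {r : ℕ}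
    (a : Fin r → ℕ → ℕ → K) (ha : ∀ i s j, d ≤ s → a i s j = 0) :
    ∃ C : ℝ, 0 ≤ C ∧ ∀ (Z : ℕ → ℤ) (A : ℝ), 1 ≤ A → (∀ j < d, |(Z j : ℝ)| ≤ Real.exp A) →
      ∀ i s, h1 (ι (cf d a Z i s)) ≤ C * A := by
  obtain ⟨G, hG⟩ : ∃ G : ℝ, G = ∑ i : Fin r, ∑ s ∈ range d, ∑ j ∈ range d, h1 (ι (a i s j)) :=
    ⟨_, rfl⟩
  have hG0 : 0 ≤ G := by
    rw [hG]
    exact Finset.sum_nonneg fun _ _ => Finset.sum_nonneg fun _ _ =>
      Finset.sum_nonneg fun _ _ => h1_nonneg _
  refine ⟨d + G + d * 2, by positivity, fun Z A hA hZ i s => ?_⟩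
  by_cases hs : d ≤ s
  · have h0 : cf d a Z i s = 0 := by
      unfold cf
      exact Finset.sum_eq_zero fun j _ => by rw [ha i s j hs, mul_zero]
    rw [h0, map_zero, h1_zero]
    positivity
  · rw [not_le] at hs
    unfold cf
    rw [map_sum]
    refine (h1_sum_le _ _).trans ?_
    rw [Finset.card_range]
    have hlog2 : Real.log 2 ≤ 1 := by
      have := Real.log_two_lt_d9
      linarith
    have e1 : ∀ j ∈ range d, h1 (ι ((Z j : K) * a i s j)) ≤ 2 * A + h1 (ι (a i s j)) := by
      intro j hj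
      rw [Finset.mem_range] at hj
      rw [map_mul, map_intCast]
      refine (h1_mul_le _ _).trans ?_
      have e2 := h1_int (Z j)
      have e3 : Real.log (1 + |(Z j : ℝ)|) ≤ 2 * A := by
        have e4 : 1 + |(Z j : ℝ)| ≤ Real.exp (2 * A) := by
          have e5 := hZ j hj
          have e6 : Real.exp (2 * A) = Real.exp A * Real.exp A := by
            rw [← Real.exp_add]
            congr 1
            ring
          have e7 : 2 ≤ Real.exp A := by
            have := Real.add_one_le_exp A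
            linarith
          rw [e6]
          nlinarith
        have e8 : 0 < 1 + |(Z j : ℝ)| := by
          have := abs_nonneg (Z j : ℝ)
          linarith
        have e9 := Real.log_le_log e8 e4
        rwa [Real.log_exp] at e9
      linarith
    have e2 := Finset.sum_le_sum e1
    rw [Finset.sum_add_distrib, Finset.sum_const, Finset.card_range, nsmul_eq_mul] at e2
    have e3 : ∑ j ∈ range d, h1 (ι (a i s j)) ≤ G := by
      rw [hG]
      have f1 := Finset.single_le_sum (f := fun s => ∑ j ∈ range d, h1 (ι (a i s j)))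
        (fun _ _ => Finset.sum_nonneg fun _ _ => h1_nonneg _) (Finset.mem_range.2 hs)
      have f2 := Finset.single_le_sum
        (f := fun i : Fin r => ∑ s ∈ range d, ∑ j ∈ range d, h1 (ι (a i s j)))
        (fun _ _ => Finset.sum_nonneg fun _ _ => Finset.sum_nonneg fun _ _ => h1_nonneg _)
        (Finset.mem_univ i)
      exact f1.trans f2
    have e4 : (d : ℝ) * Real.log 2 ≤ d * A :=
      mul_le_mul_of_nonneg_left (by linarith) (Nat.cast_nonneg d)
    have e5 : G * 1 ≤ G * A := mul_le_mul_of_nonneg_left hA hG0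
    nlinarith

variable {K : Type} [Field K] [NumberField K]

theorem unit_away (g : ℤ[X]) (hg : g.Monic) (x : K) (hx : aeval x g = 0)
    (v : HeightOneSpectrum (𝓞 K)) (hv : ((g.coeff 0 : ℤ) : 𝓞 K) ∉ v.asIdeal) : fv v x = 1 := by
  have hint : IsIntegral ℤ x := ⟨g, hg, hx⟩
  obtain ⟨y, hy⟩ : ∃ y : 𝓞 K, (y : K) = x := ⟨⟨x, hint⟩, rfl⟩
  rw [← hy]
  rw [fv_eq_one_iff]
  intro hmem
  apply hv
  have h1 : aeval y g = 0 := by
    have h2 : algebraMap (𝓞 K) K (aeval y g) = 0 := by
      rw [← aeval_algebraMap_apply]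
      have h3 : algebraMap (𝓞 K) K y = x := hy
      rw [h3, hx]
    exact RingOfIntegers.coe_injective (by
      rw [map_zero]
      exact h2)
  have h4 : ((g.coeff 0 : ℤ) : 𝓞 K) = - (y * aeval y g.divX) := by
    have h5 : g.divX * X + C (g.coeff 0) = g := divX_mul_X_add g
    have h6 := congrArg (aeval y) h5
    rw [h1, map_add, map_mul, aeval_X, aeval_C] at h6
    have h7 : algebraMap ℤ (𝓞 K) (g.coeff 0) = ((g.coeff 0 : ℤ) : 𝓞 K) := rfl
    rw [h7] at h6
    linear_combination h6
  rw [h4]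
  exact v.asIdeal.neg_mem (Ideal.mul_mem_right _ _ hmem)

/-- **Growth of the sequences annihilated by `g`.** -/
theorem Zgrow [IsGalois ℚ K] (g : ℤ[X]) (hg : g.Monic)
    (hnd : ∀ z z' : ℂ, aeval z g = 0 → aeval z' g = 0 → z ≠ z' → ∀ k : ℕ, 1 ≤ k →
      z ^ k ≠ z' ^ k)
    (D : PD K) (hD : ∀ v : HeightOneSpectrum (𝓞 K), ((g.coeff 0 : ℤ) : 𝓞 K) ∈ v.asIdeal →
      ∃ w, v = D.P w)
    (ι : K →+* Qbar) {r : ℕ} (lam : Fin r → K) (hinj : Function.Injective lam)
    (hlam : ∀ i, lam i ≠ 0 ∧ aeval (lam i) g = 0) (a : Fin r → ℕ → ℕ → K)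
    (hrep : ∀ j < g.natDegree, ∀ n, ((es g j n : ℤ) : K) =
        ∑ i, bin g.natDegree (fun s => a i s j) n * lam i ^ n)
    (ha : ∀ i s j, g.natDegree ≤ s → a i s j = 0)
    (hsq : Squarefree (g.map (Int.castRingHom ℚ)) → ∀ i s j, 1 ≤ s → a i s j = 0)
    (ε : ℝ) (hε : 0 < ε) :
    ∃ B : ℝ, 0 ≤ B ∧ ∀ (Z : ℕ → ℤ), Ann g Z → ∀ A : ℝ, 1 ≤ A →
      (∀ j < g.natDegree, |(Z j : ℝ)| ≤ Real.exp A) → ∀ n : ℕ,
      (B * A < Real.log n ∨ (Squarefree (g.map (Int.castRingHom ℚ)) ∧ B * A < n)) →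
      ∀ i, (∃ s < g.natDegree, cf g.natDegree a Z i s ≠ 0) → ∀ q, (Z n : K) ≠ 0 ∧
        (n : ℝ) * Real.log (D.av q (lam i)) - ε * n ≤ Real.log (D.av q (Z n : K)) := by
  classical
  set d := g.natDegree with hd
  have hnd' : ∀ i j, i ≠ j → ∀ k : ℕ, 1 ≤ k → (lam i / lam j) ^ k ≠ 1 := by
    intro i j hij k hk h
    have h2 : ∀ x : K, aeval x g = 0 → aeval (D.ψ x) g = 0 := by
      intro x hx
      have h3 := congrArg D.ψ hx
      rw [map_zero] at h3
      rw [← h3, aeval_def, aeval_def, hom_eval₂]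
      congr 1
      exact Subsingleton.elim _ _
    refine hnd (D.ψ (lam i)) (D.ψ (lam j)) (h2 _ (hlam i).2) (h2 _ (hlam j).2)
      (fun h4 => hij (hinj (D.ψ.injective h4))) k hk ?_
    rw [← map_pow, ← map_pow]
    congr 1
    rw [div_pow, div_eq_one_iff_eq (pow_ne_zero _ (hlam j).1)] at h
    exact h
  have hU : ∀ j (v : HeightOneSpectrum (𝓞 K)), (∀ w, v ≠ D.P w) → fv v (lam j) = 1 := by
    intro j v hv
    refine unit_away g hg _ (hlam j).2 v fun hmem => ?_
    obtain ⟨w, hw⟩ := hD v hmem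
    exact hv w hw
  obtain ⟨B0, hB0, hgrow⟩ := grow D ι lam (fun j => (hlam j).1) hU hnd' ε hε
  obtain ⟨C, hC0, hC⟩ := cf_height ι d a ha
  obtain ⟨R, hR0, hR⟩ := root_bound d
  obtain ⟨M, hM⟩ : ∃ M : ℝ, M = B0 * (1 + r * (d * (1 + C)) + r * (d * d)) := ⟨_, rfl⟩
  have hM0 : 0 ≤ M := by rw [hM]; positivity
  have hlM : 0 ≤ Real.log (2 * M + 2) := Real.log_nonneg (by linarith)
  obtain ⟨B1, hB1⟩ : ∃ B1 : ℝ, B1 = 2 * (M + M * Real.log (2 * M + 2)) := ⟨_, rfl⟩
  have hB10 : 0 ≤ B1 := by rw [hB1]; positivity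
  refine ⟨B1 + R * (1 + C), by positivity, fun Z hZ A hA hZA n hn i hi q => ?_⟩
  have hA0 : 0 ≤ A := by linarith
  have hcfA : ∀ i s, h1 (ι (cf d a Z i s)) ≤ C * A := hC Z A hA hZA
  have hRC : 0 ≤ R * (1 + C) * A := by positivity
  have hB1A : 0 ≤ B1 * A := by positivity
  have hsplit : (B1 + R * (1 + C)) * A = B1 * A + R * (1 + C) * A := by ring
  -- `n` is large
  have hnlarge : B1 * A < n := by
    rcases hn with hn | ⟨-, hn⟩
    · rcases Nat.eq_zero_or_pos n with rfl | hn0
      · simp only [Nat.cast_zero, Real.log_zero] at hn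
        linarith
      · have h2 := Real.log_le_sub_one_of_pos (show (0 : ℝ) < n by exact_mod_cast hn0)
        linarith
    · linarith
  have hn1 : 1 ≤ n := by
    rcases Nat.eq_zero_or_pos n with rfl | hn0
    · simp only [Nat.cast_zero] at hnlarge
      linarith
    · exact hn0
  have hnpos : (0 : ℝ) < n := by exact_mod_cast hn1
  have hlog : 0 ≤ Real.log n := Real.log_natCast_nonneg n
  -- the coefficients are small
  set c : Fin r → K := fun i => bin d (cf d a Z i) n with hcdef
  have hc : ∑ i, h1 (ι (c i)) ≤ r * (d * (1 + C * A + d * Real.log n)) := by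
    have e1 := Finset.sum_le_sum (s := Finset.univ) fun (i : Fin r) _ =>
      h1_bin d (fun s => ι (cf d a Z i s)) n hn1 (C * A) (hcfA i)
    rw [Finset.sum_const, Finset.card_univ, Fintype.card_fin, nsmul_eq_mul] at e1
    refine le_trans (le_of_eq ?_) e1
    refine Finset.sum_congr rfl fun i _ => ?_
    rw [hcdef]
    simp only
    rw [map_bin]
  have hbig : B0 * (1 + ∑ i, h1 (ι (c i))) < n := by
    have e1 : B0 * (1 + ∑ i, h1 (ι (c i))) ≤ M * A + M * Real.log n := by
      have e2 : B0 * (1 + ∑ i, h1 (ι (c i))) ≤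
          B0 * (1 + r * (d * (1 + C * A + d * Real.log n))) :=
        mul_le_mul_of_nonneg_left (by linarith) hB0
      have e3 : 1 + (r : ℝ) * (d * (1 + C * A + d * Real.log n)) ≤
          (1 + r * (d * (1 + C)) + r * (d * d)) * (A + Real.log n) := by
        have f2 : (1 + (r : ℝ) * (d * (1 + C)) + r * (d * d)) * (A + Real.log n) -
            (1 + (r : ℝ) * (d * (1 + C * A + d * Real.log n))) =
            (A - 1) * (1 + r * d) + Real.log n * (1 + r * (d * (1 + C))) +
              r * (d * d) * A := by ring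
        have f3 : 0 ≤ (A - 1) * (1 + (r : ℝ) * d) + Real.log n * (1 + r * (d * (1 + C))) +
              r * (d * d) * A := by
          have g1 : 0 ≤ (A - 1) * (1 + (r : ℝ) * d) :=
            mul_nonneg (by linarith) (by positivity)
          have g2 : 0 ≤ Real.log n * (1 + (r : ℝ) * (d * (1 + C))) := by positivity
          have g3 : 0 ≤ (r : ℝ) * (d * d) * A := by positivity
          linarith
        linarith
      have e4 := mul_le_mul_of_nonneg_left e3 hB0
      have e5 : B0 * ((1 + r * (d * (1 + C)) + r * (d * d)) * (A + Real.log n)) =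
          M * A + M * Real.log n := by
        rw [hM]
        ring
      linarith
    have e6 : Real.log n ≤ n / (2 * M + 2) + Real.log (2 * M + 2) := by
      have h2 : (0 : ℝ) < 2 * M + 2 := by linarith
      have h3 := Real.log_le_sub_one_of_pos (div_pos hnpos h2)
      rw [Real.log_div hnpos.ne' h2.ne'] at h3
      linarith
    have e7 : M * Real.log n ≤ n / 2 + M * Real.log (2 * M + 2) := by
      have h2 := mul_le_mul_of_nonneg_left e6 hM0
      have h3 : M * (n / (2 * M + 2)) ≤ n / 2 := by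
        rw [mul_div_assoc', div_le_div_iff₀ (by linarith) (by norm_num)]
        nlinarith
      linarith [mul_add M ((n : ℝ) / (2 * M + 2)) (Real.log (2 * M + 2))]
    have e8 : M * Real.log (2 * M + 2) ≤ M * Real.log (2 * M + 2) * A :=
      le_mul_of_one_le_right (by positivity) hA
    have e9 : B1 * A = 2 * (M * A) + 2 * (M * Real.log (2 * M + 2) * A) := by
      rw [hB1]
      ring
    linarith
  have hZn := cf_sum g hg lam a hrep Z hZ n
  -- the coefficient does not vanish
  have hci : c i ≠ 0 := by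
    rcases hn with hn | ⟨hs, hn⟩
    · intro h0
      obtain ⟨s, hs1, hs2⟩ := hi
      have h2 := hR (fun s => ι (cf d a Z i s)) n (C * A)
        ⟨s, hs1, (map_ne_zero ι).2 hs2⟩ (by rw [← map_bin]; rw [show bin d (cf d a Z i) n = 0 from h0, map_zero]) (hcfA i)
      have h3 : R * (1 + C * A) ≤ R * (1 + C) * A := by
        have : R * 1 ≤ R * A := mul_le_mul_of_nonneg_left hA hR0
        nlinarith
      linarith
    · obtain ⟨s, hs1, hs2⟩ := hi
      have hz : ∀ s, 1 ≤ s → cf d a Z i s = 0 := by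
        intro s hs'
        unfold cf
        exact Finset.sum_eq_zero fun j _ => by rw [hsq hs i s j hs', mul_zero]
      have hs0 : s = 0 := by
        by_contra h
        exact hs2 (hz s (Nat.pos_of_ne_zero h))
      subst hs0
      have h2 : c i = cf d a Z i 0 := by
        rw [hcdef]
        simp only
        unfold bin
        rw [Finset.sum_eq_single 0]
        · simp
        · intro j _ hj
          rw [hz j (Nat.pos_of_ne_zero hj), zero_mul]
        · intro h
          exact absurd (Finset.mem_range.2 hs1) h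
      rw [h2]
      exact hs2
  have hfin := hgrow c n hbig i hci q
  have hZn' : (Z n : K) = ∑ i, c i * lam i ^ n := hZn
  rw [← hZn'] at hfin
  exact hfin

end Pool.Agent.Helper60.SP
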