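import Mathlib
import Pool.Agent.Helper60.SP.ZG
import Pool.Agent.Helper60.SP.XB
import Pool.Agent.Helper60.SP.PLoc

set_option autoImplicit false

/-!
Characteristic roots.
-/

namespace Pool.Agent.Helper60.SP

open Finset NumberField IsDedekindDomain Polynomial
open Pool.Agent.H692R2.USS
open Pool.Agent.Y556.SK (bin bin_succ_aux)

theorem ann_bin {F : Type} [Field F] (μ : F) (k : ℕ) : ∀ b : ℕ → F,
    Ann ((X - C μ) ^ k) (fun n => bin k b n * μ ^ n) := by
  induction k with
  | zero =>
    intro b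
    rw [pow_zero]
    unfold Ann bin
    rw [map_one]
    funext n
    simp
  | succ k ih =>
    intro b
    have h1 : (fun n => bin (k + 1) b (n + 1) * μ ^ (n + 1) - μ * (bin (k + 1) b n * μ ^ n)) =
        μ • (fun n => bin k (fun j => b (j + 1)) n * μ ^ n) := by
      funext n
      rw [Pi.smul_apply, smul_eq_mul]
      have h2 : bin (k + 1) b (n + 1) = bin (k + 1) b n + bin k (fun j => b (j + 1)) n := by
        have h3 := bin_succ_aux b n k
        unfold bin
        rw [h3, Finset.sum_range_succ (fun j => b j * (n.choose j : F)) k]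
        simp_rw [add_mul]
        rw [Finset.sum_add_distrib]
        ring
      rw [h2]
      ring
    have h4 := (ih (fun j => b (j + 1))).smul μ
    rw [← h1] at h4
    unfold Ann at h4 ⊢
    rw [pow_succ, map_mul, Module.End.mul_apply]
    have h5 : (aeval (E F) (X - C μ)) (fun n => bin (k + 1) b n * μ ^ n) =
        fun n => bin (k + 1) b (n + 1) * μ ^ (n + 1) - μ * (bin (k + 1) b n * μ ^ n) := by
      funext n
      rw [map_sub, aeval_X, aeval_C, LinearMap.sub_apply, Pi.sub_apply, E_apply]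
      rfl
    rw [h5]
    exact h4

/-- the coefficient of a characteristic root does not vanish -/
theorem coef_ne {K L : Type} [Field K] [Field L] [CharZero L] (φ : K →+* L) (d : ℕ) {r : ℕ}
    (lam : Fin r → K) (hinj : Function.Injective lam) (f : Fin r → ℕ → K)
    (h : ℤ[X]) (u Z X' : ℕ → ℤ) (R : ℤ) (hR : R ≠ 0) (hdec : ∀ n, R * u n = Z n + X' n)
    (hZ : ∀ n, (Z n : K) = ∑ i, bin d (f i) n * lam i ^ n) (hX : Ann h X') (i : Fin r)
    (hchar : ∀ q : L[X], Ann q (fun n => (u n : L)) → q.eval (φ (lam i)) = 0)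
    (hhz : aeval (φ (lam i)) h ≠ 0) : ∃ s < d, f i s ≠ 0 := by
  classical
  by_contra hcon
  push Not at hcon
  set Q : K[X] := ∏ i' ∈ Finset.univ.erase i, (X - C (lam i')) ^ d with hQ
  have hZK : Ann Q (fun n => (Z n : K)) := by
    have h1 : (fun n => (Z n : K)) =
        ∑ i' ∈ Finset.univ.erase i, (fun n => bin d (f i') n * lam i' ^ n) := by
      funext n
      rw [hZ n, Finset.sum_apply, ← Finset.add_sum_erase _ _ (Finset.mem_univ i)]
      have h2 : bin d (f i) n = 0 := by
        unfold bin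
        exact Finset.sum_eq_zero fun s hs => by rw [hcon s (Finset.mem_range.1 hs), zero_mul]
      rw [h2, zero_mul, zero_add]
    rw [h1]
    refine Ann.sum _ fun i' hi' => ?_
    exact (ann_bin (lam i') d (f i')).of_dvd (Finset.dvd_prod_of_mem _ hi')
  have hZL : Ann (Q.map φ) (fun n => (Z n : L)) := by
    have h1 := hZK.map φ
    simp only [map_intCast] at h1
    exact h1
  have hXL : Ann (h.map (Int.castRingHom L)) (fun n => (X' n : L)) := hX.map (Int.castRingHom L)
  have hsum : Ann (Q.map φ * h.map (Int.castRingHom L)) (fun n => (u n : L)) := by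
    have h1 : Ann (Q.map φ * h.map (Int.castRingHom L))
        ((fun n => (Z n : L)) + fun n => (X' n : L)) :=
      (hZL.mul_right _).add (hXL.mul_left _)
    have h2 : ((fun n => (Z n : L)) + fun n => (X' n : L)) = (R : L) • fun n => (u n : L) := by
      funext n
      rw [Pi.add_apply, Pi.smul_apply, smul_eq_mul]
      have h3 := congrArg (Int.cast : ℤ → L) (hdec n)
      push_cast at h3
      exact h3.symm
    rw [h2] at h1
    have hR' : (R : L) ≠ 0 := by exact_mod_cast hR
    have h4 := h1.smul (R : L)⁻¹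
    rw [smul_smul, inv_mul_cancel₀ hR', one_smul] at h4
    exact h4
  have h5 := hchar _ hsum
  rw [eval_mul, mul_eq_zero] at h5
  rcases h5 with h5 | h5
  · rw [hQ, Polynomial.map_prod, eval_prod, Finset.prod_eq_zero_iff] at h5
    obtain ⟨i', hi', h6⟩ := h5
    rw [Polynomial.map_pow, Polynomial.map_sub, map_X, map_C, eval_pow, eval_sub, eval_X,
      eval_C] at h6
    have h7 := eq_zero_of_pow_eq_zero h6
    rw [sub_eq_zero] at h7
    have h8 := hinj (φ.injective h7)
    exact (Finset.mem_erase.1 hi').1 h8.symm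
  · apply hhz
    rw [eval_map] at h5
    rw [aeval_def]
    exact h5

/-- the roots in an extension -/
theorem root_lift {K L : Type} [Field K] [Field L] (φ : K →+* L) (g : ℤ[X]) {r : ℕ}
    (lam : Fin r → K) (mu : Fin g.natDegree → Fin r)
    (hmu : g.map (Int.castRingHom K) = ∏ t, (X - C (lam (mu t)))) (z : L)
    (hz : aeval z g = 0) : ∃ i, z = φ (lam i) := by
  have h1 : g.map (Int.castRingHom L) = ∏ t, (X - C (φ (lam (mu t)))) := by
    have h2 : g.map (Int.castRingHom L) = (g.map (Int.castRingHom K)).map φ := by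
      rw [Polynomial.map_map]
      congr 1
      exact Subsingleton.elim _ _
    rw [h2, hmu, Polynomial.map_prod]
    refine Finset.prod_congr rfl fun t _ => ?_
    rw [Polynomial.map_sub, map_X, map_C]
  have h3 : (g.map (Int.castRingHom L)).eval z = 0 := by
    rw [eval_map]
    exact hz
  rw [h1, eval_prod, Finset.prod_eq_zero_iff] at h3
  obtain ⟨t, -, ht⟩ := h3
  rw [eval_sub, eval_X, eval_C, sub_eq_zero] at ht
  exact ⟨mu t, ht⟩

theorem exists_emb (K : Type) [Field K] [NumberField K] (L : Type) [Field L] [CharZero L]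
    [IsAlgClosed L] : Nonempty (K →+* L) :=
  ⟨(IsAlgClosed.lift (R := ℚ) (S := K) (M := L) : K →ₐ[ℚ] L)⟩

theorem norm_int_padic (p : ℕ) [Fact p.Prime] (z : ℤ) :
    ‖(z : ℂ_[p])‖ = ‖(z : ℚ_[p])‖ := by
  rw [← norm_algebraMap' ℂ_[p] (z : ℚ_[p]), map_intCast]

theorem norm_p_lt_one (p : ℕ) [Fact p.Prime] : ‖(p : ℂ_[p])‖ < 1 := by
  have h := norm_int_padic p (p : ℤ)
  rw [Int.cast_natCast, Int.cast_natCast] at h
  rw [h]
  exact Padic.norm_p_lt_one

theorem padic_int_lower (p : ℕ) [Fact p.Prime] (z : ℤ) (hz : z ≠ 0) :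
    1 ≤ ‖(z : ℂ_[p])‖ * |(z : ℝ)| := by
  have h1 := norm_int_padic p z
  have h2 : ‖(z : ℚ_[p])‖ = (p : ℝ) ^ (-(padicValInt p z : ℤ)) := by
    rw [Padic.norm_eq_zpow_neg_valuation (by exact_mod_cast hz), Padic.valuation_intCast]
  have h4 : (p : ℤ) ^ padicValInt p z ∣ z := padicValInt_dvd z
  have h5 : ((p : ℤ) ^ padicValInt p z) ≤ |z| := Int.le_of_dvd (abs_pos.2 hz)
    ((dvd_abs _ _).2 h4)
  have hp : (0 : ℝ) < p := by exact_mod_cast (Fact.out : p.Prime).pos
  have h6 : ((p : ℝ) ^ padicValInt p z) ≤ |(z : ℝ)| := by exact_mod_cast h5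
  rw [h1, h2]
  rw [zpow_neg, zpow_natCast, inv_mul_eq_div, one_le_div (by positivity)]
  exact h6

end Pool.Agent.Helper60.SP
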