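import Mathlib
import Pool.Agent.Helper60.SP.Dec

set_option autoImplicit false

/-!
Splitting off the part of a sequence which belongs to a fixed factor.
-/

namespace Pool.Agent.Helper60.SP

open Finset Polynomial
open Pool.Agent.H692R2.USS

theorem det_le' {d : ℕ} (M : Matrix (Fin d) (Fin d) ℤ) (B : ℝ)
    (hM : ∀ i j, |(M i j : ℝ)| ≤ B) : |(M.det : ℝ)| ≤ (d.factorial : ℝ) * B ^ d := by
  have h := Matrix.det_le (A := M.map (Int.castRingHom ℝ)) (abv := AbsoluteValue.abs) (x := B)
    (fun i j => hM i j)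
  have h2 : (M.map (Int.castRingHom ℝ)).det = ((M.det : ℤ) : ℝ) := by
    rw [← RingHom.mapMatrix_apply, ← RingHom.map_det]
    rfl
  rw [h2, Fintype.card_fin, nsmul_eq_mul] at h
  exact h

theorem adj_le {d : ℕ} (M : Matrix (Fin d) (Fin d) ℤ) (B : ℝ) (hB : 1 ≤ B)
    (hM : ∀ i j, |(M i j : ℝ)| ≤ B) (i j : Fin d) :
    |(M.adjugate i j : ℝ)| ≤ (d.factorial : ℝ) * B ^ d := by
  rw [Matrix.adjugate_apply]
  refine det_le' _ B fun a b => ?_
  rw [Matrix.updateRow_apply]
  split_ifs with h
  · rw [Pi.single_apply]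
    split_ifs
    · simpa using hB
    · simp only [Int.cast_zero, abs_zero]
      linarith
  · exact hM a b

/-- the constant of `decomp` -/
noncomputable def cst (g : ℤ[X]) : ℝ :=
  (g.natDegree.factorial : ℝ) + g.natDegree + g.natDegree * (2 + 2 * Real.log (1 + GG g) +
    Real.log (1 + GG g) * g.natDegree) + (3 + Real.log (1 + GG g)) + 1 + g.natDegree +
    Real.log (1 + GG g) + 2

theorem cst_nonneg (g : ℤ[X]) : 0 ≤ cst g := by
  have h1 := GG_nonneg g
  have h2 : 0 ≤ Real.log (1 + GG g) := Real.log_nonneg (by linarith)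
  unfold cst
  positivity

theorem decomp (g : ℤ[X]) (hg : g.Monic) : ∀ h : ℤ[X], h.Monic →
    IsCoprime (g.map (Int.castRingHom ℚ)) (h.map (Int.castRingHom ℚ)) → ∀ u : ℕ → ℤ,
    Ann (g * h) u → ∀ S : ℝ, 1 ≤ S → (h.natDegree : ℝ) ≤ S →
    (∀ i, |((g * h).coeff i : ℝ)| ≤ Real.exp S) →
    (∀ i < g.natDegree + h.natDegree, |(u i : ℝ)| ≤ Real.exp S) →
    ∃ (R : ℤ) (Z X : ℕ → ℤ), R ≠ 0 ∧ Ann g Z ∧ Ann h X ∧ (∀ n, R * u n = Z n + X n) ∧
      (∀ j < g.natDegree, |(Z j : ℝ)| ≤ Real.exp (cst g * S)) ∧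
      (∀ i < h.natDegree, |(X i : ℝ)| ≤ Real.exp (cst g * S)) := by
  classical
  rw [cst]
  set d := g.natDegree with hd
  set G1 : ℝ := 1 + GG g with hG1
  have hG11 : 1 ≤ G1 := by
    have := GG_nonneg g
    linarith
  set c0 : ℝ := Real.log G1 with hc0
  have hc00 : 0 ≤ c0 := Real.log_nonneg hG11
  have hG1pow : ∀ n : ℕ, G1 ^ n = Real.exp (n * c0) := by
    intro n
    rw [hc0, ← Real.log_pow, Real.exp_log (by positivity)]
  set b : ℝ := 2 + 2 * c0 + c0 * d with hb
  have hb0 : 0 ≤ b := by positivity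
  set F : ℝ := (d.factorial : ℝ) with hF
  have hF1 : 1 ≤ F := by
    rw [hF]
    exact_mod_cast Nat.factorial_pos d
  set C1 : ℝ := F + d + d * b + (3 + c0) with hC1
  have hC10 : 0 ≤ C1 := by positivity
  intro h hh hcop u hu S hS1 hk hf hui
  set k := h.natDegree with hkdef
  set M : ℝ := Real.exp S with hM
  have hS0 : 0 < S := by linarith
  have hM1 : 1 ≤ M := by
    rw [hM, ← Real.exp_zero]
    exact Real.exp_le_exp.2 hS0.le
  have hself : ∀ x : ℝ, x ≤ Real.exp x := fun x => by
    have := Real.add_one_le_exp x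
    linarith
  have hk1 : (k : ℝ) + 1 ≤ Real.exp S := by
    have := Real.add_one_le_exp S
    linarith
  have hGk : G1 ^ k ≤ Real.exp (c0 * S) := by
    rw [hG1pow]
    refine Real.exp_le_exp.2 ?_
    nlinarith
  -- the coefficients of `h`
  have hcoef : ∀ i, |(h.coeff i : ℝ)| ≤ Real.exp ((1 + c0) * S) := by
    intro i
    refine (cofactor_le g h hg hh M hM1 hf i).trans ?_
    calc M * (1 + GG g) ^ h.natDegree ≤ Real.exp S * Real.exp (c0 * S) :=
          mul_le_mul_of_nonneg_left hGk (Real.exp_pos _).le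
      _ = Real.exp ((1 + c0) * S) := by
          rw [← Real.exp_add]
          congr 1
          ring
  -- the sequence `y`
  set y : ℕ → ℤ := aeval (E ℤ) h u with hy
  have hyn : ∀ n, y n = ∑ i ∈ range (k + 1), h.coeff i * u (n + i) := fun n =>
    aeval_E_apply h u n (Nat.lt_succ_self _)
  have hyann : Ann g y := by
    unfold Ann at hu ⊢
    rw [map_mul, Module.End.mul_apply] at hu
    exact hu
  have hyle : ∀ n < d, |(y n : ℝ)| ≤ Real.exp ((3 + c0) * S) := by
    intro n hn
    rw [hyn]
    push_cast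
    have h1 : ∀ i ∈ range (k + 1), |(h.coeff i : ℝ) * (u (n + i) : ℝ)| ≤
        Real.exp ((1 + c0) * S) * Real.exp S := by
      intro i hi
      rw [Finset.mem_range] at hi
      rw [abs_mul]
      exact mul_le_mul (hcoef i) (hui _ (by omega)) (abs_nonneg _) (Real.exp_pos _).le
    refine (Finset.abs_sum_le_sum_abs _ _).trans ((Finset.sum_le_sum h1).trans ?_)
    rw [Finset.sum_const, Finset.card_range, nsmul_eq_mul]
    push_cast
    calc ((k : ℝ) + 1) * (Real.exp ((1 + c0) * S) * Real.exp S) ≤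
        Real.exp S * (Real.exp ((1 + c0) * S) * Real.exp S) :=
          mul_le_mul_of_nonneg_right hk1 (by positivity)
      _ = Real.exp ((3 + c0) * S) := by
          rw [← Real.exp_add, ← Real.exp_add]
          congr 1
          ring
  -- the matrix
  let H : Matrix (Fin d) (Fin d) ℤ := Matrix.of fun i j => aeval (E ℤ) h (es g j) i
  have hHij : ∀ i j : Fin d, H i j = aeval (E ℤ) h (es g j) i := fun i j => rfl
  have hHle : ∀ i j, |(H i j : ℝ)| ≤ Real.exp (b * S) := by
    intro i j
    rw [hHij, aeval_E_apply h _ _ (Nat.lt_succ_self _)]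
    push_cast
    have h1 : ∀ l ∈ range (k + 1), |(h.coeff l : ℝ) * (es g j (i + l) : ℝ)| ≤
        Real.exp ((1 + c0) * S) * Real.exp ((c0 + c0 * d) * S) := by
      intro l hl
      rw [Finset.mem_range] at hl
      rw [abs_mul]
      refine mul_le_mul (hcoef l) ?_ (abs_nonneg _) (Real.exp_pos _).le
      refine (es_le g hg j _).trans ?_
      rw [← hG1, hG1pow]
      refine Real.exp_le_exp.2 ?_
      have e1 : ((i : ℕ) : ℝ) ≤ d := by exact_mod_cast i.2.le
      have e2 : (l : ℝ) ≤ S := by
        have : (l : ℝ) ≤ k := by exact_mod_cast (by omega : l ≤ k)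
        linarith
      push_cast
      have e3 : (d : ℝ) * 1 ≤ d * S := mul_le_mul_of_nonneg_left hS1 (Nat.cast_nonneg d)
      nlinarith
    refine (Finset.abs_sum_le_sum_abs _ _).trans ((Finset.sum_le_sum h1).trans ?_)
    rw [Finset.sum_const, Finset.card_range, nsmul_eq_mul]
    push_cast
    calc ((k : ℝ) + 1) * (Real.exp ((1 + c0) * S) * Real.exp ((c0 + c0 * d) * S)) ≤
        Real.exp S * (Real.exp ((1 + c0) * S) * Real.exp ((c0 + c0 * d) * S)) :=
          mul_le_mul_of_nonneg_right hk1 (by positivity)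
      _ = Real.exp (b * S) := by
          rw [← Real.exp_add, ← Real.exp_add]
          congr 1
          rw [hb]
          ring
  have hbS : 1 ≤ Real.exp (b * S) := by
    rw [← Real.exp_zero]
    exact Real.exp_le_exp.2 (by positivity)
  have hFexp : F * Real.exp (b * S) ^ d ≤ Real.exp ((F + d * b) * S) := by
    rw [← Real.exp_nat_mul]
    calc F * Real.exp (d * (b * S)) ≤ Real.exp (F * S) * Real.exp (d * (b * S)) := by
          refine mul_le_mul_of_nonneg_right ?_ (Real.exp_pos _).le
          have := hself (F * S)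
          nlinarith
      _ = Real.exp ((F + d * b) * S) := by
          rw [← Real.exp_add]
          congr 1
          ring
  let Y : Fin d → ℤ := fun j => y j
  let w : Fin d → ℤ := H.adjugate.mulVec Y
  have hwle : ∀ j, |(w j : ℝ)| ≤ Real.exp (C1 * S) := by
    intro j
    have h0 : w j = ∑ i, H.adjugate j i * Y i := rfl
    rw [h0]
    push_cast
    have h1 : ∀ i ∈ (Finset.univ : Finset (Fin d)), |(H.adjugate j i : ℝ) * (Y i : ℝ)| ≤
        Real.exp ((F + d * b) * S) * Real.exp ((3 + c0) * S) := by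
      intro i _
      rw [abs_mul]
      exact mul_le_mul ((adj_le H _ hbS hHle j i).trans hFexp) (hyle _ i.2) (abs_nonneg _)
        (Real.exp_pos _).le
    refine (Finset.abs_sum_le_sum_abs _ _).trans ((Finset.sum_le_sum h1).trans ?_)
    rw [Finset.sum_const, Finset.card_univ, Fintype.card_fin, nsmul_eq_mul]
    calc (d : ℝ) * (Real.exp ((F + d * b) * S) * Real.exp ((3 + c0) * S)) ≤
        Real.exp (d * S) * (Real.exp ((F + d * b) * S) * Real.exp ((3 + c0) * S)) := by
          refine mul_le_mul_of_nonneg_right ?_ (by positivity)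
          have := hself (d * S)
          have e3 : (d : ℝ) * 1 ≤ d * S := mul_le_mul_of_nonneg_left hS1 (Nat.cast_nonneg d)
          linarith
      _ = Real.exp (C1 * S) := by
          rw [← Real.exp_add, ← Real.exp_add]
          congr 1
          rw [hC1]
          ring
  let R : ℤ := H.det
  have hRle : |(R : ℝ)| ≤ Real.exp (C1 * S) := by
    refine ((det_le' H _ hHle).trans hFexp).trans (Real.exp_le_exp.2 ?_)
    refine mul_le_mul_of_nonneg_right ?_ hS0.le
    rw [hC1]
    have : (0 : ℝ) ≤ d := Nat.cast_nonneg d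
    linarith
  let Z : ℕ → ℤ := ∑ j : Fin d, w j • es g j
  have hZann : Ann g Z := Ann.sum _ fun j _ => (es_ann g hg j).smul _
  have hZn : ∀ n, Z n = ∑ j : Fin d, w j * es g j n := by
    intro n
    simp only [Z, Finset.sum_apply, Pi.smul_apply, smul_eq_mul]
  have hZj : ∀ j : Fin d, Z j = w j := by
    intro j
    rw [hZn, Finset.sum_eq_single j]
    · rw [es_ini g hg j j j.2, if_pos rfl, mul_one]
    · intro i _ hij
      rw [es_ini g hg i j j.2, if_neg (fun h => hij (Fin.ext h)), mul_zero]
    · intro h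
      exact absurd (Finset.mem_univ _) h
  -- the action of `h` on combinations of the basis
  have hact : ∀ v : Fin d → ℤ, ∀ i : Fin d,
      aeval (E ℤ) h (∑ j : Fin d, v j • es g j) i = H.mulVec v i := by
    intro v i
    rw [map_sum, Finset.sum_apply]
    have h0 : H.mulVec v i = ∑ j, H i j * v j := rfl
    rw [h0]
    refine Finset.sum_congr rfl fun j _ => ?_
    rw [map_smul, Pi.smul_apply, smul_eq_mul, mul_comm]
    rfl
  have hhZ : aeval (E ℤ) h Z = R • y := by
    funext n
    refine Ann.ext hg (hZann.aeval h) (hyann.smul R) (fun m hm => ?_) n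
    have h1 := hact w ⟨m, hm⟩
    have h2 : H.mulVec w = R • Y := by
      show H.mulVec (H.adjugate.mulVec Y) = _
      rw [Matrix.mulVec_mulVec, Matrix.mul_adjugate, Matrix.smul_mulVec, Matrix.one_mulVec]
    rw [h2] at h1
    exact h1
  have hR0 : R ≠ 0 := by
    intro h0
    obtain ⟨v, hv, hv2⟩ := Matrix.exists_mulVec_eq_zero_iff.2 h0
    apply hv
    set s : ℕ → ℤ := ∑ j : Fin d, v j • es g j with hs
    have hsann : Ann g s := Ann.sum _ fun j _ => (es_ann g hg j).smul _
    have hsh : Ann h s := by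
      unfold Ann
      funext n
      refine Ann.eq_zero hg (hsann.aeval h) (fun m hm => ?_) n
      have h1 := hact v ⟨m, hm⟩
      rw [hv2] at h1
      exact h1
    have h3 := hsann.map (Int.castRingHom ℚ)
    have h4 := hsh.map (Int.castRingHom ℚ)
    obtain ⟨a, b, hab⟩ := hcop
    have h5 : (fun n => (Int.castRingHom ℚ) (s n)) = 0 := by
      have h6 : aeval (E ℚ) (a * g.map (Int.castRingHom ℚ) + b * h.map (Int.castRingHom ℚ))
          (fun n => (Int.castRingHom ℚ) (s n)) = 0 := by
        rw [map_add, LinearMap.add_apply]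
        have e1 : Ann (a * g.map (Int.castRingHom ℚ)) (fun n => (Int.castRingHom ℚ) (s n)) :=
          h3.mul_left a
        have e2 : Ann (b * h.map (Int.castRingHom ℚ)) (fun n => (Int.castRingHom ℚ) (s n)) :=
          h4.mul_left b
        unfold Ann at e1 e2
        rw [e1, e2, add_zero]
      rw [hab, map_one] at h6
      exact h6
    funext j
    have h7 : s j = v j := by
      rw [hs, Finset.sum_apply, Finset.sum_eq_single j]
      · rw [Pi.smul_apply, es_ini g hg j j j.2, if_pos rfl, smul_eq_mul, mul_one]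
      · intro i _ hij
        rw [Pi.smul_apply, es_ini g hg i j j.2, if_neg (fun h => hij (Fin.ext h)), smul_zero]
      · intro h
        exact absurd (Finset.mem_univ _) h
    have h8 := congrFun h5 j
    simp only [eq_intCast, Pi.zero_apply, Int.cast_eq_zero] at h8
    rw [← h7]
    exact h8
  let X : ℕ → ℤ := R • u - Z
  have hXann : Ann h X := by
    unfold Ann
    rw [map_sub, map_smul, hhZ, ← hy, sub_self]
  have hZle : ∀ i ≤ k, |(Z i : ℝ)| ≤ Real.exp ((C1 + d + c0) * S) := by
    intro i hi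
    rw [hZn]
    push_cast
    have h1 : ∀ j ∈ (Finset.univ : Finset (Fin d)), |(w j : ℝ) * (es g j i : ℝ)| ≤
        Real.exp (C1 * S) * Real.exp (c0 * S) := by
      intro j _
      rw [abs_mul]
      refine mul_le_mul (hwle j) ?_ (abs_nonneg _) (Real.exp_pos _).le
      refine (es_le g hg j _).trans (le_trans ?_ hGk)
      exact pow_le_pow_right₀ hG11 hi
    refine (Finset.abs_sum_le_sum_abs _ _).trans ((Finset.sum_le_sum h1).trans ?_)
    rw [Finset.sum_const, Finset.card_univ, Fintype.card_fin, nsmul_eq_mul]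
    calc (d : ℝ) * (Real.exp (C1 * S) * Real.exp (c0 * S)) ≤
        Real.exp (d * S) * (Real.exp (C1 * S) * Real.exp (c0 * S)) := by
          refine mul_le_mul_of_nonneg_right ?_ (by positivity)
          have := hself (d * S)
          have e3 : (d : ℝ) * 1 ≤ d * S := mul_le_mul_of_nonneg_left hS1 (Nat.cast_nonneg d)
          linarith
      _ = Real.exp ((C1 + d + c0) * S) := by
          rw [← Real.exp_add, ← Real.exp_add]
          congr 1
          ring
  refine ⟨R, Z, X, hR0, hZann, hXann, fun n => ?_, fun j hj => ?_, fun i hi => ?_⟩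
  · show R * u n = Z n + (R • u - Z) n
    rw [Pi.sub_apply, Pi.smul_apply, smul_eq_mul]
    ring
  · have h1 := hZj ⟨j, hj⟩
    simp only at h1
    rw [h1]
    refine (hwle _).trans (Real.exp_le_exp.2 ?_)
    refine mul_le_mul_of_nonneg_right ?_ hS0.le
    have : (0 : ℝ) ≤ d := Nat.cast_nonneg d
    linarith
  · have h1 : (X i : ℝ) = (R : ℝ) * (u i : ℝ) - (Z i : ℝ) := by
      show (((R • u - Z) i : ℤ) : ℝ) = _
      rw [Pi.sub_apply, Pi.smul_apply, smul_eq_mul]
      push_cast
      ring
    rw [h1]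
    refine (abs_sub _ _).trans ?_
    rw [abs_mul]
    have h2 : |(R : ℝ)| * |(u i : ℝ)| ≤ Real.exp (C1 * S) * Real.exp S :=
      mul_le_mul hRle (hui i (by omega)) (abs_nonneg _) (Real.exp_pos _).le
    have h3 := hZle i hi.le
    have h4 : Real.exp (C1 * S) * Real.exp S ≤ Real.exp ((C1 + 1 + d + c0) * S) := by
      rw [← Real.exp_add]
      refine Real.exp_le_exp.2 ?_
      have : (0 : ℝ) ≤ (d + c0) * S := by positivity
      nlinarith
    have h5 : Real.exp ((C1 + d + c0) * S) ≤ Real.exp ((C1 + 1 + d + c0) * S) := by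
      refine Real.exp_le_exp.2 ?_
      nlinarith
    have h6 : (2 : ℝ) ≤ Real.exp (2 * S) := by
      have := Real.add_one_le_exp (2 * S)
      linarith
    calc |(R : ℝ)| * |(u i : ℝ)| + |(Z i : ℝ)| ≤ 2 * Real.exp ((C1 + 1 + d + c0) * S) := by
          linarith
      _ ≤ Real.exp (2 * S) * Real.exp ((C1 + 1 + d + c0) * S) :=
          mul_le_mul_of_nonneg_right h6 (Real.exp_pos _).le
      _ = Real.exp ((C1 + 1 + d + c0 + 2) * S) := by
          rw [← Real.exp_add]
          congr 1
          ring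

end Pool.Agent.Helper60.SP
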