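import Mathlib
import Pool.Agent.Helper60.SP.Char
import Pool.Agent.Helper60.SP.Dec2

set_option autoImplicit false

/-!
Scaling of the roots.
-/

namespace Pool.Agent.Helper60.SP

open Finset Polynomial
open Pool.Agent.H692R2.USS
open Pool.Agent.Y556.SK (bin)

theorem one_le_abs {a : ℤ} (ha : a ≠ 0) : (1 : ℝ) ≤ |(a : ℝ)| := by
  have h1 : 1 ≤ |a| := Int.one_le_abs ha
  exact_mod_cast h1

theorem GG_scale (g : ℤ[X]) (a : ℤ) (ha : a ≠ 0) :
    GG (g.scaleRoots a) ≤ |(a : ℝ)| ^ g.natDegree * GG g := by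
  have h1 := one_le_abs ha
  unfold GG
  rw [natDegree_scaleRoots, Finset.mul_sum]
  refine Finset.sum_le_sum fun i _ => ?_
  rw [coeff_scaleRoots]
  push_cast
  rw [abs_mul, abs_pow, mul_comm]
  refine mul_le_mul_of_nonneg_right ?_ (abs_nonneg _)
  exact pow_le_pow_right₀ h1 (Nat.sub_le _ _)

theorem cst_scale (g : ℤ[X]) : ∃ C : ℝ, 0 ≤ C ∧ ∀ a : ℤ, a ≠ 0 → ∀ S : ℝ, 1 ≤ S →
    |(a : ℝ)| ≤ Real.exp S → cst (g.scaleRoots a) ≤ C * S := by
  have hG := GG_nonneg g
  obtain ⟨c0, hc0⟩ : ∃ c0 : ℝ, c0 = Real.log (1 + GG g) := ⟨_, rfl⟩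
  have hc00 : 0 ≤ c0 := by
    rw [hc0]
    exact Real.log_nonneg (by linarith)
  obtain ⟨d, hd⟩ : ∃ d : ℕ, d = g.natDegree := ⟨_, rfl⟩
  refine ⟨((d.factorial : ℝ) + 4 * d + 6) + (d + c0) * (2 + 2 * d + d * d), by positivity, ?_⟩
  intro a ha S hS haS
  have h1 := one_le_abs ha
  have h2 : Real.log (1 + GG (g.scaleRoots a)) ≤ (d + c0) * S := by
    have e1 : 1 + GG (g.scaleRoots a) ≤ |(a : ℝ)| ^ d * (1 + GG g) := by
      have e2 := GG_scale g a ha
      rw [← hd] at e2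
      have e3 : 1 ≤ |(a : ℝ)| ^ d := one_le_pow₀ h1
      nlinarith
    have e4 : 0 < 1 + GG (g.scaleRoots a) := by
      have := GG_nonneg (g.scaleRoots a)
      linarith
    have e5 := Real.log_le_log e4 e1
    rw [Real.log_mul (by positivity) (by positivity), Real.log_pow, ← hc0] at e5
    have e6 : Real.log |(a : ℝ)| ≤ S := by
      have := Real.log_le_log (by linarith) haS
      rwa [Real.log_exp] at this
    have e7 : (d : ℝ) * Real.log |(a : ℝ)| ≤ d * S :=
      mul_le_mul_of_nonneg_left e6 (Nat.cast_nonneg d)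
    nlinarith
  have h3 : 0 ≤ Real.log (1 + GG (g.scaleRoots a)) := by
    have := GG_nonneg (g.scaleRoots a)
    exact Real.log_nonneg (by linarith)
  unfold cst
  rw [natDegree_scaleRoots, ← hd]
  obtain ⟨y, hy⟩ : ∃ y : ℝ, y = Real.log (1 + GG (g.scaleRoots a)) := ⟨_, rfl⟩
  rw [← hy] at h2 h3 ⊢
  have h4 : y * (2 + 2 * d + d * d) ≤ (d + c0) * S * (2 + 2 * d + d * d) :=
    mul_le_mul_of_nonneg_right h2 (by positivity)
  have h5 : ((d.factorial : ℝ) + 4 * d + 6) * 1 ≤ ((d.factorial : ℝ) + 4 * d + 6) * S :=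
    mul_le_mul_of_nonneg_left hS (by positivity)
  nlinarith

theorem ann_scale (g : ℤ[X]) (a : ℤ) (W : ℕ → ℤ) (hW : Ann g W) :
    Ann (g.scaleRoots a) (fun n => a ^ n * W n) := by
  rw [ann_iff (N := g.natDegree + 1) (by rw [natDegree_scaleRoots]; exact Nat.lt_succ_self _)]
  intro n
  have h := (ann_iff (Nat.lt_succ_self _)).1 hW n
  have h2 : ∀ i ∈ range (g.natDegree + 1),
      (g.scaleRoots a).coeff i * (a ^ (n + i) * W (n + i)) =
        a ^ (g.natDegree + n) * (g.coeff i * W (n + i)) := by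
    intro i hi
    rw [Finset.mem_range] at hi
    rw [coeff_scaleRoots]
    have e : a ^ (g.natDegree + n) = a ^ (g.natDegree - i) * a ^ (n + i) := by
      rw [← pow_add]
      congr 1
      omega
    rw [e]
    ring
  rw [Finset.sum_congr rfl h2, ← Finset.mul_sum, h, mul_zero]

theorem exists_W (g : ℤ[X]) (hg : g.Monic) (a : ℤ) (Z : ℕ → ℤ)
    (hZ : Ann (g.scaleRoots a) Z) : ∃ W : ℕ → ℤ, Ann g W ∧
      (∀ j < g.natDegree, W j = a ^ (g.natDegree - j) * Z j) ∧
      ∀ n, a ^ g.natDegree * Z n = a ^ n * W n := by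
  classical
  set W : ℕ → ℤ := ∑ j ∈ range g.natDegree, (a ^ (g.natDegree - j) * Z j) • es g j with hW
  have hWann : Ann g W := Ann.sum _ fun j _ => (es_ann g hg j).smul _
  have hWj : ∀ j < g.natDegree, W j = a ^ (g.natDegree - j) * Z j := by
    intro j hj
    rw [hW, Finset.sum_apply, Finset.sum_eq_single j]
    · rw [Pi.smul_apply, es_ini g hg j j hj, if_pos rfl, smul_eq_mul, mul_one]
    · intro i _ hij
      rw [Pi.smul_apply, es_ini g hg i j hj, if_neg hij, smul_zero]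
    · intro h
      exact absurd (Finset.mem_range.2 hj) h
  refine ⟨W, hWann, hWj, fun n => ?_⟩
  have hmon : (g.scaleRoots a).Monic := (monic_scaleRoots_iff a).2 hg
  refine Ann.ext hmon (hZ.smul (a ^ g.natDegree)) (ann_scale g a W hWann) (fun m hm => ?_) n
  rw [natDegree_scaleRoots] at hm
  rw [Pi.smul_apply, smul_eq_mul, hWj m hm, ← mul_assoc, ← pow_add]
  congr 2
  omega

/-- the roots of the scaled polynomial -/
theorem root_lift' {K L : Type} [Field K] [Field L] [CharZero L] (φ : K →+* L) (g : ℤ[X])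
    (a : ℤ) (ha : a ≠ 0) {r : ℕ} (lam : Fin r → K) (mu : Fin g.natDegree → Fin r)
    (hmu : g.map (Int.castRingHom K) = ∏ t, (X - C (lam (mu t)))) (z : L)
    (hz : aeval z (g.scaleRoots a) = 0) : ∃ i, z = (a : L) * φ (lam i) := by
  have haL : (a : L) ≠ 0 := by exact_mod_cast ha
  have h1 : aeval ((a : L) * (z / a)) (g.scaleRoots a) = 0 := by
    rw [mul_div_cancel₀ _ haL]
    exact hz
  rw [aeval_def] at h1
  have h2 := scaleRoots_eval₂_mul (p := g) (algebraMap ℤ L) (z / a) a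
  have h3 : (algebraMap ℤ L) a = (a : L) := rfl
  rw [h3] at h2
  rw [h2] at h1
  have h4 : aeval (z / (a : L)) g = 0 := by
    rw [aeval_def]
    exact (mul_eq_zero.1 h1).resolve_left (pow_ne_zero _ haL)
  obtain ⟨i, hi⟩ := root_lift φ g lam mu hmu _ h4
  refine ⟨i, ?_⟩
  rw [← hi]
  field_simp

theorem bin_mul_right {F : Type} [Field F] (k : ℕ) (f : ℕ → F) (c : F) (n : ℕ) :
    bin k (fun s => f s * c) n = bin k f n * c := by
  unfold bin
  rw [Finset.sum_mul]
  refine Finset.sum_congr rfl fun s _ => ?_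
  ring

/-- the representation of the scaled sequence -/
theorem scale_rep {K : Type} [Field K] [CharZero K] (g : ℤ[X]) (a : ℤ) (ha : a ≠ 0) {r : ℕ}
    (lam : Fin r → K) (f : Fin r → ℕ → K) (Z W : ℕ → ℤ)
    (hZW : ∀ n, a ^ g.natDegree * Z n = a ^ n * W n)
    (hW : ∀ n, (W n : K) = ∑ i, bin g.natDegree (f i) n * lam i ^ n) (n : ℕ) :
    (Z n : K) = ∑ i, bin g.natDegree (fun s => f i s * ((a : K) ^ g.natDegree)⁻¹) n *
      ((a : K) * lam i) ^ n := by
  have haK : (a : K) ≠ 0 := by exact_mod_cast ha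
  have h1 : (a : K) ^ g.natDegree * (Z n : K) = (a : K) ^ n * (W n : K) := by
    have := congrArg (Int.cast : ℤ → K) (hZW n)
    push_cast at this
    exact this
  have h2 : (Z n : K) = ((a : K) ^ g.natDegree)⁻¹ * ((a : K) ^ n * (W n : K)) := by
    rw [← h1, ← mul_assoc, inv_mul_cancel₀ (pow_ne_zero _ haK), one_mul]
  rw [h2, hW, Finset.mul_sum, Finset.mul_sum]
  refine Finset.sum_congr rfl fun i _ => ?_
  rw [bin_mul_right, mul_pow]
  ring

end Pool.Agent.Helper60.SP
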