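import Mathlib
import Pool.Agent.Helper60.SP.Scale

set_option autoImplicit false

/-!
The zeros, the dominating root is complex.
-/

namespace Pool.Agent.Helper60.SP

open Finset NumberField IsDedekindDomain Polynomial
open Pool.Agent.H692R2.USS
open Pool.Agent.Y742.SF (PD fv exists_PD finite_primes)
open Pool.Agent.Helper259.AbsHt
open Pool.Agent.Y556.SK (bin)

theorem root_iff {L : Type} [Field L] (g : ℤ[X]) (z : L) :
    (g.map (Int.castRingHom L)).IsRoot z ↔ aeval z g = 0 := by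
  rw [IsRoot.def, eval_map, aeval_def]
  rfl

/-- the data: a cofactor, a sequence and a bound for their sizes -/
def Sit (g h : ℤ[X]) (u : ℕ → ℤ) (S : ℝ) : Prop :=
  h.Monic ∧ IsCoprime (g.map (Int.castRingHom ℚ)) (h.map (Int.castRingHom ℚ)) ∧
    Ann (g * h) u ∧ 1 ≤ S ∧ (h.natDegree : ℝ) ≤ S ∧
    (∀ i, |((g * h).coeff i : ℝ)| ≤ Real.exp S) ∧
    ∀ i < g.natDegree + h.natDegree, |(u i : ℝ)| ≤ Real.exp S

/-- `n` is large -/
def BC (g : ℤ[X]) (B S : ℝ) (n : ℕ) : Prop :=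
  B * S < Real.log n ∨ (Squarefree (g.map (Int.castRingHom ℚ)) ∧ B * S < n)

theorem BC.lt {g : ℤ[X]} {B S : ℝ} {n : ℕ} (h : BC g B S n) (hB : 0 ≤ B) (hS : 0 ≤ S) :
    B * S < n := by
  rcases h with h | h
  · rcases Nat.eq_zero_or_pos n with rfl | hn0
    · simp only [Nat.cast_zero, Real.log_zero] at h
      have := mul_nonneg hB hS
      linarith
    · have h2 := Real.log_le_sub_one_of_pos (show (0 : ℝ) < n by exact_mod_cast hn0)
      linarith
  · exact h.2

theorem BC.mono {g : ℤ[X]} {B B' S : ℝ} {n : ℕ} (h : BC g B S n) (hB : B' ≤ B) (hS : 0 ≤ S) :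
    BC g B' S n := by
  have h1 : B' * S ≤ B * S := mul_le_mul_of_nonneg_right hB hS
  rcases h with h | h
  · exact Or.inl (by linarith)
  · exact Or.inr ⟨h.1, by linarith [h.2]⟩

theorem BC.scale {g : ℤ[X]} {B C S : ℝ} {n : ℕ} (h : BC g (B * C) S n) : BC g B (C * S) n := by
  unfold BC at *
  rwa [← mul_assoc]

/-- the integer sequences in a situation -/
theorem setup (g : ℤ[X]) (hg : g.Monic) : ∃ C : ℝ, 0 ≤ C ∧ ∀ (a : ℤ) (h : ℤ[X]) (u : ℕ → ℤ)
    (S : ℝ), a ≠ 0 → |(a : ℝ)| ≤ Real.exp S → Sit (g.scaleRoots a) h u S →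
    ∃ (R : ℤ) (Z W X' : ℕ → ℤ), R ≠ 0 ∧ Ann h X' ∧ (∀ n, R * u n = Z n + X' n) ∧ Ann g W ∧
      (∀ n, a ^ g.natDegree * Z n = a ^ n * W n) ∧
      (∀ j < g.natDegree, |(W j : ℝ)| ≤ Real.exp (C * S ^ 2)) ∧
      (∀ i < h.natDegree, |(X' i : ℝ)| ≤ Real.exp (C * S ^ 2)) := by
  obtain ⟨C, hC0, hC⟩ := cst_scale g
  refine ⟨C + g.natDegree, by positivity, fun a h u S ha haS hS => ?_⟩
  obtain ⟨hh, hcop, hann, hS1, hk, hf, hui⟩ := hS
  obtain ⟨R, Z, X', hR, hZann, hXann, hsum, hZle, hXle⟩ :=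
    decomp (g.scaleRoots a) ((monic_scaleRoots_iff a).2 hg) h hh hcop u hann S hS1 hk hf hui
  obtain ⟨W, hW, hWj, hWn⟩ := exists_W g hg a Z hZann
  have h1 := hC a ha S hS1 haS
  have h2 : cst (g.scaleRoots a) * S ≤ C * S ^ 2 := by nlinarith
  have hd : (0 : ℝ) ≤ g.natDegree := Nat.cast_nonneg _
  have hSS : S ≤ S ^ 2 := by nlinarith
  refine ⟨R, Z, W, X', hR, hXann, hsum, hW, hWn, fun j hj => ?_, fun i hi => ?_⟩
  · rw [hWj j hj]
    push_cast
    rw [abs_mul, abs_pow]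
    have e1 : |(a : ℝ)| ^ (g.natDegree - j) ≤ Real.exp (g.natDegree * S ^ 2) := by
      calc |(a : ℝ)| ^ (g.natDegree - j) ≤ |(a : ℝ)| ^ g.natDegree :=
            pow_le_pow_right₀ (one_le_abs ha) (Nat.sub_le _ _)
        _ ≤ (Real.exp S) ^ g.natDegree := pow_le_pow_left₀ (abs_nonneg _) haS _
        _ = Real.exp (g.natDegree * S) := by rw [← Real.exp_nat_mul]
        _ ≤ Real.exp (g.natDegree * S ^ 2) :=
            Real.exp_le_exp.2 (mul_le_mul_of_nonneg_left hSS hd)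
    have e2 : |(Z j : ℝ)| ≤ Real.exp (C * S ^ 2) :=
      (hZle j (by rw [natDegree_scaleRoots]; exact hj)).trans (Real.exp_le_exp.2 h2)
    calc |(a : ℝ)| ^ (g.natDegree - j) * |(Z j : ℝ)| ≤
        Real.exp (g.natDegree * S ^ 2) * Real.exp (C * S ^ 2) :=
          mul_le_mul e1 e2 (abs_nonneg _) (Real.exp_pos _).le
      _ = Real.exp ((C + g.natDegree) * S ^ 2) := by
          rw [← Real.exp_add]
          congr 1
          ring
  · refine (hXle i hi).trans (Real.exp_le_exp.2 (h2.trans ?_))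
    nlinarith [mul_nonneg hd (sq_nonneg S)]

/-- the complex case -/
theorem thmA (g : ℤ[X]) (hg : g.Monic) (hg0 : g.coeff 0 ≠ 0)
    (hnd : ∀ z z' : ℂ, aeval z g = 0 → aeval z' g = 0 → z ≠ z' → ∀ k : ℕ, 1 ≤ k →
      z ^ k ≠ z' ^ k) (m : ℕ) (hm : 1 ≤ m) :
    ∃ B : ℝ, 0 ≤ B ∧ ∀ (a : ℤ) (h : ℤ[X]) (u : ℕ → ℤ) (S : ℝ), a ≠ 0 →
      |(a : ℝ)| ≤ Real.exp S → Sit (g.scaleRoots a) h u S →
      ∀ z : ℂ, (∀ q : ℂ[X], Ann q (fun n => (u n : ℂ)) → q.eval z = 0) →
      ((g.scaleRoots a).map (Int.castRingHom ℂ)).IsRoot z →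
      (∀ w : ℂ, (h.map (Int.castRingHom ℂ)).IsRoot w → ((m : ℝ) + 1) * ‖w‖ ≤ m * ‖z‖) →
      ∀ n, BC g B (S ^ 2) n → u n ≠ 0 := by
  classical
  set d := g.natDegree with hd
  have hd0 : (0 : ℝ) ≤ d := Nat.cast_nonneg _
  obtain ⟨K, iF, iN, iG, ι, r, lam, co, hi, hinj, hlam, ⟨mu, hmu⟩, hrep, ha, hsq⟩ :=
    exists_rep g hg hg0
  obtain ⟨D, hD⟩ := exists_PD hi {v | (((g.coeff 0).natAbs : ℕ) : 𝓞 K) ∈ v.asIdeal}
    (finite_primes _ (Int.natAbs_ne_zero.2 hg0))
  have hD' : ∀ v : HeightOneSpectrum (𝓞 K), ((g.coeff 0 : ℤ) : 𝓞 K) ∈ v.asIdeal →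
      ∃ w, v = D.P w := by
    intro v hv
    refine hD v ?_
    show (((g.coeff 0).natAbs : ℕ) : 𝓞 K) ∈ v.asIdeal
    rcases Int.natAbs_eq (g.coeff 0) with h | h
    · rw [h, Int.cast_natCast] at hv
      exact hv
    · rw [h, Int.cast_neg, Int.cast_natCast] at hv
      exact (Ideal.neg_mem_iff _).1 hv
  obtain ⟨C, hC0, hset⟩ := setup g hg
  have hm0 : (0 : ℝ) < m := by exact_mod_cast hm
  -- one root
  have hone : ∀ i : Fin r, ∃ B : ℝ, 0 ≤ B ∧ ∀ (a : ℤ) (h : ℤ[X]) (u : ℕ → ℤ) (S : ℝ), a ≠ 0 →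
      |(a : ℝ)| ≤ Real.exp S → Sit (g.scaleRoots a) h u S →
      (∀ q : ℂ[X], Ann q (fun n => (u n : ℂ)) → q.eval ((a : ℂ) * D.ψ (lam i)) = 0) →
      (∀ w : ℂ, (h.map (Int.castRingHom ℂ)).IsRoot w →
        ((m : ℝ) + 1) * ‖w‖ ≤ m * ‖(a : ℂ) * D.ψ (lam i)‖) →
      ∀ n, BC g B (S ^ 2) n → u n ≠ 0 := by
    intro i
    set Λ : ℝ := ‖D.ψ (lam i)‖ with hΛ
    have hΛ0 : 0 < Λ := norm_pos_iff.2 ((_root_.map_ne_zero _).2 (hlam i).1)
    set ε : ℝ := Real.log ((2 * m + 2) / (2 * m + 1)) / 2 with hε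
    have hε0 : 0 < ε := by
      have h1 : (1 : ℝ) < (2 * m + 2) / (2 * m + 1) := by
        rw [one_lt_div (by positivity)]
        linarith
      have := Real.log_pos h1
      rw [hε]
      positivity
    set κ : ℝ := (1 + Λ) * (1 + (2 * m + 2) / Λ) with hκ
    have hκ1 : 1 ≤ κ := by
      have : 0 ≤ (2 * m + 2) / Λ := by positivity
      rw [hκ]
      nlinarith only [this, hΛ0]
    have hlκ : 0 ≤ Real.log κ := Real.log_nonneg hκ1
    obtain ⟨B0, hB0, hZ⟩ := Zgrow g hg hnd D hD' ι lam hinj hlam co hrep ha hsq ε hε0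
    refine ⟨B0 * (C + 1) + (C + d + 1 + Real.log κ) / ε, by positivity, ?_⟩
    intro a h u S ha0 haS hS hchar hw n hn hun
    obtain ⟨R, Z, W, X', hR, hXann, hsum, hWann, hZW, hWle, hXle⟩ := hset a h u S ha0 haS hS
    obtain ⟨hh, hcop, hann, hS1, hk, hf, hui⟩ := hS
    have hS0 : 0 ≤ S := by linarith
    have hSS0 : 0 ≤ S ^ 2 := sq_nonneg S
    have hSS : S ≤ S ^ 2 := by nlinarith only [hS1]
    have ha1 := one_le_abs ha0
    have ha0' : 0 < |(a : ℝ)| := by linarith
    have haC : (a : ℂ) ≠ 0 := by exact_mod_cast ha0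
    have hnorma : ‖(a : ℂ)‖ = |(a : ℝ)| := Complex.norm_intCast a
    set ρ : ℝ := |(a : ℝ)| * Λ * (m / (m + 1)) with hρ
    set σ : ℝ := |(a : ℝ)| * Λ * ((2 * m + 1) / (2 * m + 2)) with hσ
    have hρ0 : 0 ≤ ρ := by positivity
    have hσ0 : 0 < σ := by positivity
    have hσρ : σ - ρ = |(a : ℝ)| * Λ / (2 * m + 2) := by
      rw [hσ, hρ]
      field_simp
      ring
    have hρσ : ρ < σ := by
      have : 0 < |(a : ℝ)| * Λ / (2 * m + 2) := by positivity
      linarith
    have hlogσ : Real.log σ = Real.log |(a : ℝ)| + Real.log Λ - 2 * ε := by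
      rw [hσ, Real.log_mul (by positivity) (by positivity), Real.log_mul (by positivity)
        (by positivity), hε]
      have e1 : ((2 * m + 1) / (2 * m + 2) : ℝ) = ((2 * m + 2) / (2 * m + 1) : ℝ)⁻¹ := by
        rw [inv_div]
      rw [e1, Real.log_inv]
      ring
    set c : ℝ := (1 + ρ) * (1 + 1 / (σ - ρ)) with hc
    have hc0 : 0 < c := by
      have h1 : 0 < σ - ρ := by linarith
      rw [hc]
      positivity
    have hcκ : c ≤ |(a : ℝ)| * κ := by
      have e1 : 1 + ρ ≤ |(a : ℝ)| * (1 + Λ) := by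
        have : (m : ℝ) / (m + 1) ≤ 1 := by
          rw [div_le_one (by positivity)]
          linarith
        have e2 : ρ ≤ |(a : ℝ)| * Λ := by
          rw [hρ]
          exact mul_le_of_le_one_right (by positivity) this
        linarith only [e2, ha1]
      have e3 : 1 + 1 / (σ - ρ) ≤ 1 + (2 * m + 2) / Λ := by
        rw [hσρ, one_div_div]
        have : (2 * (m : ℝ) + 2) / (|(a : ℝ)| * Λ) ≤ (2 * m + 2) / Λ := by
          refine div_le_div_of_nonneg_left (by positivity) hΛ0 ?_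
          nlinarith only [ha1, hΛ0]
        linarith
      have e4 : 0 ≤ 1 + 1 / (σ - ρ) := by
        have h1 : 0 < σ - ρ := by linarith
        positivity
      calc c ≤ (|(a : ℝ)| * (1 + Λ)) * (1 + (2 * m + 2) / Λ) := by
            rw [hc]
            exact mul_le_mul e1 e3 e4 (by positivity)
        _ = |(a : ℝ)| * κ := by
            rw [hκ]
            ring
    have hlogc : Real.log c ≤ (1 + Real.log κ) * S := by
      have e1 := Real.log_le_log hc0 hcκ
      have e0 : Real.log (|(a : ℝ)| * κ) = Real.log |(a : ℝ)| + Real.log κ :=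
        Real.log_mul (by positivity) (by positivity)
      rw [e0] at e1
      have e2 : Real.log |(a : ℝ)| ≤ S := by
        have := Real.log_le_log ha0' haS
        rwa [Real.log_exp] at this
      nlinarith only [e1, e2, hS1, hlκ]
    have hb1 : (C + d + 1 + Real.log κ) / ε * S ^ 2 < n := by
      have h1 := hn.lt (by positivity) hSS0
      have h2 : 0 ≤ B0 * (C + 1) * S ^ 2 := by positivity
      linarith [add_mul (B0 * (C + 1)) ((C + d + 1 + Real.log κ) / ε) (S ^ 2)]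
    have hb2 : BC g B0 ((C + 1) * S ^ 2) n := by
      refine BC.scale (hn.mono ?_ hSS0)
      have : 0 ≤ (C + d + 1 + Real.log κ) / ε := by positivity
      linarith
    -- the coefficient
    have hhz : aeval (D.ψ ((a : K) * lam i)) h ≠ 0 := by
      intro h0
      rw [map_mul, map_intCast] at h0
      have h1 := hw _ ((root_iff h _).2 h0)
      have h2 : 0 < ‖(a : ℂ) * D.ψ (lam i)‖ := by
        rw [norm_mul, hnorma, ← hΛ]
        positivity
      linarith only [h1, h2]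
    have hWrep := cf_sum g hg lam co hrep W hWann
    have haK : (a : K) ≠ 0 := by exact_mod_cast ha0
    obtain ⟨s, hs1, hs2⟩ := coef_ne D.ψ d (fun i => (a : K) * lam i)
      (fun i j hij => hinj (mul_left_cancel₀ haK hij))
      (fun i s => cf d co W i s * ((a : K) ^ d)⁻¹) h u Z X' R hR hsum
      (scale_rep g a ha0 lam (fun i => cf d co W i) Z W hZW hWrep) hXann i
      (by
        show ∀ q : ℂ[X], _ → q.eval (D.ψ ((a : K) * lam i)) = 0
        rw [map_mul, map_intCast]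
        exact hchar) hhz
    have hs3 : cf d co W i s ≠ 0 := left_ne_zero_of_mul hs2
    obtain ⟨hne, hlow⟩ := hZ W hWann ((C + 1) * S ^ 2)
      (by nlinarith only [hS1, hSS, mul_nonneg hC0 hSS0]) (fun j hj =>
      (hWle j hj).trans (Real.exp_le_exp.2 (by linarith only [hSS0]))) n hb2 i ⟨s, hs1, hs3⟩ (Sum.inl 1)
    have hav : ∀ x : K, D.av (Sum.inl 1) x = ‖D.ψ x‖ := fun x => rfl
    rw [hav, hav, ← hΛ, map_intCast, Complex.norm_intCast] at hlow
    have hZX : Z n = - X' n := by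
      have := hsum n
      rw [hun, mul_zero] at this
      linarith
    have hWne : W n ≠ 0 := by
      intro h0
      rw [h0, Int.cast_zero] at hne
      exact hne rfl
    have hXW : a ^ d * (- X' n) = a ^ n * W n := by
      rw [← hZX]
      exact hZW n
    have hXne : X' n ≠ 0 := by
      intro h0
      rw [h0, neg_zero, mul_zero] at hXW
      exact (mul_ne_zero (pow_ne_zero _ ha0) hWne) hXW.symm
    have hXa0 : 0 < |(X' n : ℝ)| := abs_pos.2 (by exact_mod_cast hXne)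
    have hWa0 : 0 < |(W n : ℝ)| := abs_pos.2 (by exact_mod_cast hWne)
    have hlogXW : d * Real.log |(a : ℝ)| + Real.log |(X' n : ℝ)| =
        n * Real.log |(a : ℝ)| + Real.log |(W n : ℝ)| := by
      have h1 : |(a : ℝ)| ^ d * |(X' n : ℝ)| = |(a : ℝ)| ^ n * |(W n : ℝ)| := by
        have h2 := congrArg (fun x : ℤ => |(x : ℝ)|) hXW
        push_cast at h2
        rw [abs_mul, abs_mul, abs_neg, abs_pow, abs_pow] at h2
        exact h2
      have h3 := congrArg Real.log h1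
      rw [Real.log_mul (by positivity) hXa0.ne', Real.log_mul (by positivity) hWa0.ne',
        Real.log_pow, Real.log_pow] at h3
      exact h3
    -- the upper bound
    obtain ⟨l, hl1, hl2, hl3⟩ := exists_list ℂ h hh
    have hXC : Ann ((l.map (fun w => Polynomial.X - Polynomial.C w)).prod)
        (fun n => ((X' n : ℤ) : ℂ)) := by
      rw [← hl2]
      exact hXann.map (Int.castRingHom ℂ)
    have hup := arch_bound ρ σ hρ0 hρσ l (fun w hw' => by
      have h1 := hw w ((root_iff h w).2 (hl3 w hw'))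
      rw [norm_mul, hnorma, ← hΛ] at h1
      rw [hρ, ← mul_div_assoc, le_div_iff₀ (by positivity)]
      linarith) (fun n => ((X' n : ℤ) : ℂ)) (Real.exp (C * S ^ 2)) (Real.exp_pos _).le
      (fun i hi' => by
        rw [hl1] at hi'
        have := hXle i hi'
        rw [Complex.norm_intCast]
        exact this) hXC n
    rw [← hc, hl1, Complex.norm_intCast] at hup
    have hup2 := Real.log_le_log hXa0 hup
    rw [Real.log_mul (by positivity) (by positivity), Real.log_mul (by positivity) (by positivity),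
      Real.log_exp, Real.log_pow, Real.log_pow, hlogσ] at hup2
    have h5 : (h.natDegree : ℝ) * Real.log c ≤ (1 + Real.log κ) * S ^ 2 := by
      calc (h.natDegree : ℝ) * Real.log c ≤ h.natDegree * ((1 + Real.log κ) * S) :=
            mul_le_mul_of_nonneg_left hlogc (Nat.cast_nonneg _)
        _ ≤ S * ((1 + Real.log κ) * S) := mul_le_mul_of_nonneg_right hk (by positivity)
        _ = (1 + Real.log κ) * S ^ 2 := by ring
    have h6 : (d : ℝ) * Real.log |(a : ℝ)| ≤ d * S ^ 2 := by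
      refine mul_le_mul_of_nonneg_left ?_ hd0
      have := Real.log_le_log ha0' haS
      rw [Real.log_exp] at this
      linarith
    have h7 : ε * n ≤ (C + d + 1 + Real.log κ) * S ^ 2 := by
      linarith only [hlow, hlogXW, hup2, h5, h6]
    rw [div_mul_eq_mul_div, div_lt_iff₀ hε0] at hb1
    linarith
  choose B hB0 hB using hone
  refine ⟨∑ i, B i, Finset.sum_nonneg fun i _ => hB0 i, ?_⟩
  intro a h u S ha0 haS hS z hchar hgz hw n hn
  obtain ⟨i, rfl⟩ := root_lift' D.ψ g a ha0 lam mu hmu z ((root_iff _ z).1 hgz)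
  refine hB i a h u S ha0 haS hS hchar hw n (hn.mono ?_ (sq_nonneg S))
  exact Finset.single_le_sum (f := B) (fun i _ => hB0 i) (Finset.mem_univ i)

end Pool.Agent.Helper60.SP
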