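import Mathlib
import Pool.Agent.Helper60.SP.MainA

set_option autoImplicit false

/-!
The zeros, the dominating root is `p`-adic.
-/

namespace Pool.Agent.Helper60.SP

open Finset NumberField IsDedekindDomain Polynomial
open Pool.Agent.H692R2.USS
open Pool.Agent.Y742.SF (PD fv exists_PD finite_primes)
open Pool.Agent.Helper259.AbsHt
open Pool.Agent.Y556.SK (bin)

/-- the upper bound for the part with the small roots -/
theorem xlow (p : ℕ) [Fact p.Prime] (m : ℕ) (hm : 1 ≤ m) (h : ℤ[X]) (hh : h.Monic)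
    (X' : ℕ → ℤ) (hX : Ann h X') (z : ℂ_[p]) (hz0 : z ≠ 0) (hz1 : ‖z‖ ≤ 1)
    (hw : ∀ w : ℂ_[p], (h.map (Int.castRingHom ℂ_[p])).IsRoot w →
      (p : ℝ) * ‖w‖ ^ m ≤ ‖z‖ ^ m) (n : ℕ) (hn : X' n ≠ 0) :
    Real.log ‖((X' n : ℤ) : ℂ_[p])‖ ≤
      ((n + 1 - h.natDegree : ℕ) : ℝ) * (Real.log ‖z‖ - Real.log p / m) := by
  have hm0 : (0 : ℝ) < m := by exact_mod_cast hm
  have hp1 : (1 : ℝ) < p := by exact_mod_cast (Fact.out : p.Prime).one_lt
  have hlp : 0 < Real.log p := Real.log_pos hp1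
  have hz : 0 < ‖z‖ := norm_pos_iff.2 hz0
  have hlz : Real.log ‖z‖ ≤ 0 := Real.log_nonpos hz.le hz1
  set ρ : ℝ := Real.exp (Real.log ‖z‖ - Real.log p / m) with hρ
  have hρ0 : 0 < ρ := Real.exp_pos _
  have hρ1 : ρ ≤ 1 := by
    rw [hρ, ← Real.exp_zero]
    refine Real.exp_le_exp.2 ?_
    have : 0 < Real.log p / m := by positivity
    linarith
  obtain ⟨l, hl1, hl2, hl3⟩ := exists_list ℂ_[p] h hh
  have hXC : Ann ((l.map (fun w => Polynomial.X - Polynomial.C w)).prod)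
      (fun n => ((X' n : ℤ) : ℂ_[p])) := by
    rw [← hl2]
    exact hX.map (Int.castRingHom ℂ_[p])
  have hup := ultra_bound ρ hρ0.le hρ1 l (fun w hw' => by
    rcases eq_or_ne w 0 with rfl | hw0
    · rw [norm_zero]
      exact hρ0.le
    · have h1 := hw w ((root_iff h w).2 (hl3 w hw'))
      have hwp : 0 < ‖w‖ := norm_pos_iff.2 hw0
      have h2 := Real.log_le_log (by positivity) h1
      rw [Real.log_mul (by linarith) (by positivity), Real.log_pow, Real.log_pow] at h2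
      rw [hρ, ← Real.log_le_iff_le_exp hwp, le_sub_iff_add_le]
      have h3 : m * (Real.log ‖w‖ + Real.log p / m) ≤ m * Real.log ‖z‖ := by
        have : (m : ℝ) * (Real.log ‖w‖ + Real.log p / m) = m * Real.log ‖w‖ + Real.log p := by
          field_simp
        rw [this]
        linarith
      exact le_of_mul_le_mul_left h3 hm0) (fun n => ((X' n : ℤ) : ℂ_[p]))
      (fun n => norm_int_le_one _) hXC n
  rw [hl1] at hup
  have hne : 0 < ‖((X' n : ℤ) : ℂ_[p])‖ := norm_pos_iff.2 (by exact_mod_cast hn)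
  have h1 := Real.log_le_log hne hup
  rw [Real.log_pow, hρ, Real.log_exp] at h1
  exact h1

theorem hz_ne (p : ℕ) [Fact p.Prime] (m : ℕ) (h : ℤ[X]) (z : ℂ_[p]) (hz0 : z ≠ 0)
    (hw : ∀ w : ℂ_[p], (h.map (Int.castRingHom ℂ_[p])).IsRoot w →
      (p : ℝ) * ‖w‖ ^ m ≤ ‖z‖ ^ m) : ¬ (h.map (Int.castRingHom ℂ_[p])).IsRoot z := by
  intro h0
  have h1 := hw z h0
  have hp1 : (1 : ℝ) < p := by exact_mod_cast (Fact.out : p.Prime).one_lt
  have hz : 0 < ‖z‖ ^ m := pow_pos (norm_pos_iff.2 hz0) _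
  nlinarith

/-- the two sides -/
theorem XW_log (p : ℕ) [Fact p.Prime] (a : ℤ) (ha : a ≠ 0) (d n : ℕ) (x w : ℤ) (hw : w ≠ 0)
    (h : a ^ d * (-x) = a ^ n * w) : x ≠ 0 ∧
      d * Real.log ‖(a : ℂ_[p])‖ + Real.log ‖(x : ℂ_[p])‖ =
        n * Real.log ‖(a : ℂ_[p])‖ + Real.log ‖(w : ℂ_[p])‖ := by
  have hx : x ≠ 0 := by
    rintro rfl
    rw [neg_zero, mul_zero] at h
    exact (mul_ne_zero (pow_ne_zero _ ha) hw) h.symm
  refine ⟨hx, ?_⟩
  have ha' : 0 < ‖(a : ℂ_[p])‖ := norm_pos_iff.2 (by exact_mod_cast ha)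
  have hx' : 0 < ‖(x : ℂ_[p])‖ := norm_pos_iff.2 (by exact_mod_cast hx)
  have hw' : 0 < ‖(w : ℂ_[p])‖ := norm_pos_iff.2 (by exact_mod_cast hw)
  have h1 : ‖(a : ℂ_[p])‖ ^ d * ‖(x : ℂ_[p])‖ = ‖(a : ℂ_[p])‖ ^ n * ‖(w : ℂ_[p])‖ := by
    have h2 := congrArg (fun y : ℤ => ‖(y : ℂ_[p])‖) h
    push_cast at h2
    rw [norm_mul, norm_mul, norm_neg, norm_pow, norm_pow] at h2
    exact h2
  have h3 := congrArg Real.log h1
  rw [Real.log_mul (by positivity) hx'.ne', Real.log_mul (by positivity) hw'.ne',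
    Real.log_pow, Real.log_pow] at h3
  exact h3

theorem norm_a (p : ℕ) [Fact p.Prime] (a : ℤ) (ha : a ≠ 0) (S : ℝ)
    (haS : |(a : ℝ)| ≤ Real.exp S) :
    Real.log ‖(a : ℂ_[p])‖ ≤ 0 ∧ -Real.log ‖(a : ℂ_[p])‖ ≤ S := by
  have ha' : 0 < ‖(a : ℂ_[p])‖ := norm_pos_iff.2 (by exact_mod_cast ha)
  have ha1 := one_le_abs ha
  refine ⟨Real.log_nonpos ha'.le (norm_int_le_one a), ?_⟩
  have h1 := Real.log_le_log one_pos (padic_int_lower p a ha)
  rw [Real.log_one, Real.log_mul ha'.ne' (by positivity)] at h1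
  have h2 := Real.log_le_log (by linarith) haS
  rw [Real.log_exp] at h2
  linarith

/-- the `p`-adic case -/
theorem thmP (g : ℤ[X]) (hg : g.Monic) (hg0 : g.coeff 0 ≠ 0)
    (hnd : ∀ z z' : ℂ, aeval z g = 0 → aeval z' g = 0 → z ≠ z' → ∀ k : ℕ, 1 ≤ k →
      z ^ k ≠ z' ^ k) (m : ℕ) (hm : 1 ≤ m) :
    ∃ B : ℝ, 0 ≤ B ∧ ∀ (a : ℤ) (h : ℤ[X]) (u : ℕ → ℤ) (S : ℝ), a ≠ 0 →
      |(a : ℝ)| ≤ Real.exp S → Sit (g.scaleRoots a) h u S →
      ∀ (p : ℕ) (_ : Fact p.Prime) (z : ℂ_[p]),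
      (∀ q : ℂ_[p][X], Ann q (fun n => (u n : ℂ_[p])) → q.eval z = 0) →
      ((g.scaleRoots a).map (Int.castRingHom ℂ_[p])).IsRoot z →
      (∀ w : ℂ_[p], (h.map (Int.castRingHom ℂ_[p])).IsRoot w →
        (p : ℝ) * ‖w‖ ^ m ≤ ‖z‖ ^ m) →
      ∀ n, BC g B (S ^ 2) n → u n ≠ 0 := by
  classical
  set d := g.natDegree with hd
  have hd0 : (0 : ℝ) ≤ d := Nat.cast_nonneg _
  obtain ⟨K, iF, iN, iG, ι, r, lam, co, hi, hinj, hlam, ⟨mu, hmu⟩, hrep, ha, hsq⟩ :=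
    exists_rep g hg hg0
  obtain ⟨C, hC0, hset⟩ := setup g hg
  have hm0 : (0 : ℝ) < m := by exact_mod_cast hm
  set c0 : ℝ := Real.log (1 + GG g) with hc0
  have hG := GG_nonneg g
  have hc00 : 0 ≤ c0 := Real.log_nonneg (by linarith)
  set P0 : ℕ := ⌈Real.exp (2 * m * (c0 + 1))⌉₊ with hP0
  set N : ℕ := (g.coeff 0).natAbs * P0.factorial with hN
  have hN0 : N ≠ 0 := mul_ne_zero (Int.natAbs_ne_zero.2 hg0) (Nat.factorial_ne_zero _)
  obtain ⟨D, hD⟩ := exists_PD hi {v | ((N : ℕ) : 𝓞 K) ∈ v.asIdeal} (finite_primes _ hN0)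
  have hD1 : ∀ v : HeightOneSpectrum (𝓞 K), ((g.coeff 0 : ℤ) : 𝓞 K) ∈ v.asIdeal →
      ∃ w, v = D.P w := by
    intro v hv
    refine hD v ?_
    show ((N : ℕ) : 𝓞 K) ∈ v.asIdeal
    rw [hN, Nat.cast_mul]
    refine Ideal.mul_mem_right _ _ ?_
    rcases Int.natAbs_eq (g.coeff 0) with h | h
    · rw [h, Int.cast_natCast] at hv
      exact hv
    · rw [h, Int.cast_neg, Int.cast_natCast] at hv
      exact (Ideal.neg_mem_iff _).1 hv
  have hD2 : ∀ (v : HeightOneSpectrum (𝓞 K)) (p : ℕ), 1 ≤ p → p ≤ P0 →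
      ((p : ℕ) : 𝓞 K) ∈ v.asIdeal → ∃ w, v = D.P w := by
    intro v p hp1 hp hv
    refine hD v ?_
    show ((N : ℕ) : 𝓞 K) ∈ v.asIdeal
    obtain ⟨e, he⟩ := Nat.dvd_factorial hp1 hp
    rw [hN, he]
    push_cast
    rw [← mul_assoc, mul_comm (((g.coeff 0).natAbs : ℕ) : 𝓞 K), mul_assoc]
    exact Ideal.mul_mem_right _ _ hv
  -- the norms of the roots
  have hlam1 : ∀ (p : ℕ) [Fact p.Prime] (φ : K →+* ℂ_[p]) (i : Fin r), φ (lam i) ≠ 0 ∧
      Real.log ‖φ (lam i)‖ ≤ 0 := by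
    intro p _ φ i
    have hgz' : (g.map (Int.castRingHom ℂ_[p])).IsRoot (φ (lam i)) := by
      have h3 := congrArg φ (hlam i).2
      rw [map_zero] at h3
      rw [IsRoot.def, eval_map, ← h3, aeval_def, hom_eval₂]
      congr 1
      exact Subsingleton.elim _ _
    exact ⟨(_root_.map_ne_zero _).2 (hlam i).1,
      Real.log_nonpos (norm_nonneg _) (norm_root_le_one g hg _ ((root_iff g _).1 hgz'))⟩
  -- the coefficients do not vanish
  have hcoef : ∀ (p : ℕ) [Fact p.Prime] (φ : K →+* ℂ_[p]) (i : Fin r) (a : ℤ) (h : ℤ[X])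
      (u Z W X' : ℕ → ℤ) (R : ℤ), a ≠ 0 → R ≠ 0 → Ann h X' → (∀ n, R * u n = Z n + X' n) →
      Ann g W → (∀ n, a ^ d * Z n = a ^ n * W n) →
      (∀ q : ℂ_[p][X], Ann q (fun n => (u n : ℂ_[p])) → q.eval ((a : ℂ_[p]) * φ (lam i)) = 0) →
      (∀ w : ℂ_[p], (h.map (Int.castRingHom ℂ_[p])).IsRoot w →
        (p : ℝ) * ‖w‖ ^ m ≤ ‖(a : ℂ_[p]) * φ (lam i)‖ ^ m) →
      ∃ s < g.natDegree, cf g.natDegree co W i s ≠ 0 := by
    intro p _ φ i a h u Z W X' R ha0 hR hXann hsum hWann hZW hchar hw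
    have haK : (a : K) ≠ 0 := by exact_mod_cast ha0
    have haL : (a : ℂ_[p]) ≠ 0 := by exact_mod_cast ha0
    have hhz := hz_ne p m h _ (mul_ne_zero haL (hlam1 p φ i).1) hw
    have hWrep := cf_sum g hg lam co hrep W hWann
    obtain ⟨s, hs1, hs2⟩ := coef_ne φ d (fun i => (a : K) * lam i)
      (fun i j hij => hinj (mul_left_cancel₀ haK hij))
      (fun i s => cf d co W i s * ((a : K) ^ d)⁻¹) h u Z X' R hR hsum
      (scale_rep g a ha0 lam (fun i => cf d co W i) Z W hZW hWrep) hXann i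
      (by
        show ∀ q : ℂ_[p][X], _ → q.eval (φ ((a : K) * lam i)) = 0
        rw [map_mul, map_intCast]
        exact hchar) (by
        rw [Ne, ← root_iff, map_mul, map_intCast]
        exact hhz)
    exact ⟨s, hs1, left_ne_zero_of_mul hs2⟩
  -- large primes
  obtain ⟨Bl, hBl0, hZl⟩ := Zgrow g hg hnd D hD1 ι lam hinj hlam co hrep ha hsq 1 one_pos
  have hlarge : ∃ B : ℝ, 0 ≤ B ∧ ∀ (a : ℤ) (h : ℤ[X]) (u : ℕ → ℤ) (S : ℝ), a ≠ 0 →
      |(a : ℝ)| ≤ Real.exp S → Sit (g.scaleRoots a) h u S →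
      ∀ (p : ℕ) (_ : Fact p.Prime), P0 < p → ∀ z : ℂ_[p],
      (∀ q : ℂ_[p][X], Ann q (fun n => (u n : ℂ_[p])) → q.eval z = 0) →
      ((g.scaleRoots a).map (Int.castRingHom ℂ_[p])).IsRoot z →
      (∀ w : ℂ_[p], (h.map (Int.castRingHom ℂ_[p])).IsRoot w →
        (p : ℝ) * ‖w‖ ^ m ≤ ‖z‖ ^ m) →
      ∀ n, BC g B (S ^ 2) n → u n ≠ 0 := by
    refine ⟨Bl * (C + 1) + (C + 1 + 2 * (c0 + 1)), by positivity, ?_⟩
    intro a h u S ha0 haS hS p hp hpP z hchar hgz hw n hn hun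
    obtain ⟨R, Z, W, X', hR, hXann, hsum, hWann, hZW, hWle, hXle⟩ := hset a h u S ha0 haS hS
    obtain ⟨hh, hcop, hann, hS1, hk, hf, hui⟩ := hS
    have hS0 : 0 ≤ S := by linarith
    have hSS0 : 0 ≤ S ^ 2 := sq_nonneg S
    have hSS : S ≤ S ^ 2 := by nlinarith only [hS1]
    obtain ⟨φ⟩ := exists_emb K ℂ_[p]
    obtain ⟨i, hi'⟩ := root_lift' φ g a ha0 lam mu hmu z ((root_iff _ z).1 hgz)
    have haL : (a : ℂ_[p]) ≠ 0 := by exact_mod_cast ha0
    obtain ⟨hl0, hl1⟩ := hlam1 p φ i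
    have hz0 : z ≠ 0 := by
      rw [hi']
      exact mul_ne_zero haL hl0
    have hmonA : (g.scaleRoots a).Monic := (monic_scaleRoots_iff a).2 hg
    have hz1 : ‖z‖ ≤ 1 := norm_root_le_one _ hmonA z ((root_iff _ z).1 hgz)
    have hb1 : (C + 1 + 2 * (c0 + 1)) * S ^ 2 < n := by
      have h1 := hn.lt (by positivity) hSS0
      have h2 : 0 ≤ Bl * (C + 1) * S ^ 2 := by positivity
      linarith [add_mul (Bl * (C + 1)) (C + 1 + 2 * (c0 + 1)) (S ^ 2)]
    have hb2 : BC g Bl ((C + 1) * S ^ 2) n := by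
      refine BC.scale (hn.mono ?_ hSS0)
      linarith
    obtain ⟨s, hs1, hs3⟩ := hcoef p φ i a h u Z W X' R ha0 hR hXann hsum hWann hZW
      (by rw [← hi']; exact hchar) (by rw [← hi']; exact hw)
    obtain ⟨hne, -⟩ := hZl W hWann ((C + 1) * S ^ 2)
      (by nlinarith only [hS1, hSS, mul_nonneg hC0 hSS0]) (fun j hj =>
      (hWle j hj).trans (Real.exp_le_exp.2 (by linarith only [hSS0]))) n hb2 i ⟨s, hs1, hs3⟩ (Sum.inl 1)
    have hZX : Z n = - X' n := by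
      have := hsum n
      rw [hun, mul_zero] at this
      linarith
    have hWne : W n ≠ 0 := by
      intro h0
      rw [h0, Int.cast_zero] at hne
      exact hne rfl
    have hXW : a ^ d * (- X' n) = a ^ n * W n := by
      rw [← hZX]
      exact hZW n
    obtain ⟨hXne, hlogXW⟩ := XW_log p a ha0 d n (X' n) (W n) hWne hXW
    have hup := xlow p m hm h hh X' hXann z hz0 hz1 hw n hXne
    have hlow := padic_int_lower p (W n) hWne
    have hgr := growth g hg W hWann (Real.exp (C * S ^ 2)) hWle (Real.exp_pos _).le n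
    have hWn0 : 0 < ‖((W n : ℤ) : ℂ_[p])‖ := norm_pos_iff.2 (by exact_mod_cast hWne)
    have hWa0 : 0 < |(W n : ℝ)| := abs_pos.2 (by exact_mod_cast hWne)
    have h1 := Real.log_le_log one_pos hlow
    rw [Real.log_one, Real.log_mul hWn0.ne' hWa0.ne'] at h1
    have h2 := Real.log_le_log hWa0 hgr
    rw [Real.log_mul (by positivity) (by positivity), Real.log_exp, Real.log_pow, ← hc0] at h2
    obtain ⟨hna1, hna2⟩ := norm_a p a ha0 S haS
    have hlz : Real.log ‖z‖ = Real.log ‖(a : ℂ_[p])‖ + Real.log ‖φ (lam i)‖ := by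
      rw [hi', norm_mul, Real.log_mul (norm_ne_zero_iff.2 haL) (norm_ne_zero_iff.2 hl0)]
    have hlp : 2 * (c0 + 1) ≤ Real.log p / m := by
      rw [le_div_iff₀ hm0]
      have e1 : Real.exp (2 * m * (c0 + 1)) ≤ p := by
        refine (Nat.le_ceil _).trans ?_
        have e0 : (P0 : ℝ) ≤ p := by exact_mod_cast hpP.le
        exact e0
      have e2 := Real.log_le_log (Real.exp_pos _) e1
      rw [Real.log_exp] at e2
      linarith
    obtain ⟨t, ht⟩ : ∃ t : ℝ, t = ((n + 1 - h.natDegree : ℕ) : ℝ) := ⟨_, rfl⟩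
    have ht0 : 0 ≤ t := by rw [ht]; exact Nat.cast_nonneg _
    have ht1 : (n : ℝ) - h.natDegree ≤ t := by
      rw [ht, sub_le_iff_le_add]
      exact_mod_cast (by omega : n ≤ n + 1 - h.natDegree + h.natDegree)
    obtain ⟨α, hα⟩ : ∃ α : ℝ, α = -Real.log ‖(a : ℂ_[p])‖ := ⟨_, rfl⟩
    have hα0 : 0 ≤ α := by linarith
    have hαS : α ≤ S := by linarith
    rw [← ht, hlz] at hup
    have h3 : t * (Real.log ‖(a : ℂ_[p])‖ + Real.log ‖φ (lam i)‖ - Real.log p / m) ≤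
        -(t * (α + 2 * (c0 + 1))) := by
      have e1 : Real.log ‖(a : ℂ_[p])‖ + Real.log ‖φ (lam i)‖ - Real.log p / m ≤
          -(α + 2 * (c0 + 1)) := by linarith
      have e2 := mul_le_mul_of_nonneg_left e1 ht0
      linarith
    have h4 : ((n : ℝ) - h.natDegree) * (α + 2 * (c0 + 1)) ≤ t * (α + 2 * (c0 + 1)) :=
      mul_le_mul_of_nonneg_right ht1 (by linarith)
    have h5 : (h.natDegree : ℝ) * (α + 2 * (c0 + 1)) ≤ S ^ 2 + S ^ 2 * (2 * (c0 + 1)) := by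
      have e1 : (h.natDegree : ℝ) * α ≤ S * S := mul_le_mul hk hαS hα0 hS0
      have e2 : (h.natDegree : ℝ) * (2 * (c0 + 1)) ≤ S ^ 2 * (2 * (c0 + 1)) :=
        mul_le_mul_of_nonneg_right (by linarith) (by linarith)
      linarith
    have h6 : Real.log ‖((X' n : ℤ) : ℂ_[p])‖ ≥ -(n * α) - (C * S ^ 2 + n * c0) := by
      have e1 : (d : ℝ) * Real.log ‖(a : ℂ_[p])‖ ≤ 0 :=
        mul_nonpos_of_nonneg_of_nonpos hd0 hna1
      have e2 : (n : ℝ) * Real.log ‖(a : ℂ_[p])‖ = -(n * α) := by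
        rw [hα]
        ring
      linarith
    have h8 : (n : ℝ) * (c0 + 2) ≤ (C + 1 + 2 * (c0 + 1)) * S ^ 2 := by linarith
    have h7 : (n : ℝ) * 1 ≤ n * (c0 + 2) :=
      mul_le_mul_of_nonneg_left (by linarith) (Nat.cast_nonneg n)
    linarith
  -- small primes
  have hsmall : ∀ p : ℕ, ∃ B : ℝ, 0 ≤ B ∧ ∀ (_ : Fact p.Prime), p ≤ P0 →
      ∀ (a : ℤ) (h : ℤ[X]) (u : ℕ → ℤ) (S : ℝ), a ≠ 0 →
      |(a : ℝ)| ≤ Real.exp S → Sit (g.scaleRoots a) h u S → ∀ z : ℂ_[p],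
      (∀ q : ℂ_[p][X], Ann q (fun n => (u n : ℂ_[p])) → q.eval z = 0) →
      ((g.scaleRoots a).map (Int.castRingHom ℂ_[p])).IsRoot z →
      (∀ w : ℂ_[p], (h.map (Int.castRingHom ℂ_[p])).IsRoot w →
        (p : ℝ) * ‖w‖ ^ m ≤ ‖z‖ ^ m) →
      ∀ n, BC g B (S ^ 2) n → u n ≠ 0 := by
    intro p
    by_cases hpp : p.Prime ∧ p ≤ P0
    swap
    · exact ⟨0, le_rfl, fun hp hpP => absurd ⟨hp.out, hpP⟩ hpp⟩
    have : Fact p.Prime := ⟨hpp.1⟩
    obtain ⟨φ⟩ := exists_emb K ℂ_[p]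
    obtain ⟨P, hPp, cp, hcp0, hφ⟩ := place_of φ p hpp.1.ne_zero (norm_p_lt_one p)
    obtain ⟨w, rfl⟩ := hD2 P p hpp.1.one_lt.le hpp.2 hPp
    have hav : ∀ x : K, ‖φ x‖ = D.av (Sum.inr w) x ^ cp := hφ
    set ε : ℝ := Real.log 2 / (2 * m) with hε
    have hl2 : 0 < Real.log 2 := Real.log_pos (by norm_num)
    have hε0 : 0 < ε := by positivity
    have h2ε : 2 * ε ≤ Real.log p / m := by
      have e1 : (2 : ℝ) ≤ p := by exact_mod_cast hpp.1.two_le
      have e2 := Real.log_le_log (by norm_num) e1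
      have e3 : 2 * ε = Real.log 2 / m := by
        rw [hε]
        field_simp
      rw [e3]
      exact div_le_div_of_nonneg_right e2 hm0.le
    obtain ⟨B0, hB0, hZ⟩ := Zgrow g hg hnd D hD1 ι lam hinj hlam co hrep ha hsq (ε / cp)
      (by positivity)
    have hone : ∀ i : Fin r, ∃ B : ℝ, 0 ≤ B ∧ ∀ (a : ℤ) (h : ℤ[X]) (u : ℕ → ℤ) (S : ℝ), a ≠ 0 →
        |(a : ℝ)| ≤ Real.exp S → Sit (g.scaleRoots a) h u S →
        (∀ q : ℂ_[p][X], Ann q (fun n => (u n : ℂ_[p])) →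
          q.eval ((a : ℂ_[p]) * φ (lam i)) = 0) →
        (∀ w : ℂ_[p], (h.map (Int.castRingHom ℂ_[p])).IsRoot w →
          (p : ℝ) * ‖w‖ ^ m ≤ ‖(a : ℂ_[p]) * φ (lam i)‖ ^ m) →
        ∀ n, BC g B (S ^ 2) n → u n ≠ 0 := by
      intro i
      obtain ⟨hl0, hl1⟩ := hlam1 p φ i
      obtain ⟨β, hβ⟩ : ∃ β : ℝ, β = -Real.log ‖φ (lam i)‖ := ⟨_, rfl⟩
      have hβ0 : 0 ≤ β := by linarith
      refine ⟨B0 * (C + 1) + (1 + β + 2 * ε) / ε, by positivity, ?_⟩
      intro a h u S ha0 haS hS hchar hw n hn hun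
      obtain ⟨R, Z, W, X', hR, hXann, hsum, hWann, hZW, hWle, hXle⟩ := hset a h u S ha0 haS hS
      obtain ⟨hh, hcop, hann, hS1, hk, hf, hui⟩ := hS
      have hS0 : 0 ≤ S := by linarith
      have hSS0 : 0 ≤ S ^ 2 := sq_nonneg S
      have hSS : S ≤ S ^ 2 := by nlinarith only [hS1]
      have haL : (a : ℂ_[p]) ≠ 0 := by exact_mod_cast ha0
      have hz0 : (a : ℂ_[p]) * φ (lam i) ≠ 0 := mul_ne_zero haL hl0
      have hz1 : ‖(a : ℂ_[p]) * φ (lam i)‖ ≤ 1 := by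
        rw [norm_mul]
        refine mul_le_one₀ (norm_int_le_one a) (norm_nonneg _) ?_
        by_contra hcon
        have := Real.log_pos (not_le.1 hcon)
        linarith
      have hb1 : (1 + β + 2 * ε) / ε * S ^ 2 < n := by
        have h1 := hn.lt (by positivity) hSS0
        have h2 : 0 ≤ B0 * (C + 1) * S ^ 2 := by positivity
        linarith [add_mul (B0 * (C + 1)) ((1 + β + 2 * ε) / ε) (S ^ 2)]
      have hb2 : BC g B0 ((C + 1) * S ^ 2) n := by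
        refine BC.scale (hn.mono ?_ hSS0)
        have : 0 ≤ (1 + β + 2 * ε) / ε := by positivity
        linarith
      obtain ⟨s, hs1, hs3⟩ := hcoef p φ i a h u Z W X' R ha0 hR hXann hsum hWann hZW hchar hw
      obtain ⟨hne, hlow⟩ := hZ W hWann ((C + 1) * S ^ 2)
        (by nlinarith only [hS1, hSS, mul_nonneg hC0 hSS0]) (fun j hj =>
        (hWle j hj).trans (Real.exp_le_exp.2 (by linarith only [hSS0]))) n hb2 i ⟨s, hs1, hs3⟩ (Sum.inr w)
      have hZX : Z n = - X' n := by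
        have := hsum n
        rw [hun, mul_zero] at this
        linarith
      have hWne : W n ≠ 0 := by
        intro h0
        rw [h0, Int.cast_zero] at hne
        exact hne rfl
      have hXW : a ^ d * (- X' n) = a ^ n * W n := by
        rw [← hZX]
        exact hZW n
      obtain ⟨hXne, hlogXW⟩ := XW_log p a ha0 d n (X' n) (W n) hWne hXW
      have hup := xlow p m hm h hh X' hXann _ hz0 hz1 hw n hXne
      -- the lower bound
      have hWnorm : Real.log ‖((W n : ℤ) : ℂ_[p])‖ =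
          cp * Real.log (D.av (Sum.inr w) (W n : K)) := by
        have e1 : ‖((W n : ℤ) : ℂ_[p])‖ = ‖φ ((W n : ℤ) : K)‖ := by
          rw [map_intCast]
        rw [e1, hav, Real.log_rpow (D.av_pos _ _ hne)]
      have hlamnorm : Real.log ‖φ (lam i)‖ = cp * Real.log (D.av (Sum.inr w) (lam i)) := by
        rw [hav, Real.log_rpow (D.av_pos _ _ (hlam i).1)]
      have h1 : (n : ℝ) * Real.log ‖φ (lam i)‖ - ε * n ≤ Real.log ‖((W n : ℤ) : ℂ_[p])‖ := by
        rw [hWnorm, hlamnorm]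
        have e2 := mul_le_mul_of_nonneg_left hlow hcp0.le
        have e3 : cp * ((n : ℝ) * Real.log (D.av (Sum.inr w) (lam i)) - ε / cp * n) =
            n * (cp * Real.log (D.av (Sum.inr w) (lam i))) - ε * n := by
          field_simp
        rw [e3] at e2
        exact e2
      obtain ⟨t, ht⟩ : ∃ t : ℝ, t = ((n + 1 - h.natDegree : ℕ) : ℝ) := ⟨_, rfl⟩
      have ht0 : 0 ≤ t := by rw [ht]; exact Nat.cast_nonneg _
      have ht1 : (n : ℝ) - h.natDegree ≤ t := by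
        rw [ht, sub_le_iff_le_add]
        exact_mod_cast (by omega : n ≤ n + 1 - h.natDegree + h.natDegree)
      obtain ⟨hna1, hna2⟩ := norm_a p a ha0 S haS
      obtain ⟨α, hα⟩ : ∃ α : ℝ, α = -Real.log ‖(a : ℂ_[p])‖ := ⟨_, rfl⟩
      have hα0 : 0 ≤ α := by linarith
      have hαS : α ≤ S := by linarith
      rw [← ht, norm_mul, Real.log_mul (norm_ne_zero_iff.2 haL) (norm_ne_zero_iff.2 hl0)] at hup
      have h3 : t * (Real.log ‖(a : ℂ_[p])‖ + Real.log ‖φ (lam i)‖ - Real.log p / m) ≤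
          -(t * (α + β + 2 * ε)) := by
        have e1 : Real.log ‖(a : ℂ_[p])‖ + Real.log ‖φ (lam i)‖ - Real.log p / m ≤
            -(α + β + 2 * ε) := by linarith
        have e2 := mul_le_mul_of_nonneg_left e1 ht0
        linarith
      have h4 : ((n : ℝ) - h.natDegree) * (α + β + 2 * ε) ≤ t * (α + β + 2 * ε) :=
        mul_le_mul_of_nonneg_right ht1 (by linarith)
      have h5 : (h.natDegree : ℝ) * (α + β + 2 * ε) ≤ (1 + β + 2 * ε) * S ^ 2 := by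
        have e1 : (h.natDegree : ℝ) * α ≤ S * S := mul_le_mul hk hαS hα0 hS0
        have e2 : (h.natDegree : ℝ) * (β + 2 * ε) ≤ S ^ 2 * (β + 2 * ε) :=
          mul_le_mul_of_nonneg_right (by linarith) (by linarith)
        linarith
      have h6 : Real.log ‖((X' n : ℤ) : ℂ_[p])‖ ≥ -(n * α) - n * β - ε * n := by
        have e1 : (d : ℝ) * Real.log ‖(a : ℂ_[p])‖ ≤ 0 :=
          mul_nonpos_of_nonneg_of_nonpos hd0 hna1
        have e2 : (n : ℝ) * Real.log ‖(a : ℂ_[p])‖ = -(n * α) := by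
          rw [hα]
          ring
        have e3 : (n : ℝ) * Real.log ‖φ (lam i)‖ = -(n * β) := by
          rw [hβ]
          ring
        linarith
      have h7 : ε * n ≤ (1 + β + 2 * ε) * S ^ 2 := by linarith
      rw [div_mul_eq_mul_div, div_lt_iff₀ hε0] at hb1
      linarith
    choose B hB0' hB using hone
    refine ⟨∑ i, B i, Finset.sum_nonneg fun i _ => hB0' i, ?_⟩
    intro _ _ a h u S ha0 haS hS z hchar hgz hw n hn
    obtain ⟨i, rfl⟩ := root_lift' φ g a ha0 lam mu hmu z ((root_iff _ z).1 hgz)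
    refine hB i a h u S ha0 haS hS hchar hw n (hn.mono ?_ (sq_nonneg S))
    exact Finset.single_le_sum (f := B) (fun i _ => hB0' i) (Finset.mem_univ i)
  obtain ⟨B1, hB10, hB1⟩ := hlarge
  choose B2 hB20 hB2 using hsmall
  refine ⟨B1 + ∑ p ∈ Finset.range (P0 + 1), B2 p,
    add_nonneg hB10 (Finset.sum_nonneg fun p _ => hB20 p), ?_⟩
  intro a h u S ha0 haS hS p hp z hchar hgz hw n hn
  by_cases hpP : p ≤ P0
  · refine hB2 p hp hpP a h u S ha0 haS hS z hchar hgz hw n (hn.mono ?_ (sq_nonneg S))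
    have := Finset.single_le_sum (f := B2) (fun p _ => hB20 p)
      (Finset.mem_range.2 (Nat.lt_succ_of_le hpP))
    linarith
  · refine hB1 a h u S ha0 haS hS p hp (not_le.1 hpP) z hchar hgz hw n
      (hn.mono ?_ (sq_nonneg S))
    have : 0 ≤ ∑ p ∈ Finset.range (P0 + 1), B2 p := Finset.sum_nonneg fun p _ => hB20 p
    linarith

end Pool.Agent.Helper60.SP
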