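import Mathlib
import Pool.Graph.R_pool_sql_team_seeded_ab47071d.TH717.ST.MainM
import Pool.Graph.R_seed8.TH717.ST.Sgn
import Pool.Agent.Helper60.SP.MainP

set_option autoImplicit false

/-!
Twists of fixed recurrences, characteristic roots, comparison of roots.
-/

namespace Pool.Agent.Helper60.SP

open Finset Polynomial
open Pool.Agent.H692R2.USS

/-- an isolated zero -/
def Iso (u : ℕ → ℤ) (n : ℕ) : Prop := u n = 0 ∧ ∀ b, 0 < b → ∃ l, u (n + b * l) ≠ 0

/-- the isolated zeros of the twists of the sequences with one fixed recurrence -/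
theorem fixedT (F : ℤ[X]) (hF : F.Monic) (hd : 1 ≤ F.natDegree) (h0 : F.coeff 0 ≠ 0) :
    ∃ B : ℝ, 0 ≤ B ∧ ∀ (s : ℤ) (u : ℕ → ℤ) (S : ℝ), s ≠ 0 → 1 ≤ S → |(s : ℝ)| ≤ Real.exp S →
      Ann (F.scaleRoots s) u → (∀ i < F.natDegree, |(u i : ℝ)| ≤ Real.exp S) →
      ∀ n, Iso u n → Real.log n ≤ B * S ∧
        (Squarefree (F.map (Int.castRingHom ℚ)) → (n : ℝ) ≤ B * S) := by
  obtain ⟨L, hL, B1, hB1, h1⟩ := Pool.Agent.TH717.ST.zerosM F hF hd h0
  have hsq : ∃ (L : ℕ) (B : ℝ), 1 ≤ L ∧ 0 < B ∧ (Squarefree (F.map (Int.castRingHom ℚ)) →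
      ∀ u : ℕ → ℤ, Ann F u → ∀ A : ℝ, 1 ≤ A → (∀ k < F.natDegree, |(u k : ℝ)| ≤ A) →
      ∀ n : ℕ, B * (1 + Real.log A) < n → (∀ m, u (n + L * m) = 0) ∨ u n ≠ 0) := by
    by_cases hs : Squarefree (F.map (Int.castRingHom ℚ))
    · obtain ⟨L, hL, B, hB, h⟩ := Pool.Agent.TH717.ST.signs0 F hF hd hs
      refine ⟨L, B, hL, hB, fun _ u hu A hA hk n hn => ?_⟩
      rcases h u hu A hA hk n hn with h2 | h2
      · exact Or.inl h2
      · exact Or.inr h2.1
    · exact ⟨1, 1, le_rfl, one_pos, fun h => absurd h hs⟩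
  obtain ⟨L2, B2, hL2, hB2, h2⟩ := hsq
  obtain ⟨k, hk⟩ : ∃ k : ℕ, k = F.natDegree := ⟨_, rfl⟩
  have hk0 : (0 : ℝ) ≤ k := Nat.cast_nonneg k
  refine ⟨|Real.log B1| + (k + 1) + B2 * (k + 2), by positivity, ?_⟩
  intro s u S hs hS hsS hu hui n hn
  obtain ⟨W, hW, hWj, hWn⟩ := exists_W F hF s u hu
  have hzero : ∀ m, W m = 0 ↔ u m = 0 := by
    intro m
    have h3 := hWn m
    constructor
    · intro h4
      rw [h4, mul_zero] at h3
      exact (mul_eq_zero.1 h3).resolve_left (pow_ne_zero _ hs)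
    · intro h4
      rw [h4, mul_zero] at h3
      exact (mul_eq_zero.1 h3.symm).resolve_left (pow_ne_zero _ hs)
  have hS0 : 0 ≤ S := by linarith
  obtain ⟨A, hA⟩ : ∃ A : ℝ, A = Real.exp ((k + 1) * S) := ⟨_, rfl⟩
  have hlogA : Real.log A = (k + 1) * S := by rw [hA, Real.log_exp]
  have hA1 : 1 ≤ A := by
    rw [hA]
    exact Real.one_le_exp (by positivity)
  have hWle : ∀ j < F.natDegree, |(W j : ℝ)| ≤ A := by
    intro j hj
    rw [hWj j hj]
    push_cast
    rw [abs_mul, abs_pow]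
    calc |(s : ℝ)| ^ (F.natDegree - j) * |(u j : ℝ)| ≤ (Real.exp S) ^ k * Real.exp S := by
          refine mul_le_mul ?_ (hui j hj) (abs_nonneg _) (by positivity)
          calc |(s : ℝ)| ^ (F.natDegree - j) ≤ |(s : ℝ)| ^ k :=
                pow_le_pow_right₀ (one_le_abs hs) (by omega)
            _ ≤ _ := pow_le_pow_left₀ (abs_nonneg _) hsS _
      _ = A := by
          rw [hA, ← Real.exp_nat_mul, ← Real.exp_add]
          congr 1
          ring
  have hmul : (|Real.log B1| + (k + 1) + B2 * (k + 2)) * S =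
      |Real.log B1| * S + (k + 1) * S + B2 * ((k + 2) * S) := by ring
  have hp1 : 0 ≤ B2 * ((k + 2) * S) := by positivity
  have hp2 : |Real.log B1| * 1 ≤ |Real.log B1| * S :=
    mul_le_mul_of_nonneg_left hS (abs_nonneg _)
  constructor
  · rcases Nat.eq_zero_or_pos n with rfl | hn0
    · simp only [Nat.cast_zero, Real.log_zero]
      positivity
    · rcases h1 W hW A hA1 hWle n ((hzero n).2 hn.1) with h3 | h3
      · have h4 := Real.log_le_log (by exact_mod_cast hn0) h3
        rw [Real.log_mul hB1.ne' (by positivity), hlogA] at h4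
        have h5 := le_abs_self (Real.log B1)
        rw [hmul]
        linarith
      · exfalso
        obtain ⟨l, hl⟩ := hn.2 L (by omega)
        apply hl
        rw [← hzero]
        apply h3
        unfold Nat.ModEq
        simp
  · intro hs'
    by_contra hcon
    rw [not_le] at hcon
    have h3 : B2 * (1 + Real.log A) < n := by
      refine lt_of_le_of_lt ?_ hcon
      rw [hlogA, hmul]
      have h4 : B2 * (1 + (k + 1) * S) ≤ B2 * ((k + 2) * S) := by
        refine mul_le_mul_of_nonneg_left ?_ hB2.le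
        linarith only [hS]
      have h5 : 0 ≤ |Real.log B1| * S := by positivity
      have h6 : 0 ≤ ((k : ℝ) + 1) * S := by positivity
      linarith
    rcases h2 hs' W hW A hA1 hWle n h3 with h4 | h4
    · obtain ⟨l, hl⟩ := hn.2 L2 (by omega)
      exact hl ((hzero _).1 (h4 l))
    · exact h4 ((hzero n).2 hn.1)

/-! ### characteristic roots -/

theorem ann_of_map {L : Type} [Field L] [CharZero L] (h : ℤ[X]) (u : ℕ → ℤ)
    (hu : Ann (h.map (Int.castRingHom L)) (fun n => (u n : L))) : Ann h u := by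
  rw [ann_iff (Nat.lt_succ_self _)]
  intro n
  have h1 := (ann_iff (N := h.natDegree + 1)
    (lt_of_le_of_lt (natDegree_map_le) (Nat.lt_succ_self _))).1 hu n
  have h2 : ((∑ i ∈ range (h.natDegree + 1), h.coeff i * u (n + i) : ℤ) : L) = 0 := by
    rw [← h1]
    push_cast
    refine Finset.sum_congr rfl fun i _ => ?_
    rw [coeff_map]
    rfl
  exact_mod_cast h2

theorem strip {L : Type} [Field L] (v : ℕ → L) : ∀ (l : List L),
    (∀ w ∈ l, ∃ q : L[X], Ann q v ∧ q.eval w ≠ 0) → ∀ P : L[X],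
    Ann ((l.map (fun w => X - C w)).prod * P) v → Ann P v := by
  intro l
  induction l with
  | nil =>
    intro _ P hP
    rwa [List.map_nil, List.prod_nil, one_mul] at hP
  | cons w l ih =>
    intro hl P hP
    rw [List.map_cons, List.prod_cons, mul_assoc, mul_left_comm] at hP
    have h1 : Ann ((X - C w) * P) v := ih (fun w' hw' => hl w' (List.mem_cons_of_mem _ hw')) _ hP
    obtain ⟨q, hq, hqw⟩ := hl w (List.mem_cons_self)
    have h2 : IsCoprime (X - C w) q :=
      (irreducible_X_sub_C w).coprime_iff_not_dvd.2 fun h => hqw (dvd_iff_isRoot.1 h)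
    obtain ⟨a, b, hab⟩ := h2
    have h3 : P = a * ((X - C w) * P) + (b * P) * q := by
      calc P = (a * (X - C w) + b * q) * P := by rw [hab, one_mul]
        _ = _ := by ring
    have h4 := h1.mul_left a
    have h5 := hq.mul_left (b * P)
    unfold Ann at h4 h5 ⊢
    rw [h3, map_add, LinearMap.add_apply, h4, h5, add_zero]

theorem exists_char (L : Type) [Field L] [IsAlgClosed L] [CharZero L] (G h : ℤ[X]) (hG : G.Monic)
    (u : ℕ → ℤ) (hu : Ann (G * h) u) (hh : ¬ Ann h u) :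
    ∃ z : L, aeval z G = 0 ∧ ∀ q : L[X], Ann q (fun n => (u n : L)) → q.eval z = 0 := by
  by_contra hcon
  push Not at hcon
  obtain ⟨l, -, hl2, hl3⟩ := exists_list L G hG
  apply hh
  refine ann_of_map (L := L) h u ?_
  refine strip _ l (fun w hw => ?_) _ ?_
  · obtain ⟨q, hq1, hq2⟩ := hcon w (hl3 w hw)
    exact ⟨q, hq1, hq2⟩
  · rw [← hl2, ← Polynomial.map_mul]
    exact hu.map (Int.castRingHom L)

/-! ### comparison of roots -/

theorem root_div {L : Type} [Field L] [CharZero L] (g : ℤ[X]) (a : ℤ) (ha : a ≠ 0) (z : L)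
    (hz : aeval z (g.scaleRoots a) = 0) : ∃ z0 : L, aeval z0 g = 0 ∧ z = (a : L) * z0 := by
  have haL : (a : L) ≠ 0 := by exact_mod_cast ha
  have h1 : aeval ((a : L) * (z / a)) (g.scaleRoots a) = 0 := by
    rw [mul_div_cancel₀ _ haL]
    exact hz
  rw [aeval_def] at h1
  have h2 := scaleRoots_eval₂_mul (p := g) (algebraMap ℤ L) (z / a) a
  have h3 : (algebraMap ℤ L) a = (a : L) := rfl
  rw [h3] at h2
  rw [h2] at h1
  refine ⟨z / a, ?_, (mul_div_cancel₀ _ haL).symm⟩
  rw [aeval_def]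
  exact (mul_eq_zero.1 h1).resolve_left (pow_ne_zero _ haL)

theorem norm_poly_le_one {L : Type} [NormedField L] [IsUltrametricDist L] (q : ℤ[X]) (z : L)
    (hz : ‖z‖ ≤ 1) : ‖aeval z q‖ ≤ 1 := by
  rw [aeval_eq_sum_range]
  refine IsUltrametricDist.norm_sum_le_of_forall_le_of_nonneg zero_le_one fun i _ => ?_
  rw [zsmul_eq_mul, norm_mul, norm_pow]
  exact mul_le_one₀ (norm_int_le_one _) (by positivity) (pow_le_one₀ (norm_nonneg _) hz)

theorem coeff_zero_le {L : Type} [NormedField L] [IsUltrametricDist L] (g : ℤ[X]) (hg : g.Monic)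
    (z : L) (hz : aeval z g = 0) : ‖((g.coeff 0 : ℤ) : L)‖ ≤ ‖z‖ := by
  have h1 := norm_root_le_one g hg z hz
  have h2 := norm_poly_le_one g.divX z h1
  have h3 : aeval z g.divX * z + ((g.coeff 0 : ℤ) : L) = 0 := by
    have h4 := congrArg (aeval z) (divX_mul_X_add g)
    rw [map_add, map_mul, aeval_X, hz, aeval_C] at h4
    exact h4
  have h4 : ((g.coeff 0 : ℤ) : L) = -(aeval z g.divX * z) := eq_neg_of_add_eq_zero_right h3
  rw [h4, norm_neg, norm_mul]
  exact mul_le_of_le_one_left (norm_nonneg _) h2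

end Pool.Agent.Helper60.SP
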