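import Mathlib
import Pool.Agent.Helper60.SP.TwA

set_option autoImplicit false

/-!
Two twisted factors.
-/

namespace Pool.Agent.Helper60.SP

open Finset Polynomial
open Pool.Agent.H692R2.USS

/-- comparison at a prime -/
theorem dom_p (g h : ℤ[X]) (hg : g.Monic) (hh : h.Monic) (D N d0 : ℤ)
    (hD : D ≠ 0) (hN : N ≠ 0) (hd0 : d0 ≠ 0) (hDN : IsCoprime D N) (p k : ℕ)
    [hp : Fact p.Prime] (hk : (p : ℤ) ^ k ∣ N) (hk2 : ¬ (p : ℤ) ^ k ∣ g.coeff 0) (z w : ℂ_[p])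
    (hz : ((g.scaleRoots (D * d0)).map (Int.castRingHom ℂ_[p])).IsRoot z)
    (hw : ((h.scaleRoots (N * d0)).map (Int.castRingHom ℂ_[p])).IsRoot w) :
    (p : ℝ) * ‖w‖ ≤ ‖z‖ := by
  have hp0 : (0 : ℝ) < p := by exact_mod_cast hp.out.pos
  obtain ⟨z0, hz0, rfl⟩ := root_div g _ (mul_ne_zero hD hd0) z ((root_iff _ z).1 hz)
  obtain ⟨w0, hw0, rfl⟩ := root_div h _ (mul_ne_zero hN hd0) w ((root_iff _ w).1 hw)
  have h1 := coeff_zero_le g hg z0 hz0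
  have h2 := norm_root_le_one h hh w0 hw0
  have hk1 : k ≠ 0 := by
    rintro rfl
    rw [pow_zero] at hk2
    exact hk2 (one_dvd _)
  -- the norm of `N`
  have h3 : ‖(N : ℂ_[p])‖ ≤ (p : ℝ) ^ (-(k : ℤ)) := by
    rw [norm_int_padic]
    refine (Padic.norm_int_le_pow_iff_dvd N k).2 ?_
    exact_mod_cast hk
  -- the norm of `g(0)`
  have h4 : (p : ℝ) ^ (-(k : ℤ) + 1) ≤ ‖((g.coeff 0 : ℤ) : ℂ_[p])‖ := by
    rw [norm_int_padic]
    by_contra hcon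
    rw [not_le, ← Padic.norm_le_pow_iff_norm_lt_pow_add_one] at hcon
    have h5 := (Padic.norm_int_le_pow_iff_dvd (g.coeff 0) k).1 hcon
    apply hk2
    exact_mod_cast h5
  -- the norm of `D`
  have h5 : ‖(D : ℂ_[p])‖ = 1 := by
    rw [norm_int_padic]
    have h6 : ¬ ‖(D : ℚ_[p])‖ < 1 := by
      intro hlt
      have h7 : (p : ℤ) ∣ D := Padic.norm_intCast_lt_one_iff.1 hlt
      have h8 : (p : ℤ) ∣ N := (dvd_pow_self (p : ℤ) hk1).trans hk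
      have h9 := hDN.isUnit_of_dvd' h7 h8
      exact (Nat.prime_iff_prime_int.1 hp.out).not_isUnit h9
    exact le_antisymm (Padic.norm_int_le_one D) (not_lt.1 h6)
  push_cast
  rw [norm_mul, norm_mul, norm_mul, norm_mul, h5, one_mul]
  have h6 : (p : ℝ) * (p : ℝ) ^ (-(k : ℤ)) = (p : ℝ) ^ (-(k : ℤ) + 1) := by
    rw [zpow_add_one₀ hp0.ne', mul_comm]
  calc (p : ℝ) * (‖(N : ℂ_[p])‖ * ‖(d0 : ℂ_[p])‖ * ‖w0‖) ≤
      p * ((p : ℝ) ^ (-(k : ℤ)) * ‖(d0 : ℂ_[p])‖ * 1) := by gcongr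
    _ = ‖(d0 : ℂ_[p])‖ * (p : ℝ) ^ (-(k : ℤ) + 1) := by rw [← h6]; ring
    _ ≤ ‖(d0 : ℂ_[p])‖ * ‖z0‖ := by
        refine mul_le_mul_of_nonneg_left (h4.trans h1) (norm_nonneg _)

/-- comparison of complex roots -/
theorem dom_a (g h : ℤ[X]) (hg : g.Monic) (hg0 : g.coeff 0 ≠ 0) (hh : h.Monic) :
    ∃ M : ℕ, 1 ≤ M ∧ ∀ a b : ℤ, a ≠ 0 → b ≠ 0 → (M : ℝ) * |(b : ℝ)| ≤ |(a : ℝ)| → ∀ z w : ℂ,
      aeval z (g.scaleRoots a) = 0 → aeval w (h.scaleRoots b) = 0 → 2 * ‖w‖ ≤ ‖z‖ := by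
  have hfin1 : {z : ℂ | aeval z g = 0}.Finite := by
    have h1 := Polynomial.rootSet_finite g ℂ
    refine h1.subset fun z hz => ?_
    rw [Polynomial.mem_rootSet]
    exact ⟨hg.ne_zero, hz⟩
  have hfin2 : {w : ℂ | aeval w h = 0}.Finite := by
    have h1 := Polynomial.rootSet_finite h ℂ
    refine h1.subset fun z hz => ?_
    rw [Polynomial.mem_rootSet]
    exact ⟨hh.ne_zero, hz⟩
  have hne : ∀ z : ℂ, aeval z g = 0 → z ≠ 0 := by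
    rintro z hz rfl
    rw [aeval_def, eval₂_at_zero] at hz
    exact hg0 (by
      have : ((g.coeff 0 : ℤ) : ℂ) = 0 := hz
      exact_mod_cast this)
  obtain ⟨C1, hC1⟩ := (hfin1.image fun z => ‖z‖⁻¹).bddAbove
  obtain ⟨C2, hC2⟩ := (hfin2.image fun w => ‖w‖).bddAbove
  obtain ⟨M, hM⟩ := exists_nat_ge (2 * (|C2| * |C1|))
  refine ⟨M + 1, by omega, fun a b ha hb hab z w hz hw => ?_⟩
  obtain ⟨z0, hz0, rfl⟩ := root_div g a ha z hz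
  obtain ⟨w0, hw0, rfl⟩ := root_div h b hb w hw
  have h1 : ‖z0‖⁻¹ ≤ |C1| := (hC1 ⟨z0, hz0, rfl⟩).trans (le_abs_self _)
  have h2 : ‖w0‖ ≤ |C2| := (hC2 ⟨w0, hw0, rfl⟩).trans (le_abs_self _)
  have hz00 : 0 < ‖z0‖ := norm_pos_iff.2 (hne z0 hz0)
  have h3 : 1 ≤ |C1| * ‖z0‖ := by
    have h4 := mul_le_mul_of_nonneg_right h1 hz00.le
    rwa [inv_mul_cancel₀ hz00.ne'] at h4
  rw [norm_mul, norm_mul, Complex.norm_intCast, Complex.norm_intCast]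
  have hb0 : 0 ≤ |(b : ℝ)| := abs_nonneg _
  have h5 : 2 * (|C2| * |C1|) ≤ ((M + 1 : ℕ) : ℝ) := by
    push_cast
    linarith
  calc 2 * (|(b : ℝ)| * ‖w0‖) ≤ 2 * (|(b : ℝ)| * |C2|) := by gcongr
    _ = 2 * (|(b : ℝ)| * |C2|) * 1 := (mul_one _).symm
    _ ≤ 2 * (|(b : ℝ)| * |C2|) * (|C1| * ‖z0‖) := by gcongr
    _ = (2 * (|C2| * |C1|)) * |(b : ℝ)| * ‖z0‖ := by ring
    _ ≤ ((M + 1 : ℕ) : ℝ) * |(b : ℝ)| * ‖z0‖ := by gcongr
    _ ≤ |(a : ℝ)| * ‖z0‖ := by gcongr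

theorem exists_pp (N c : ℤ) (hNc : ¬ N ∣ c) : ∃ (p k : ℕ), p.Prime ∧ (p : ℤ) ^ k ∣ N ∧
    ¬ (p : ℤ) ^ k ∣ c := by
  by_contra hcon
  push Not at hcon
  apply hNc
  rw [← Int.natAbs_dvd_natAbs, Nat.dvd_iff_prime_pow_dvd_dvd]
  intro p k hp hk
  have h1 : (p : ℤ) ^ k ∣ N := by
    rw [← Int.natAbs_dvd_natAbs, Int.natAbs_pow, Int.natAbs_natCast]
    exact hk
  have h2 := hcon p k hp h1
  rw [← Int.natAbs_dvd_natAbs, Int.natAbs_pow, Int.natAbs_natCast] at h2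
  exact h2

theorem coprime_of {L : Type} [Field L] [CharZero L] [IsAlgClosed L] (G H : ℤ[X])
    (h : ∀ z : L, aeval z G = 0 → aeval z H ≠ 0) :
    IsCoprime (G.map (Int.castRingHom ℚ)) (H.map (Int.castRingHom ℚ)) := by
  refine (Polynomial.isCoprime_iff_aeval_ne_zero_of_isAlgClosed (k := ℚ) L _ _).2 fun z => ?_
  have e : ∀ P : ℤ[X], aeval z (P.map (Int.castRingHom ℚ)) = aeval z P := by
    intro P
    rw [aeval_def, aeval_def, eval₂_map]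
    congr 1
    exact RingHom.ext_int _ _
  rw [e, e]
  by_cases hz : aeval z G = 0
  · exact Or.inr (h z hz)
  · exact Or.inl hz

end Pool.Agent.Helper60.SP
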