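import Mathlib
import Pool.Agent.Helper60.SP.TwB

set_option autoImplicit false

/-!
The isolated zeros for two twisted factors, main cases.
-/

namespace Pool.Agent.Helper60.SP

open Finset Polynomial
open Pool.Agent.H692R2.USS

theorem map_scale (F : ℤ[X]) (hF : F.Monic) (s : ℤ) :
    (F.scaleRoots s).map (Int.castRingHom ℚ) = (F.map (Int.castRingHom ℚ)).scaleRoots (s : ℚ) := by
  rw [map_scaleRoots]
  · rfl
  · rw [hF.leadingCoeff, map_one]
    exact one_ne_zero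

theorem sqfree_scale (F : ℤ[X]) (hF : F.Monic) (s : ℤ)
    (h : Squarefree ((F.scaleRoots s).map (Int.castRingHom ℚ))) :
    Squarefree (F.map (Int.castRingHom ℚ)) := by
  rw [map_scale F hF] at h
  intro q hq
  obtain ⟨r, hr⟩ := hq
  have h1 : q.scaleRoots (s : ℚ) * q.scaleRoots (s : ℚ) ∣
      (F.map (Int.castRingHom ℚ)).scaleRoots (s : ℚ) := by
    refine ⟨r.scaleRoots (s : ℚ), ?_⟩
    rw [hr, mul_scaleRoots_of_noZeroDivisors, mul_scaleRoots_of_noZeroDivisors]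
  have h2 := h _ h1
  rw [Polynomial.isUnit_iff_degree_eq_zero] at h2 ⊢
  rwa [degree_scaleRoots] at h2

/-- the quotient of `a` and `b` is one of finitely many -/
def Ex (M : ℕ) (a b : ℤ) : Prop := ∃ D N d : ℤ, a = D * d ∧ b = N * d ∧ |D| ≤ M ∧ |N| ≤ M

theorem Ex.of_pow {M : ℕ} {a b : ℤ} (ha : a ≠ 0) (hb : b ≠ 0) {L : ℕ} (hL : 1 ≤ L)
    (h : Ex M (a ^ L) (b ^ L)) : Ex M a b := by
  obtain ⟨D1, N1, d1, h1, h2, h3, h4⟩ := h
  have hgcd : 0 < Int.gcd a b := Int.gcd_pos_of_ne_zero_left b ha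
  obtain ⟨D, N, hDN, haD, hbN⟩ := Int.exists_gcd_one hgcd
  obtain ⟨d0, hd0⟩ : ∃ d0 : ℤ, d0 = ((Int.gcd a b : ℕ) : ℤ) := ⟨_, rfl⟩
  rw [← hd0] at haD hbN
  have hd00 : d0 ≠ 0 := by
    rw [hd0]
    exact_mod_cast hgcd.ne'
  have hcop : IsCoprime (D ^ L) (N ^ L) := (Int.isCoprime_iff_gcd_eq_one.2 hDN).pow
  have hD10 : D1 ≠ 0 := by
    rintro rfl
    rw [zero_mul] at h1
    exact pow_ne_zero _ ha h1
  have hN10 : N1 ≠ 0 := by
    rintro rfl
    rw [zero_mul] at h2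
    exact pow_ne_zero _ hb h2
  have hd10 : d1 ≠ 0 := by
    rintro rfl
    rw [mul_zero] at h1
    exact pow_ne_zero _ ha h1
  have hkey : D ^ L * N1 = N ^ L * D1 := by
    have e1 : (D ^ L * N1) * (d0 ^ L * d1) = (N ^ L * D1) * (d0 ^ L * d1) := by
      have f1 : D ^ L * d0 ^ L = D1 * d1 := by rw [← mul_pow, ← haD, h1]
      have f2 : N ^ L * d0 ^ L = N1 * d1 := by rw [← mul_pow, ← hbN, h2]
      calc (D ^ L * N1) * (d0 ^ L * d1) = (D ^ L * d0 ^ L) * (N1 * d1) := by ring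
        _ = (D1 * d1) * (N ^ L * d0 ^ L) := by rw [f1, f2]
        _ = _ := by ring
    exact mul_right_cancel₀ (mul_ne_zero (pow_ne_zero _ hd00) hd10) e1
  have hdv1 : D ^ L ∣ D1 := hcop.dvd_of_dvd_mul_left ⟨N1, hkey.symm⟩
  have hdv2 : N ^ L ∣ N1 := hcop.symm.dvd_of_dvd_mul_left ⟨D1, hkey⟩
  refine ⟨D, N, d0, haD, hbN, ?_, ?_⟩
  · exact (Int.le_of_dvd (abs_pos.2 hD10) ((abs_dvd_abs _ _).2
      ((dvd_pow_self D (by omega)).trans hdv1))).trans h3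
  · exact (Int.le_of_dvd (abs_pos.2 hN10) ((abs_dvd_abs _ _).2
      ((dvd_pow_self N (by omega)).trans hdv2))).trans h4

/-- finitely many recurrences and their twists -/
theorem twistE (g h : ℤ[X]) (hg : g.Monic) (hg0 : g.coeff 0 ≠ 0) (hh : h.Monic)
    (hh0 : h.coeff 0 ≠ 0) (hhd : 1 ≤ h.natDegree) (M : ℕ) :
    ∃ B : ℝ, 0 ≤ B ∧ ∀ (a b : ℤ) (u : ℕ → ℤ) (S : ℝ), a ≠ 0 → b ≠ 0 → 1 ≤ S →
      |(a : ℝ)| ≤ Real.exp S → Ann (g.scaleRoots a * h.scaleRoots b) u →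
      (∀ i < g.natDegree + h.natDegree, |(u i : ℝ)| ≤ Real.exp S) → Ex M a b →
      ∀ n, Iso u n → Real.log n ≤ B * S ∧
        (Squarefree ((g.scaleRoots a * h.scaleRoots b).map (Int.castRingHom ℚ)) →
          (n : ℝ) ≤ B * S) := by
  classical
  have hex : ∀ x : ℤ × ℤ, ∃ B : ℝ, 0 ≤ B ∧ (x.1 ≠ 0 → x.2 ≠ 0 → ∀ (s : ℤ) (u : ℕ → ℤ) (S : ℝ),
      s ≠ 0 → 1 ≤ S → |(s : ℝ)| ≤ Real.exp S →
      Ann ((g.scaleRoots x.1 * h.scaleRoots x.2).scaleRoots s) u →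
      (∀ i < (g.scaleRoots x.1 * h.scaleRoots x.2).natDegree, |(u i : ℝ)| ≤ Real.exp S) →
      ∀ n, Iso u n → Real.log n ≤ B * S ∧
        (Squarefree ((g.scaleRoots x.1 * h.scaleRoots x.2).map (Int.castRingHom ℚ)) →
          (n : ℝ) ≤ B * S)) := by
    rintro ⟨D, N⟩
    by_cases hD : D = 0
    · exact ⟨0, le_rfl, fun h1 => absurd hD h1⟩
    by_cases hN : N = 0
    · exact ⟨0, le_rfl, fun _ h1 => absurd hN h1⟩
    have hmD : (g.scaleRoots D).Monic := (monic_scaleRoots_iff D).2 hg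
    have hmN : (h.scaleRoots N).Monic := (monic_scaleRoots_iff N).2 hh
    obtain ⟨B, hB, h1⟩ := fixedT (g.scaleRoots D * h.scaleRoots N) (hmD.mul hmN)
      (by rw [hmD.natDegree_mul hmN, natDegree_scaleRoots, natDegree_scaleRoots]; omega)
      (by
        rw [mul_coeff_zero, coeff_scaleRoots, coeff_scaleRoots]
        exact mul_ne_zero (mul_ne_zero hg0 (pow_ne_zero _ hD)) (mul_ne_zero hh0 (pow_ne_zero _ hN)))
    exact ⟨B, hB, fun _ _ => h1⟩
  choose BF hBF0 hBF using hex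
  obtain ⟨T, hTdef⟩ : ∃ T : Finset (ℤ × ℤ), T = Finset.Icc (-(M : ℤ)) M ×ˢ
    Finset.Icc (-(M : ℤ)) M := ⟨_, rfl⟩
  refine ⟨∑ x ∈ T, BF x, Finset.sum_nonneg fun x _ => hBF0 x, ?_⟩
  intro a b u S ha hb hS haS hann hui hE n hn
  have hS0 : 0 ≤ S := by linarith
  obtain ⟨D, N, d0, haD, hbN, hDM, hNM⟩ := hE
  have hD0 : D ≠ 0 := by
    rintro rfl
    exact ha (by rw [haD, zero_mul])
  have hN0 : N ≠ 0 := by
    rintro rfl
    exact hb (by rw [hbN, zero_mul])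
  have hd00 : d0 ≠ 0 := by
    rintro rfl
    exact ha (by rw [haD, mul_zero])
  have hmem : (D, N) ∈ T := by
    rw [hTdef, Finset.mem_product, Finset.mem_Icc, Finset.mem_Icc]
    exact ⟨abs_le.1 hDM, abs_le.1 hNM⟩
  have hle : BF (D, N) ≤ ∑ x ∈ T, BF x :=
    Finset.single_le_sum (f := BF) (fun x _ => hBF0 x) hmem
  have hsc : (g.scaleRoots D * h.scaleRoots N).scaleRoots d0 =
      g.scaleRoots a * h.scaleRoots b := by
    rw [mul_scaleRoots_of_noZeroDivisors, ← scaleRoots_mul, ← scaleRoots_mul, ← haD, ← hbN]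
  have hmD : (g.scaleRoots D).Monic := (monic_scaleRoots_iff D).2 hg
  have hmN : (h.scaleRoots N).Monic := (monic_scaleRoots_iff N).2 hh
  have hd0S : |(d0 : ℝ)| ≤ Real.exp S := by
    refine le_trans ?_ haS
    rw [haD]
    push_cast
    rw [abs_mul]
    exact le_mul_of_one_le_left (abs_nonneg _) (one_le_abs hD0)
  obtain ⟨h1, h2⟩ := hBF (D, N) hD0 hN0 d0 u S hd00 hS hd0S
    (by rw [hsc]; exact hann)
    (by
      rw [hmD.natDegree_mul hmN, natDegree_scaleRoots, natDegree_scaleRoots]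
      exact hui) n hn
  have h3 : BF (D, N) * S ≤ (∑ x ∈ T, BF x) * S := mul_le_mul_of_nonneg_right hle hS0
  refine ⟨h1.trans h3, fun hsq => (h2 ?_).trans h3⟩
  rw [← hsc] at hsq
  exact sqfree_scale _ (hmD.mul hmN) _ hsq

/-- the other cases -/
theorem twist0 (g h : ℤ[X]) (hg : g.Monic) (hg0 : g.coeff 0 ≠ 0)
    (hnd : ∀ z z' : ℂ, aeval z g = 0 → aeval z' g = 0 → z ≠ z' → ∀ k : ℕ, 1 ≤ k →
      z ^ k ≠ z' ^ k) (hh : h.Monic) (hh0 : h.coeff 0 ≠ 0) (hhd : 1 ≤ h.natDegree) :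
    ∃ (B : ℝ) (M : ℕ), 0 ≤ B ∧ ∀ (a b : ℤ) (u : ℕ → ℤ) (S : ℝ), a ≠ 0 → b ≠ 0 → 1 ≤ S →
      |(a : ℝ)| ≤ Real.exp S → |(b : ℝ)| ≤ Real.exp S →
      Ann (g.scaleRoots a * h.scaleRoots b) u →
      (∀ i, |((g.scaleRoots a * h.scaleRoots b).coeff i : ℝ)| ≤ Real.exp S) →
      (∀ i < g.natDegree + h.natDegree, |(u i : ℝ)| ≤ Real.exp S) → ¬ Ex M a b →
      ∀ n, Iso u n → Real.log n ≤ B * S ^ 2 ∧
        (Squarefree (g.map (Int.castRingHom ℚ)) → Squarefree (h.map (Int.castRingHom ℚ)) →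
          (n : ℝ) ≤ B * S ^ 2) := by
  classical
  obtain ⟨B1, hB1, hT⟩ := fixedT h hh hhd hh0
  obtain ⟨B2, hB2, hA⟩ := thmA g hg hg0 hnd 1 le_rfl
  obtain ⟨B3, hB3, hP⟩ := thmP g hg hg0 hnd 1 le_rfl
  obtain ⟨M, hM1, hM⟩ := dom_a g h hg hg0 hh
  obtain ⟨k, hk⟩ : ∃ k : ℝ, k = h.natDegree + 1 := ⟨_, rfl⟩
  have hk1 : 1 ≤ k := by
    rw [hk]
    have : (0 : ℝ) ≤ h.natDegree := Nat.cast_nonneg _
    linarith
  refine ⟨B1 + (B2 + B3) * k ^ 2, M * (g.coeff 0).natAbs, by positivity, ?_⟩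
  intro a b u S ha hb hS haS hbS hann hco hui hEx n hn
  have hS0 : 0 ≤ S := by linarith
  have hSS : S ≤ S ^ 2 := by nlinarith only [hS]
  have hSS0 : 0 ≤ S ^ 2 := sq_nonneg S
  have hmA : (g.scaleRoots a).Monic := (monic_scaleRoots_iff a).2 hg
  have hmB : (h.scaleRoots b).Monic := (monic_scaleRoots_iff b).2 hh
  -- it suffices to have a smaller bound
  have red : ∀ C : ℝ, C ≤ B1 + (B2 + B3) * k ^ 2 → ∀ x : ℝ, x ≤ C * S ^ 2 →
      x ≤ (B1 + (B2 + B3) * k ^ 2) * S ^ 2 := fun C hC x hx =>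
    hx.trans (mul_le_mul_of_nonneg_right hC hSS0)
  have hkk : 0 ≤ (B2 + B3) * k ^ 2 := by positivity
  -- the greatest common divisor
  have hgcd : 0 < Int.gcd a b := Int.gcd_pos_of_ne_zero_left b ha
  obtain ⟨D, N, hDN, haD, hbN⟩ := Int.exists_gcd_one hgcd
  obtain ⟨d0, hd0⟩ : ∃ d0 : ℤ, d0 = ((Int.gcd a b : ℕ) : ℤ) := ⟨_, rfl⟩
  rw [← hd0] at haD hbN
  have hd00 : d0 ≠ 0 := by
    rw [hd0]
    exact_mod_cast hgcd.ne'
  have hcop : IsCoprime D N := Int.isCoprime_iff_gcd_eq_one.2 hDN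
  have hD0 : D ≠ 0 := by
    rintro rfl
    exact ha (by rw [haD, zero_mul])
  have hN0 : N ≠ 0 := by
    rintro rfl
    exact hb (by rw [hbN, zero_mul])
  have hE : ¬ (N ∣ g.coeff 0 ∧ |D| ≤ M * |N|) := by
    rintro ⟨hE1, hE2⟩
    apply hEx
    have hN1 : |N| ≤ |g.coeff 0| := Int.le_of_dvd (abs_pos.2 hg0) ((abs_dvd_abs _ _).2 hE1)
    have e1 : ((M * (g.coeff 0).natAbs : ℕ) : ℤ) = M * |g.coeff 0| := by
      push_cast
      rfl
    refine ⟨D, N, d0, haD, hbN, ?_, ?_⟩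
    · rw [e1]
      exact hE2.trans (mul_le_mul_of_nonneg_left hN1 (Int.natCast_nonneg M))
    · rw [e1]
      have : (1 : ℤ) ≤ M := by exact_mod_cast hM1
      exact hN1.trans (le_mul_of_one_le_left (abs_nonneg _) this)
  by_cases hAnn : Ann (h.scaleRoots b) u
  · -- the second factor only
    obtain ⟨h1, h2⟩ := hT b u S hb hS hbS hAnn (fun i hi => hui i (by omega)) n hn
    have h3 : ∀ x : ℝ, x ≤ B1 * S → x ≤ (B1 + (B2 + B3) * k ^ 2) * S ^ 2 := by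
      intro x hx
      exact red B1 (by linarith) x (hx.trans (mul_le_mul_of_nonneg_left hSS hB1))
    exact ⟨h3 _ h1, fun _ hsq => h3 _ (h2 hsq)⟩
  -- the first factor dominates
  obtain ⟨S', hS'⟩ : ∃ S' : ℝ, S' = k * S := ⟨_, rfl⟩
  have hSS' : S ≤ S' := by
    rw [hS']
    exact le_mul_of_one_le_left hS0 hk1
  have hexp : Real.exp S ≤ Real.exp S' := Real.exp_le_exp.2 hSS'
  have hS'2 : S' ^ 2 = k ^ 2 * S ^ 2 := by
    rw [hS']
    ring
  have hsit : IsCoprime ((g.scaleRoots a).map (Int.castRingHom ℚ))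
      ((h.scaleRoots b).map (Int.castRingHom ℚ)) → Sit (g.scaleRoots a) (h.scaleRoots b) u S' := by
    intro hc
    refine ⟨hmB, hc, hann, hS.trans hSS', ?_, fun i => (hco i).trans hexp, fun i hi => ?_⟩
    · rw [natDegree_scaleRoots, hS', hk]
      have h1 : (0 : ℝ) ≤ h.natDegree := Nat.cast_nonneg _
      nlinarith only [h1, hS]
    · rw [natDegree_scaleRoots, natDegree_scaleRoots] at hi
      exact (hui i hi).trans hexp
  have hfin : ∀ B : ℝ, 0 ≤ B → B ≤ B2 + B3 → ¬ BC g B (S' ^ 2) n →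
      Real.log n ≤ (B1 + (B2 + B3) * k ^ 2) * S ^ 2 ∧
        (Squarefree (g.map (Int.castRingHom ℚ)) → Squarefree (h.map (Int.castRingHom ℚ)) →
          (n : ℝ) ≤ (B1 + (B2 + B3) * k ^ 2) * S ^ 2) := by
    intro B hB hBle hbc
    unfold BC at hbc
    rw [not_or, not_lt, not_and, not_lt] at hbc
    have h3 : ∀ x : ℝ, x ≤ B * S' ^ 2 → x ≤ (B1 + (B2 + B3) * k ^ 2) * S ^ 2 := by
      intro x hx
      refine red ((B2 + B3) * k ^ 2) (by linarith) x (hx.trans ?_)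
      rw [hS'2, ← mul_assoc]
      exact mul_le_mul_of_nonneg_right (mul_le_mul_of_nonneg_right hBle (sq_nonneg k)) hSS0
    exact ⟨h3 _ hbc.1, fun hsq _ => h3 _ (hbc.2 hsq)⟩
  by_cases hE1 : N ∣ g.coeff 0
  · -- the complex absolute value
    have hlt : (M : ℝ) * |(b : ℝ)| ≤ |(a : ℝ)| := by
      have h1 : (M : ℤ) * |N| ≤ |D| := by
        by_contra hcon
        exact hE ⟨hE1, by omega⟩
      have h2 : (M : ℝ) * |(N : ℝ)| ≤ |(D : ℝ)| := by exact_mod_cast h1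
      rw [haD, hbN]
      push_cast
      rw [abs_mul, abs_mul, ← mul_assoc]
      exact mul_le_mul_of_nonneg_right h2 (abs_nonneg _)
    have hdom := hM a b ha hb hlt
    obtain ⟨z, hz1, hz2⟩ := exists_char ℂ (g.scaleRoots a) (h.scaleRoots b) hmA u hann hAnn
    refine hfin B2 hB2 (by linarith) fun hbc => ?_
    refine hA a _ u S' ha (haS.trans hexp) (hsit ?_) z hz2 ((root_iff _ z).2 hz1) ?_ n hbc hn.1
    · refine coprime_of (L := ℂ) _ _ fun z' hz' hw' => ?_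
      have h1 := hdom z' z' hz' hw'
      have h2 : ‖z'‖ = 0 := by
        have := norm_nonneg z'
        linarith
      rw [norm_eq_zero] at h2
      subst h2
      rw [aeval_def, eval₂_at_zero, coeff_scaleRoots] at hz'
      have h3 : ((g.coeff 0 * a ^ (g.natDegree - 0) : ℤ) : ℂ) = 0 := hz'
      have h4 : g.coeff 0 * a ^ (g.natDegree - 0) = 0 := by exact_mod_cast h3
      exact (mul_ne_zero hg0 (pow_ne_zero _ ha)) h4
    · intro w hw
      have h1 := hdom z w hz1 ((root_iff _ w).1 hw)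
      rw [Nat.cast_one, one_mul]
      linarith
  · -- a prime
    obtain ⟨p, e, hp, hpe1, hpe2⟩ := exists_pp N (g.coeff 0) hE1
    have : Fact p.Prime := ⟨hp⟩
    have hp1 : (1 : ℝ) < p := by exact_mod_cast hp.one_lt
    have hdom : ∀ z w : ℂ_[p], ((g.scaleRoots a).map (Int.castRingHom ℂ_[p])).IsRoot z →
        ((h.scaleRoots b).map (Int.castRingHom ℂ_[p])).IsRoot w → (p : ℝ) * ‖w‖ ≤ ‖z‖ := by
      intro z w hz hw
      rw [haD] at hz
      rw [hbN] at hw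
      exact dom_p g h hg hh D N d0 hD0 hN0 hd00 hcop p e hpe1 hpe2 z w hz hw
    obtain ⟨z, hz1, hz2⟩ := exists_char ℂ_[p] (g.scaleRoots a) (h.scaleRoots b) hmA u hann hAnn
    refine hfin B3 hB3 (by linarith) fun hbc => ?_
    refine hP a _ u S' ha (haS.trans hexp) (hsit ?_) p this z hz2 ((root_iff _ z).2 hz1) ?_ n hbc
      hn.1
    · refine coprime_of (L := ℂ_[p]) _ _ fun z' hz' hw' => ?_
      have h1 := hdom z' z' ((root_iff _ z').2 hz') ((root_iff _ z').2 hw')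
      have h2 : ‖z'‖ = 0 := by
        have := norm_nonneg z'
        nlinarith only [h1, this, hp1]
      rw [norm_eq_zero] at h2
      subst h2
      rw [← root_iff, IsRoot.def, eval_map, eval₂_at_zero, coeff_scaleRoots] at hz'
      have h3 : ((g.coeff 0 * a ^ (g.natDegree - 0) : ℤ) : ℂ_[p]) = 0 := hz'
      have h4 : g.coeff 0 * a ^ (g.natDegree - 0) = 0 := by exact_mod_cast h3
      exact (mul_ne_zero hg0 (pow_ne_zero _ ha)) h4
    · intro w hw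
      rw [pow_one, pow_one]
      exact hdom z w ((root_iff _ z).2 hz1) hw

end Pool.Agent.Helper60.SP
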