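import Mathlib
import Pool.Agent.Helper60.SP.TwC

set_option autoImplicit false

/-!
Passing to subsequences.
-/

namespace Pool.Agent.Helper60.SP

open Finset Polynomial
open Pool.Agent.H692R2.USS

/-- equal powers of the roots -/
theorem exists_L (g : ℤ[X]) (hg : g.Monic) : ∃ L : ℕ, 1 ≤ L ∧ ∀ z z' : ℂ, aeval z g = 0 →
    aeval z' g = 0 → ∀ k : ℕ, 1 ≤ k → z ^ k = z' ^ k → z ^ L = z' ^ L := by
  classical
  have hfin : {z : ℂ | aeval z g = 0}.Finite := by
    have h1 := Polynomial.rootSet_finite g ℂ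
    refine h1.subset fun z hz => ?_
    rw [Polynomial.mem_rootSet]
    exact ⟨hg.ne_zero, hz⟩
  have hex : ∀ x : ℂ × ℂ, ∃ k : ℕ, 1 ≤ k ∧
      ((∃ k : ℕ, 1 ≤ k ∧ x.1 ^ k = x.2 ^ k) → x.1 ^ k = x.2 ^ k) := by
    intro x
    by_cases h : ∃ k : ℕ, 1 ≤ k ∧ x.1 ^ k = x.2 ^ k
    · obtain ⟨k, hk, hk2⟩ := h
      exact ⟨k, hk, fun _ => hk2⟩
    · exact ⟨1, le_rfl, fun h' => absurd h' h⟩
  choose k hk1 hk2 using hex
  set T : Finset (ℂ × ℂ) := hfin.toFinset ×ˢ hfin.toFinset with hT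
  refine ⟨∏ x ∈ T, k x, Finset.one_le_prod' fun x _ => hk1 x, fun z z' hz hz' e he1 he2 => ?_⟩
  have hmem : (z, z') ∈ T := by
    rw [hT, Finset.mem_product, Set.Finite.mem_toFinset, Set.Finite.mem_toFinset]
    exact ⟨hz, hz'⟩
  obtain ⟨q, hq⟩ := Finset.dvd_prod_of_mem k hmem
  have h1 := hk2 (z, z') ⟨e, he1, he2⟩
  simp only at h1
  rw [hq, pow_mul, pow_mul, h1]

theorem conj_pow (h : ℤ[X]) (L : ℕ) (z w : ℂ) (hz : IsIntegral ℤ z) (hzh : aeval z h = 0)
    (hw : aeval w (minpoly ℤ (z ^ L)) = 0) : ∃ y : ℂ, aeval y h = 0 ∧ y ^ L = w := by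
  have hzL : IsIntegral ℤ (z ^ L) := hz.pow L
  have hzQ : IsIntegral ℚ z := hz.tower_top
  have hfd := IntermediateField.adjoin.finiteDimensional hzQ
  obtain ⟨x, hx⟩ : ∃ x : IntermediateField.adjoin ℚ {z}, x =
    IntermediateField.AdjoinSimple.gen ℚ z := ⟨_, rfl⟩
  have hxz : algebraMap (IntermediateField.adjoin ℚ {z}) ℂ x = z := by
    rw [hx]
    exact IntermediateField.AdjoinSimple.algebraMap_gen ℚ z
  have h1 : minpoly ℚ (x ^ L) = (minpoly ℤ (z ^ L)).map (algebraMap ℤ ℚ) := by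
    have e1 : z ^ L = algebraMap (IntermediateField.adjoin ℚ {z}) ℂ (x ^ L) := by
      rw [map_pow, hxz]
    have e2 := minpoly.algebraMap_eq (A := ℚ)
      (algebraMap (IntermediateField.adjoin ℚ {z}) ℂ).injective (x ^ L)
    rw [← minpoly.isIntegrallyClosed_eq_field_fractions' ℚ hzL, e1, e2]
  have h2 : w ∈ (minpoly ℚ (x ^ L)).rootSet ℂ := by
    rw [Polynomial.mem_rootSet]
    refine ⟨?_, ?_⟩
    · rw [h1]
      exact ((minpoly.monic hzL).map _).ne_zero
    · rw [h1, aeval_map_algebraMap]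
      exact hw
  rw [← Algebra.IsAlgebraic.range_eval_eq_rootSet_minpoly] at h2
  obtain ⟨φ, hφ⟩ := h2
  refine ⟨φ x, ?_, ?_⟩
  · have h3 : aeval x h = 0 := by
      apply (algebraMap (IntermediateField.adjoin ℚ {z}) ℂ).injective
      rw [map_zero, ← aeval_algebraMap_apply, hxz]
      exact hzh
    have h4 := congrArg φ h3
    rw [map_zero] at h4
    rw [← h4]
    exact aeval_algHom_apply (φ.restrictScalars ℤ) x h
  · rw [← map_pow]
    exact hφ

theorem powpoly (h : ℤ[X]) (hh : h.Monic) (hh0 : h.coeff 0 ≠ 0) (L : ℕ) (hL : 1 ≤ L) :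
    ∃ P : ℤ[X], P.Monic ∧ P.coeff 0 ≠ 0 ∧ h ∣ expand ℤ L P ∧
      (Squarefree (h.map (Int.castRingHom ℚ)) → Squarefree (P.map (Int.castRingHom ℚ))) ∧
      ∀ w : ℂ, aeval w P = 0 → ∃ z : ℂ, aeval z h = 0 ∧ z ^ L = w := by
  classical
  have hfin : {z : ℂ | aeval z h = 0}.Finite := by
    have h1 := Polynomial.rootSet_finite h ℂ
    refine h1.subset fun z hz => ?_
    rw [Polynomial.mem_rootSet]
    exact ⟨hh.ne_zero, hz⟩
  have hint : ∀ z : ℂ, aeval z h = 0 → IsIntegral ℤ z := fun z hz => ⟨h, hh, hz⟩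
  set R : Finset ℂ := hfin.toFinset with hR
  have hRmem : ∀ z, z ∈ R ↔ aeval z h = 0 := fun z => Set.Finite.mem_toFinset hfin
  set T : Finset ℤ[X] := R.image fun z => minpoly ℤ (z ^ L) with hT
  have hTmem : ∀ m ∈ T, ∃ z : ℂ, aeval z h = 0 ∧ m = minpoly ℤ (z ^ L) := by
    intro m hm
    obtain ⟨z, hz, hzm⟩ := Finset.mem_image.1 hm
    exact ⟨z, (hRmem z).1 hz, hzm.symm⟩
  set Q : ℤ[X] := ∏ m ∈ T, m with hQ
  have hQmon : Q.Monic := monic_prod_of_monic _ _ fun m hm => by
    obtain ⟨z, hz, rfl⟩ := hTmem m hm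
    exact minpoly.monic ((hint z hz).pow L)
  obtain ⟨e, he1, he2⟩ : ∃ e : ℕ, (∀ z : ℂ, ((h.map (algebraMap ℤ ℂ)).roots.count z) ≤ e) ∧
      (Squarefree (h.map (Int.castRingHom ℚ)) → e = 1) := by
    by_cases hs : Squarefree (h.map (Int.castRingHom ℚ))
    · refine ⟨1, fun z => ?_, fun _ => rfl⟩
      have h1 : (h.map (algebraMap ℤ ℂ)).Separable := by
        have h2 : (h.map (Int.castRingHom ℚ)).Separable := PerfectField.separable_iff_squarefree.2 hs
        have h3 := h2.map (f := algebraMap ℚ ℂ)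
        rw [Polynomial.map_map] at h3
        have h4 : (algebraMap ℚ ℂ).comp (Int.castRingHom ℚ) = algebraMap ℤ ℂ :=
          RingHom.ext_int _ _
        rw [h4] at h3
        exact h3
      exact Multiset.nodup_iff_count_le_one.1 (nodup_roots h1) z
    · refine ⟨(h.map (algebraMap ℤ ℂ)).natDegree, fun z => ?_, fun h' => absurd h' hs⟩
      exact (Multiset.count_le_card _ _).trans (card_roots' _)
  have hroot : ∀ w : ℂ, aeval w (Q ^ e) = 0 → ∃ z : ℂ, aeval z h = 0 ∧ z ^ L = w := by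
    intro w hw
    rw [map_pow] at hw
    have h2 : aeval w Q = 0 := by
      by_contra hne
      exact pow_ne_zero _ hne hw
    rw [hQ, map_prod, Finset.prod_eq_zero_iff] at h2
    obtain ⟨m, hm, hmw⟩ := h2
    obtain ⟨z, hz, rfl⟩ := hTmem m hm
    exact conj_pow h L z w (hint z hz) hz hmw
  refine ⟨Q ^ e, hQmon.pow e, ?_, ?_, ?_, hroot⟩
  · intro h0
    have h1 : aeval (0 : ℂ) (Q ^ e) = 0 := by
      rw [aeval_def, eval₂_at_zero, h0, map_zero]
    obtain ⟨z, hz, hzL⟩ := hroot 0 h1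
    have h2 : z = 0 := by
      by_contra hne
      exact pow_ne_zero _ hne hzL
    rw [h2, aeval_def, eval₂_at_zero] at hz
    have h3 : ((h.coeff 0 : ℤ) : ℂ) = 0 := hz
    exact hh0 (by exact_mod_cast h3)
  · have hinj : Function.Injective (algebraMap ℤ ℂ) := (algebraMap ℤ ℂ).injective_int
    rw [← Polynomial.map_dvd_map (algebraMap ℤ ℂ) hinj hh]
    have hsp : (h.map (algebraMap ℤ ℂ)).Splits := IsAlgClosed.splits _
    have h2 := hsp.eq_prod_roots
    rw [(hh.map (algebraMap ℤ ℂ)).leadingCoeff, map_one, one_mul] at h2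
    have hne : ((expand ℤ L (Q ^ e)).map (algebraMap ℤ ℂ)) ≠ 0 := by
      refine (Monic.map _ ?_).ne_zero
      exact Monic.expand (by omega) (hQmon.pow e)
    rw [h2, Multiset.prod_X_sub_C_dvd_iff_le_roots hne, Multiset.le_iff_count]
    intro z
    by_cases hz : aeval z h = 0
    · refine (he1 z).trans ?_
      rw [map_pow, Polynomial.map_pow, roots_pow, Multiset.count_nsmul]
      have h3 : 1 ≤ Multiset.count z ((expand ℤ L Q).map (algebraMap ℤ ℂ)).roots := by
        rw [Multiset.one_le_count_iff_mem, mem_roots]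
        · rw [IsRoot.def, eval_map_algebraMap, expand_aeval, hQ, map_prod]
          refine Finset.prod_eq_zero (i := minpoly ℤ (z ^ L)) ?_ (minpoly.aeval _ _)
          exact Finset.mem_image.2 ⟨z, (hRmem z).2 hz, rfl⟩
        · refine (Monic.map _ ?_).ne_zero
          exact Monic.expand (by omega) hQmon
      exact Nat.le_mul_of_pos_right _ h3
    · have h3 : Multiset.count z (h.map (algebraMap ℤ ℂ)).roots = 0 := by
        rw [Multiset.count_eq_zero]
        intro hmem
        rw [mem_roots (hh.map _).ne_zero, IsRoot.def, eval_map_algebraMap] at hmem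
        exact hz hmem
      rw [h3]
      exact Nat.zero_le _
  · intro hs
    rw [he2 hs, pow_one, hQ, Polynomial.map_prod]
    have hirr : ∀ m ∈ T, Irreducible (m.map (Int.castRingHom ℚ)) := by
      intro m hm
      obtain ⟨z, hz, rfl⟩ := hTmem m hm
      have h1 := minpoly.isIntegrallyClosed_eq_field_fractions' ℚ ((hint z hz).pow L)
      have h2 : algebraMap ℤ ℚ = Int.castRingHom ℚ := rfl
      rw [h2] at h1
      rw [← h1]
      exact minpoly.irreducible ((hint z hz).pow L).tower_top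
    refine Finset.squarefree_prod_of_pairwise_isCoprime ?_ fun m hm => (hirr m hm).squarefree
    intro m hm m' hm' hne
    show IsRelPrime (m.map (Int.castRingHom ℚ)) (m'.map (Int.castRingHom ℚ))
    rw [(hirr m hm).isRelPrime_iff_not_dvd]
    intro hdvd
    apply hne
    have h1 := (hirr m hm).associated_of_dvd (hirr m' hm') hdvd
    obtain ⟨z, hz, hzm⟩ := hTmem m hm
    obtain ⟨z', hz', hzm'⟩ := hTmem m' hm'
    have hmm : (m.map (Int.castRingHom ℚ)).Monic := by
      rw [hzm]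
      exact (minpoly.monic ((hint z hz).pow L)).map _
    have hmm' : (m'.map (Int.castRingHom ℚ)).Monic := by
      rw [hzm']
      exact (minpoly.monic ((hint z' hz').pow L)).map _
    have h2 := eq_of_monic_of_associated hmm hmm' h1
    exact map_injective _ (RingHom.injective_int (Int.castRingHom ℚ)) h2

end Pool.Agent.Helper60.SP
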