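import Mathlib
import Pool.Agent.Helper60.SP.TwD

set_option autoImplicit false

/-!
The isolated zeros for two twisted factors, all cases.
-/

namespace Pool.Agent.Helper60.SP

open Finset Polynomial
open Pool.Agent.H692R2.USS

theorem ann_sub (P : ℤ[X]) (L : ℕ) (u : ℕ → ℤ) (hu : Ann (expand ℤ L P) u) (r : ℕ) :
    Ann P (fun n => u (L * n + r)) := by
  rw [ann_iff (Nat.lt_succ_self _)]
  intro n
  have h1 : aeval (E ℤ) (expand ℤ L P) u = 0 := hu
  rw [expand_aeval, aeval_eq_sum_range] at h1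
  have h2 := congrFun h1 (L * n + r)
  rw [LinearMap.sum_apply, Finset.sum_apply] at h2
  refine (Finset.sum_congr rfl fun i _ => ?_).trans h2
  rw [LinearMap.smul_apply, Pi.smul_apply, smul_eq_mul, ← pow_mul, E_pow_apply]
  congr 2
  ring

theorem expand_scale (P : ℤ[X]) (L : ℕ) (hL : 0 < L) (a : ℤ) :
    (expand ℤ L P).scaleRoots a = expand ℤ L (P.scaleRoots (a ^ L)) := by
  ext n
  rw [coeff_scaleRoots, coeff_expand hL, coeff_expand hL, natDegree_expand]
  split_ifs with h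
  · obtain ⟨m, rfl⟩ := h
    rw [Nat.mul_div_cancel_left m hL, coeff_scaleRoots, ← pow_mul]
    congr 2
    rw [Nat.mul_sub, mul_comm]
  · rw [zero_mul]

/-- the sum of the absolute values of the coefficients -/
noncomputable def G1 (P : ℤ[X]) : ℝ := ∑ i ∈ range (P.natDegree + 1), |(P.coeff i : ℝ)|

theorem G1_ge (P : ℤ[X]) (i : ℕ) : |(P.coeff i : ℝ)| ≤ G1 P := by
  by_cases hi : i < P.natDegree + 1
  · exact Finset.single_le_sum (f := fun i => |(P.coeff i : ℝ)|) (fun _ _ => abs_nonneg _)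
      (Finset.mem_range.2 hi)
  · rw [coeff_eq_zero_of_natDegree_lt (by omega), Int.cast_zero, abs_zero]
    exact Finset.sum_nonneg fun _ _ => abs_nonneg _

theorem G1_one (P : ℤ[X]) (hP : P.Monic) : 1 ≤ G1 P := by
  have h := G1_ge P P.natDegree
  rw [hP.coeff_natDegree, Int.cast_one, abs_one] at h
  exact h

theorem coeff_mul_le (P Q : ℤ[X]) (A B : ℝ) (hA0 : 0 ≤ A) (hB0 : 0 ≤ B)
    (hA : ∀ i, |(P.coeff i : ℝ)| ≤ A) (hB : ∀ i, |(Q.coeff i : ℝ)| ≤ B) (i : ℕ) :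
    |((P * Q).coeff i : ℝ)| ≤ ((P.natDegree : ℝ) + Q.natDegree + 1) * (A * B) := by
  by_cases hi : i ≤ P.natDegree + Q.natDegree
  · rw [coeff_mul]
    push_cast
    refine (Finset.abs_sum_le_sum_abs _ _).trans ?_
    refine (Finset.sum_le_card_nsmul _ _ (A * B) fun x _ => ?_).trans ?_
    · rw [abs_mul]
      exact mul_le_mul (hA _) (hB _) (abs_nonneg _) hA0
    · rw [Finset.Nat.card_antidiagonal, nsmul_eq_mul]
      refine mul_le_mul_of_nonneg_right ?_ (mul_nonneg hA0 hB0)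
      have : (i : ℝ) ≤ P.natDegree + Q.natDegree := by exact_mod_cast hi
      push_cast
      linarith
  · rw [coeff_eq_zero_of_natDegree_lt (lt_of_le_of_lt natDegree_mul_le (by omega)),
      Int.cast_zero, abs_zero]
    positivity

theorem scale_coeff_le (P : ℤ[X]) (a : ℤ) (ha : a ≠ 0) (T : ℝ) (haT : |(a : ℝ)| ≤ Real.exp T)
    (i : ℕ) : |((P.scaleRoots a).coeff i : ℝ)| ≤ G1 P * Real.exp (P.natDegree * T) := by
  rw [coeff_scaleRoots]
  push_cast
  rw [abs_mul, abs_pow]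
  refine mul_le_mul (G1_ge P i) ?_ (by positivity)
    (Finset.sum_nonneg fun _ _ => abs_nonneg _)
  rw [Real.exp_nat_mul]
  calc |(a : ℝ)| ^ (P.natDegree - i) ≤ |(a : ℝ)| ^ P.natDegree :=
        pow_le_pow_right₀ (one_le_abs ha) (Nat.sub_le _ _)
    _ ≤ _ := pow_le_pow_left₀ (abs_nonneg _) haT _

theorem twistAll (g h : ℤ[X]) (hg : g.Monic) (hg0 : g.coeff 0 ≠ 0) (hh : h.Monic)
    (hh0 : h.coeff 0 ≠ 0) (hhd : 1 ≤ h.natDegree) :
    ∃ B : ℝ, 0 ≤ B ∧ ∀ (a b : ℤ) (u : ℕ → ℤ) (S : ℝ), a ≠ 0 → b ≠ 0 → 1 ≤ S →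
      |(a : ℝ)| ≤ Real.exp S → |(b : ℝ)| ≤ Real.exp S →
      Ann (g.scaleRoots a * h.scaleRoots b) u →
      (∀ i, |((g.scaleRoots a * h.scaleRoots b).coeff i : ℝ)| ≤ Real.exp S) →
      (∀ i < g.natDegree + h.natDegree, |(u i : ℝ)| ≤ Real.exp S) →
      ∀ n, Iso u n → Real.log n ≤ B * S ^ 2 ∧
        (Squarefree ((g.scaleRoots a * h.scaleRoots b).map (Int.castRingHom ℚ)) →
          (n : ℝ) ≤ B * S ^ 2) := by
  classical
  obtain ⟨L, hL, hLz⟩ := exists_L g hg
  obtain ⟨P, hP, hP0, hgP, hPsq, hPr⟩ := powpoly g hg hg0 L hL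
  obtain ⟨Q, hQ, hQ0, hhQ, hQsq, -⟩ := powpoly h hh hh0 L hL
  have hPnd : ∀ z z' : ℂ, aeval z P = 0 → aeval z' P = 0 → z ≠ z' → ∀ k : ℕ, 1 ≤ k →
      z ^ k ≠ z' ^ k := by
    intro w w' hw hw' hne k hk heq
    obtain ⟨z, hz, rfl⟩ := hPr w hw
    obtain ⟨z', hz', rfl⟩ := hPr w' hw'
    apply hne
    rw [← pow_mul, ← pow_mul] at heq
    exact hLz z z' hz hz' (L * k) (Nat.mul_pos hL hk) heq
  have hQd : 1 ≤ Q.natDegree := by
    have h1 := natDegree_le_of_dvd hhQ (Monic.expand (by omega) hQ).ne_zero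
    rw [natDegree_expand] at h1
    by_contra hcon
    have h2 : Q.natDegree = 0 := by omega
    rw [h2, zero_mul] at h1
    omega
  obtain ⟨B0, M, hB0, h0⟩ := twist0 P Q hP hP0 hPnd hQ hQ0 hQd
  obtain ⟨B1, hB1, hE⟩ := twistE g h hg hg0 hh hh0 hhd M
  obtain ⟨dP, hdP⟩ : ∃ d : ℕ, d = P.natDegree := ⟨_, rfl⟩
  obtain ⟨dQ, hdQ⟩ : ∃ d : ℕ, d = Q.natDegree := ⟨_, rfl⟩
  obtain ⟨dd, hdd⟩ : ∃ d : ℕ, d = g.natDegree + h.natDegree := ⟨_, rfl⟩
  obtain ⟨N0, hN0⟩ : ∃ N0 : ℕ, N0 = L * (dP + dQ) + L := ⟨_, rfl⟩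
  have hGP := G1_one P hP
  have hGQ := G1_one Q hQ
  obtain ⟨cc, hcc⟩ : ∃ cc : ℝ, cc = Real.log (((dP : ℝ) + dQ + 1) * (G1 P * G1 Q)) := ⟨_, rfl⟩
  have harg : 1 ≤ ((dP : ℝ) + dQ + 1) * (G1 P * G1 Q) := by
    have e1 : (1 : ℝ) ≤ (dP : ℝ) + dQ + 1 := by
      have : (0 : ℝ) ≤ (dP : ℝ) + dQ := by positivity
      linarith
    have e2 : 1 ≤ G1 P * G1 Q := one_le_mul_of_one_le_of_one_le hGP hGQ
    exact one_le_mul_of_one_le_of_one_le e1 e2
  have hcc0 : 0 ≤ cc := by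
    rw [hcc]
    exact Real.log_nonneg harg
  obtain ⟨c, hc⟩ : ∃ c : ℝ, c = 1 + L + (cc + L * (dP + dQ)) + N0 * (dd + 1) := ⟨_, rfl⟩
  have hc1 : 1 ≤ c := by
    rw [hc]
    have : 0 ≤ (L : ℝ) + (cc + L * (dP + dQ)) + N0 * (dd + 1) := by positivity
    linarith
  have hL0 : (1 : ℝ) ≤ L := by exact_mod_cast hL
  have hlog2L : 0 ≤ Real.log (2 * L) := Real.log_nonneg (by linarith)
  refine ⟨B1 + (Real.log (2 * L) + B0 * c ^ 2) + L * (B0 * c ^ 2 + 1), by positivity, ?_⟩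
  intro a b u S ha hb hS haS hbS hann hco hui n hn
  have hS0 : 0 ≤ S := by linarith
  have hSS : S ≤ S ^ 2 := by nlinarith only [hS]
  have hSS1 : 1 ≤ S ^ 2 := hS.trans hSS
  have hSS0 : 0 ≤ S ^ 2 := sq_nonneg S
  have hBc : 0 ≤ B0 * c ^ 2 := by positivity
  have hLB : 0 ≤ L * (B0 * c ^ 2 + 1) := by positivity
  have red : ∀ C : ℝ, C ≤ B1 + (Real.log (2 * L) + B0 * c ^ 2) + L * (B0 * c ^ 2 + 1) →
      ∀ x : ℝ, x ≤ C * S ^ 2 →
      x ≤ (B1 + (Real.log (2 * L) + B0 * c ^ 2) + L * (B0 * c ^ 2 + 1)) * S ^ 2 := fun C hC x hx =>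
    hx.trans (mul_le_mul_of_nonneg_right hC hSS0)
  by_cases hEx : Ex M a b
  · obtain ⟨h1, h2⟩ := hE a b u S ha hb hS haS hann hui hEx n hn
    have h3 : ∀ x : ℝ, x ≤ B1 * S → x ≤ (B1 + (Real.log (2 * L) + B0 * c ^ 2) +
        L * (B0 * c ^ 2 + 1)) * S ^ 2 := fun x hx =>
      red B1 (by linarith) x (hx.trans (mul_le_mul_of_nonneg_left hSS hB1))
    exact ⟨h3 _ h1, fun hsq => h3 _ (h2 hsq)⟩
  -- the subsequence
  obtain ⟨q, hq⟩ : ∃ q, q = n / L := ⟨_, rfl⟩
  obtain ⟨r, hr⟩ : ∃ r, r = n % L := ⟨_, rfl⟩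
  have hn' : n = L * q + r := by
    rw [hq, hr]
    exact (Nat.div_add_mod n L).symm
  have hrL : r < L := by
    rw [hr]
    exact Nat.mod_lt _ (by omega)
  obtain ⟨v, hv⟩ : ∃ v : ℕ → ℤ, v = fun m => u (L * m + r) := ⟨_, rfl⟩
  have hviso : Iso v q := by
    refine ⟨?_, fun e he => ?_⟩
    · rw [hv]
      simp only
      rw [← hn']
      exact hn.1
    · obtain ⟨l, hl⟩ := hn.2 (L * e) (Nat.mul_pos hL he)
      refine ⟨l, ?_⟩
      rw [hv]
      simp only
      have e1 : L * (q + e * l) + r = n + L * e * l := by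
        rw [hn']
        ring
      rw [e1]
      exact hl
  have hdvd : g.scaleRoots a * h.scaleRoots b ∣
      expand ℤ L (P.scaleRoots (a ^ L) * Q.scaleRoots (b ^ L)) := by
    rw [map_mul, ← expand_scale P L hL, ← expand_scale Q L hL]
    refine mul_dvd_mul ?_ ?_
    · obtain ⟨q1, hq1⟩ := hgP
      rw [hq1, mul_scaleRoots_of_noZeroDivisors]
      exact dvd_mul_right _ _
    · obtain ⟨q1, hq1⟩ := hhQ
      rw [hq1, mul_scaleRoots_of_noZeroDivisors]
      exact dvd_mul_right _ _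
  have hvann : Ann (P.scaleRoots (a ^ L) * Q.scaleRoots (b ^ L)) v := by
    rw [hv]
    exact ann_sub _ L u (hann.of_dvd hdvd) r
  obtain ⟨S1, hS1⟩ : ∃ S1 : ℝ, S1 = c * S := ⟨_, rfl⟩
  have hS11 : 1 ≤ S1 := by
    rw [hS1]
    exact one_le_mul_of_one_le_of_one_le hc1 hS
  have hle : ∀ x : ℝ, x ≤ c → x * S ≤ S1 := by
    intro x hx
    rw [hS1]
    exact mul_le_mul_of_nonneg_right hx hS0
  have hpw : ∀ x : ℤ, |(x : ℝ)| ≤ Real.exp S → |((x ^ L : ℤ) : ℝ)| ≤ Real.exp (L * S) := by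
    intro x hx
    push_cast
    rw [abs_pow, Real.exp_nat_mul]
    exact pow_le_pow_left₀ (abs_nonneg _) hx _
  have hLS : (L : ℝ) * S ≤ S1 := hle L (by
    rw [hc]
    have : 0 ≤ 1 + (cc + L * (dP + dQ)) + N0 * ((dd : ℝ) + 1) := by positivity
    linarith)
  have hco' : ∀ i, |((P.scaleRoots (a ^ L) * Q.scaleRoots (b ^ L)).coeff i : ℝ)| ≤
      Real.exp S1 := by
    intro i
    refine (coeff_mul_le _ _ (G1 P * Real.exp (dP * (L * S))) (G1 Q * Real.exp (dQ * (L * S)))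
      (by positivity) (by positivity) (fun i => ?_) (fun i => ?_) i).trans ?_
    · rw [hdP]
      exact scale_coeff_le P _ (pow_ne_zero _ ha) _ (hpw a haS) i
    · rw [hdQ]
      exact scale_coeff_le Q _ (pow_ne_zero _ hb) _ (hpw b hbS) i
    · rw [natDegree_scaleRoots, natDegree_scaleRoots, ← hdP, ← hdQ]
      have e1 : ((dP : ℝ) + dQ + 1) * (G1 P * Real.exp (dP * (L * S)) *
          (G1 Q * Real.exp (dQ * (L * S)))) =
          Real.exp (cc + L * (dP + dQ) * S) := by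
        rw [Real.exp_add, hcc, Real.exp_log (by linarith)]
        have e2 : (L : ℝ) * (dP + dQ) * S = dP * (L * S) + dQ * (L * S) := by ring
        rw [e2, Real.exp_add]
        ring
      rw [e1]
      refine Real.exp_le_exp.2 ?_
      have e3 : cc * 1 ≤ cc * S := mul_le_mul_of_nonneg_left hS hcc0
      have e4 : (cc + L * (dP + dQ)) * S ≤ S1 := hle _ (by
        rw [hc]
        have : 0 ≤ 1 + (L : ℝ) + N0 * ((dd : ℝ) + 1) := by positivity
        linarith)
      linarith only [e3, e4]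
  have hGf : 1 + GG (g.scaleRoots a * h.scaleRoots b) ≤ Real.exp ((dd + 1) * S) := by
    have e0 : (g.scaleRoots a * h.scaleRoots b).natDegree = dd := by
      rw [((monic_scaleRoots_iff a).2 hg).natDegree_mul ((monic_scaleRoots_iff b).2 hh),
        natDegree_scaleRoots, natDegree_scaleRoots, hdd]
    have e1 : GG (g.scaleRoots a * h.scaleRoots b) ≤ dd * Real.exp S := by
      unfold GG
      refine (Finset.sum_le_card_nsmul _ _ (Real.exp S) fun i _ => hco i).trans ?_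
      rw [Finset.card_range, nsmul_eq_mul, e0]
    have e2 : 1 ≤ Real.exp S := Real.one_le_exp hS0
    have e3 : (dd : ℝ) + 1 ≤ Real.exp (dd * S) := by
      have f1 := Real.add_one_le_exp ((dd : ℝ) * S)
      have f2 : (dd : ℝ) * 1 ≤ dd * S := mul_le_mul_of_nonneg_left hS (Nat.cast_nonneg _)
      linarith
    calc 1 + GG (g.scaleRoots a * h.scaleRoots b) ≤ Real.exp S + dd * Real.exp S := by linarith
      _ = (dd + 1) * Real.exp S := by ring
      _ ≤ Real.exp (dd * S) * Real.exp S := mul_le_mul_of_nonneg_right e3 (Real.exp_pos _).le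
      _ = Real.exp ((dd + 1) * S) := by
          rw [← Real.exp_add]
          congr 1
          ring
  have hvi : ∀ i < P.natDegree + Q.natDegree, |(v i : ℝ)| ≤ Real.exp S1 := by
    intro i hi
    have e0 : L * i + r ≤ N0 := by
      rw [hN0, hdP, hdQ]
      have : L * i ≤ L * (P.natDegree + Q.natDegree) := Nat.mul_le_mul_left _ hi.le
      omega
    have e1 := growth (g.scaleRoots a * h.scaleRoots b)
      (((monic_scaleRoots_iff a).2 hg).mul ((monic_scaleRoots_iff b).2 hh)) u hann (Real.exp S)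
      (by
        rw [((monic_scaleRoots_iff a).2 hg).natDegree_mul ((monic_scaleRoots_iff b).2 hh),
          natDegree_scaleRoots, natDegree_scaleRoots]
        exact hui) (Real.exp_pos _).le (L * i + r)
    have e2 : (1 + GG (g.scaleRoots a * h.scaleRoots b)) ^ (L * i + r) ≤
        Real.exp (N0 * ((dd + 1) * S)) := by
      rw [Real.exp_nat_mul]
      have f1 : 1 ≤ Real.exp ((dd + 1) * S) := Real.one_le_exp (by positivity)
      have f2 : 0 ≤ 1 + GG (g.scaleRoots a * h.scaleRoots b) := by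
        have := GG_nonneg (g.scaleRoots a * h.scaleRoots b)
        linarith
      exact (pow_le_pow_left₀ f2 hGf _).trans (pow_le_pow_right₀ f1 e0)
    rw [hv]
    refine e1.trans ((mul_le_mul_of_nonneg_left e2 (Real.exp_pos _).le).trans ?_)
    rw [← Real.exp_add]
    refine Real.exp_le_exp.2 ?_
    have e3 : (1 + N0 * ((dd : ℝ) + 1)) * S ≤ S1 := hle _ (by
      rw [hc]
      have : 0 ≤ (L : ℝ) + (cc + L * (dP + dQ)) := by positivity
      linarith)
    linarith only [e3]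
  have hEx' : ¬ Ex M (a ^ L) (b ^ L) := fun h' => hEx (h'.of_pow ha hb hL)
  obtain ⟨h1, h2⟩ := h0 (a ^ L) (b ^ L) v S1 (pow_ne_zero _ ha) (pow_ne_zero _ hb) hS11
    ((hpw a haS).trans (Real.exp_le_exp.2 hLS)) ((hpw b hbS).trans (Real.exp_le_exp.2 hLS))
    hvann hco' hvi hEx' q hviso
  have hS12 : S1 ^ 2 = c ^ 2 * S ^ 2 := by
    rw [hS1]
    ring
  rw [hS12, ← mul_assoc] at h1 h2
  have hnle : (n : ℝ) ≤ L * (q + 1) := by
    have : n ≤ L * (q + 1) := by
      rw [hn', Nat.mul_succ]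
      omega
    exact_mod_cast this
  constructor
  · refine red (Real.log (2 * L) + B0 * c ^ 2) (by linarith) _ ?_
    rcases Nat.eq_zero_or_pos n with hn0 | hn0
    · rw [hn0, Nat.cast_zero, Real.log_zero]
      positivity
    · have hn0' : (0 : ℝ) < n := by exact_mod_cast hn0
      rcases Nat.eq_zero_or_pos q with hq0 | hq0
      · have e1 : (n : ℝ) ≤ 2 * L := by
          rw [hq0, Nat.cast_zero] at hnle
          linarith
        have e2 := Real.log_le_log hn0' e1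
        have e3 : Real.log (2 * L) * 1 ≤ Real.log (2 * L) * S ^ 2 :=
          mul_le_mul_of_nonneg_left hSS1 hlog2L
        have e4 : 0 ≤ B0 * c ^ 2 * S ^ 2 := by positivity
        linarith only [e2, e3, e4]
      · have hq0' : (1 : ℝ) ≤ q := by exact_mod_cast hq0
        have e1 : (n : ℝ) ≤ 2 * L * q := by
          have f1 : (L : ℝ) * 1 ≤ L * q := mul_le_mul_of_nonneg_left hq0' (by linarith)
          linarith only [f1, hnle]
        have e2 := Real.log_le_log hn0' e1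
        rw [Real.log_mul (by positivity) (by positivity)] at e2
        have e3 : Real.log (2 * L) * 1 ≤ Real.log (2 * L) * S ^ 2 :=
          mul_le_mul_of_nonneg_left hSS1 hlog2L
        linarith only [e2, e3, h1]
  · intro hsq
    rw [Polynomial.map_mul] at hsq
    have hsg := sqfree_scale _ hg _ (hsq.squarefree_of_dvd (dvd_mul_right _ _))
    have hsh := sqfree_scale _ hh _ (hsq.squarefree_of_dvd (dvd_mul_left _ _))
    have h3 := h2 (hPsq hsg) (hQsq hsh)
    refine red (L * (B0 * c ^ 2 + 1)) (by linarith) _ ?_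
    calc (n : ℝ) ≤ L * (q + 1) := hnle
      _ ≤ L * (B0 * c ^ 2 * S ^ 2 + S ^ 2) := by
          refine mul_le_mul_of_nonneg_left ?_ (by linarith)
          linarith only [h3, hSS1]
      _ = _ := by ring

end Pool.Agent.Helper60.SP
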